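import Mathlib
open Finset
open scoped RealInnerProductSpace

namespace Pool.Agent.Helper95

section KyFan
variable {E : Type*} [NormedAddCommGroup E] [InnerProductSpace ℝ E] [FiniteDimensional ℝ E]
  {T : E →ₗ[ℝ] E} {N : ℕ}

theorem inner_apply_eq_sum (hT : T.IsSymmetric) (hn : Module.finrank ℝ E = N) (v : E) :
    ⟪v, T v⟫ = ∑ j, hT.eigenvalues hn j * ⟪hT.eigenvectorBasis hn j, v⟫ ^ 2 := by
  rw [← (hT.eigenvectorBasis hn).sum_inner_mul_inner v (T v)]
  apply Finset.sum_congr rfl
  intro j _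
  have h1 : ⟪hT.eigenvectorBasis hn j, T v⟫ = hT.eigenvalues hn j * ⟪hT.eigenvectorBasis hn j, v⟫ := by
    rw [← hT, hT.apply_eigenvectorBasis hn j]
    rw [inner_smul_left]
    simp
  rw [h1, real_inner_comm]
  ring

/-- Ky Fan: the trace on an orthonormal `k`-frame is at most the sum of the `k` largest eigenvalues. -/
theorem ky_fan_le (hT : T.IsSymmetric) (hn : Module.finrank ℝ E = N) {k : ℕ} (hk : k ≤ N)
    (v : Fin k → E) (hv : Orthonormal ℝ v) :
    ∑ i, ⟪v i, T (v i)⟫ ≤ ∑ j : Fin k, hT.eigenvalues hn (Fin.castLE hk j) := by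
  classical
  rcases Nat.eq_zero_or_pos k with hk0 | hk0
  · subst hk0; simp
  set μ := hT.eigenvalues hn with hμ
  set b := hT.eigenvectorBasis hn with hb
  set p : Fin N → ℝ := fun j => ∑ i, ⟪b j, v i⟫ ^ 2 with hp
  have hp0 : ∀ j, 0 ≤ p j := fun j => Finset.sum_nonneg (fun i _ => sq_nonneg _)
  have hp1 : ∀ j, p j ≤ 1 := by
    intro j
    have h1 := hv.sum_inner_products_le (x := b j) (s := Finset.univ)
    have h2 : ‖b j‖ = 1 := b.orthonormal.1 j
    rw [h2] at h1
    calc p j = ∑ i, ‖⟪v i, b j⟫‖ ^ 2 := by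
          simp only [hp]
          apply Finset.sum_congr rfl
          intro i _
          rw [Real.norm_eq_abs, sq_abs, real_inner_comm]
      _ ≤ 1 ^ 2 := h1
      _ = 1 := one_pow 2
  have hpsum : ∑ j, p j = k := by
    simp only [hp]
    rw [Finset.sum_comm]
    have : ∀ i, ∑ j, ⟪b j, v i⟫ ^ 2 = 1 := by
      intro i
      have h1 := b.sum_inner_mul_inner (v i) (v i)
      rw [real_inner_self_eq_norm_sq, hv.1 i] at h1
      rw [← one_pow 2, ← h1]
      apply Finset.sum_congr rfl
      intro j _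
      rw [real_inner_comm]; ring
    simp [this]
  have hlhs : ∑ i, ⟪v i, T (v i)⟫ = ∑ j, μ j * p j := by
    simp only [hp, Finset.mul_sum]
    rw [Finset.sum_comm]
    apply Finset.sum_congr rfl
    intro i _
    exact inner_apply_eq_sum hT hn (v i)
  have hanti : Antitone μ := hT.eigenvalues_antitone hn
  set c : ℝ := μ ⟨k - 1, by omega⟩ with hc
  set χ : Fin N → ℝ := fun j => if (j : ℕ) < k then 1 else 0 with hχ
  have hcast : ∀ g : Fin N → ℝ, ∑ j : Fin k, g (Fin.castLE hk j) = ∑ j, g j * χ j := by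
    intro g
    apply Fintype.sum_of_injective (Fin.castLE hk) (Fin.castLE_injective hk)
    · intro j hj
      have : ¬ (j : ℕ) < k := by
        intro h
        exact hj ⟨⟨j, h⟩, by ext; simp⟩
      simp [hχ, this]
    · intro j
      simp [hχ]
  have hχsum : ∑ j, χ j = k := by
    have := hcast (fun _ => 1)
    simp at this
    rw [← this]
  rw [hlhs, hcast μ]
  have hterm : ∀ j, (μ j - c) * (p j - χ j) ≤ 0 := by
    intro j
    by_cases hj : (j : ℕ) < k
    · have h1 : c ≤ μ j := hanti (by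
        rw [Fin.le_def]
        simp only
        omega)
      have h2 : χ j = 1 := by simp [hχ, hj]
      rw [h2]
      exact mul_nonpos_of_nonneg_of_nonpos (by linarith) (by linarith [hp1 j])
    · have h1 : μ j ≤ c := hanti (by
        rw [Fin.le_def]
        simp only
        omega)
      have h2 : χ j = 0 := by simp [hχ, hj]
      rw [h2]
      exact mul_nonpos_of_nonpos_of_nonneg (by linarith) (by linarith [hp0 j])
  have hsum : ∑ j, (μ j - c) * (p j - χ j) ≤ 0 := Finset.sum_nonpos (fun j _ => hterm j)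
  have hexp : ∑ j, (μ j - c) * (p j - χ j) =
      ∑ j, μ j * p j - ∑ j, μ j * χ j - c * (∑ j, p j - ∑ j, χ j) := by
    rw [mul_sub, Finset.mul_sum, Finset.mul_sum, ← Finset.sum_sub_distrib, ← Finset.sum_sub_distrib,
      ← Finset.sum_sub_distrib]
    apply Finset.sum_congr rfl
    intro j _
    ring
  rw [hexp, hpsum, hχsum] at hsum
  linarith

theorem ky_fan_eq (hT : T.IsSymmetric) (hn : Module.finrank ℝ E = N) {k : ℕ} (hk : k ≤ N) :
    ∑ i : Fin k, ⟪hT.eigenvectorBasis hn (Fin.castLE hk i), T (hT.eigenvectorBasis hn (Fin.castLE hk i))⟫ =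
      ∑ j : Fin k, hT.eigenvalues hn (Fin.castLE hk j) := by
  apply Finset.sum_congr rfl
  intro i _
  rw [hT.apply_eigenvectorBasis hn, inner_smul_right, real_inner_self_eq_norm_sq,
    (hT.eigenvectorBasis hn).orthonormal.1]
  simp

end KyFan

end Pool.Agent.Helper95
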