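import Mathlib
import Pool.Agent.Lib.Helper95.KyFan
open Finset
open scoped RealInnerProductSpace

namespace Pool.Agent.Helper95

section MinMax
variable {𝒟 : Type*} [AddCommGroup 𝒟] [Module ℝ 𝒟] (b q : 𝒟 →ₗ[ℝ] 𝒟 →ₗ[ℝ] ℝ)

/-- `b`-orthonormal frames. -/
def IsFrame {k : ℕ} (f : Fin k → 𝒟) : Prop := ∀ i j, b (f i) (f j) = if i = j then 1 else 0

/-- Courant–Fischer min–max values (`j = 0, 1, ...`) of the quadratic form `q` relative to `b`. -/
noncomputable def minmax (j : ℕ) : ℝ :=
  sInf {c : ℝ | ∃ V : Submodule ℝ 𝒟, Module.finrank ℝ V = j + 1 ∧ ∀ f ∈ V, q f f ≤ c * b f f}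

variable {b q}

theorem bilin_sum {ι κ : Type*} [Fintype ι] [Fintype κ] (B : 𝒟 →ₗ[ℝ] 𝒟 →ₗ[ℝ] ℝ) (x : ι → ℝ) (y : κ → ℝ)
    (f : ι → 𝒟) (g : κ → 𝒟) :
    B (∑ i, x i • f i) (∑ j, y j • g j) = ∑ i, ∑ j, x i * y j * B (f i) (g j) := by
  simp only [map_sum, LinearMap.sum_apply, map_smul, LinearMap.smul_apply, smul_eq_mul]
  simp only [Finset.mul_sum]
  rw [Finset.sum_comm]
  apply Finset.sum_congr rfl
  intro i _
  apply Finset.sum_congr rfl
  intro j _
  ring

theorem IsFrame.b_sum {k : ℕ} {f : Fin k → 𝒟} (hf : IsFrame b f) (x y : Fin k → ℝ) :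
    b (∑ i, x i • f i) (∑ j, y j • f j) = ∑ i, x i * y i := by
  rw [bilin_sum]
  apply Finset.sum_congr rfl
  intro i _
  rw [Finset.sum_eq_single i]
  · rw [hf, if_pos rfl, mul_one]
  · intro j _ hj
    rw [hf, if_neg (Ne.symm hj), mul_zero]
  · intro h; exact absurd (Finset.mem_univ i) h

theorem IsFrame.linearIndependent {k : ℕ} {f : Fin k → 𝒟} (hf : IsFrame b f) :
    LinearIndependent ℝ f := by
  rw [Fintype.linearIndependent_iff]
  intro x hx i
  have h := hf.b_sum x (fun j => if j = i then 1 else 0)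
  rw [hx] at h
  simp at h
  exact h.symm

theorem IsFrame.comp {k N : ℕ} {f : Fin N → 𝒟} (hf : IsFrame b f) (e : Fin k → Fin N)
    (he : Function.Injective e) : IsFrame b (fun i => f (e i)) := by
  intro i j
  rw [hf]
  by_cases h : i = j
  · simp [h]
  · rw [if_neg h, if_neg (fun h' => h (he h'))]

/-- Simultaneous diagonalisation on a frame. -/
theorem exists_diag_frame (hq : ∀ f g, q f g = q g f) {N : ℕ} {f : Fin N → 𝒟} (hf : IsFrame b f) :
    ∃ (g : Fin N → 𝒟) (ν : Fin N → ℝ), IsFrame b g ∧ Monotone ν ∧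
      (∀ i j, q (g i) (g j) = if i = j then ν i else 0) ∧ ∑ i, ν i = ∑ i, q (f i) (f i) ∧
      (∀ i, g i ∈ Submodule.span ℝ (Set.range f)) := by
  classical
  set A : Matrix (Fin N) (Fin N) ℝ := Matrix.of (fun i j => q (f i) (f j)) with hA
  have hAh : A.IsHermitian := by
    rw [Matrix.IsHermitian, Matrix.conjTranspose_eq_transpose_of_trivial]
    ext i j
    simp [hA, hq (f j) (f i)]
  have hT := Matrix.isSymmetric_toEuclideanLin_iff.mpr hAh
  have hn : Module.finrank ℝ (EuclideanSpace ℝ (Fin N)) = N := finrank_euclideanSpace_fin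
  set u := hT.eigenvectorBasis hn with hu
  set μ := hT.eigenvalues hn with hμ
  have hinner : ∀ x y : EuclideanSpace ℝ (Fin N), ⟪x, y⟫ = ∑ a, x a * y a := by
    intro x y
    rw [PiLp.inner_apply]
    apply Finset.sum_congr rfl
    intro a _
    simp [mul_comm]
  have hTin : ∀ x y : EuclideanSpace ℝ (Fin N), ⟪x, Matrix.toEuclideanLin A y⟫ =
      ∑ a, ∑ c, x a * y c * q (f a) (f c) := by
    intro x y
    rw [hinner]
    apply Finset.sum_congr rfl
    intro a _
    simp only [Matrix.toLpLin_apply, Matrix.mulVec, dotProduct]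
    rw [Finset.mul_sum]
    apply Finset.sum_congr rfl
    intro c _
    simp only [hA, Matrix.of_apply]
    ring
  refine ⟨fun i => ∑ a, u (Fin.rev i) a • f a, fun i => μ (Fin.rev i), ?_, ?_, ?_, ?_, ?_⟩
  · intro i j
    rw [hf.b_sum, ← hinner]
    have := orthonormal_iff_ite.mp u.orthonormal (Fin.rev i) (Fin.rev j)
    rw [this]
    simp [Fin.rev_inj]
  · intro i j hij
    exact hT.eigenvalues_antitone hn (Fin.rev_le_rev.mpr hij)
  · intro i j
    rw [bilin_sum, ← hTin, hT.apply_eigenvectorBasis hn, inner_smul_right]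
    have := orthonormal_iff_ite.mp u.orthonormal (Fin.rev i) (Fin.rev j)
    rw [this]
    by_cases h : i = j
    · subst h; simp [hμ]
    · simp [Fin.rev_inj, h]
  · have h1 : ∑ i, μ (Fin.rev i) = ∑ i, μ i := by
      exact Fintype.sum_equiv Fin.revPerm _ _ (fun i => rfl)
    rw [h1]
    have h2 : ∀ i, q (f i) (f i) = ⟪EuclideanSpace.single i (1 : ℝ), Matrix.toEuclideanLin A (EuclideanSpace.single i (1 : ℝ))⟫ := by
      intro i
      rw [hTin]
      rw [Finset.sum_eq_single i]
      · rw [Finset.sum_eq_single i]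
        · simp
        · intro c _ hc; simp [hc]
        · intro h; exact absurd (Finset.mem_univ i) h
      · intro a _ ha
        apply Finset.sum_eq_zero
        intro c _
        simp [ha]
      · intro h; exact absurd (Finset.mem_univ i) h
    simp_rw [h2, inner_apply_eq_sum hT hn]
    rw [Finset.sum_comm]
    apply Finset.sum_congr rfl
    intro j _
    rw [← Finset.mul_sum]
    have h3 : ∑ i, ⟪hT.eigenvectorBasis hn j, EuclideanSpace.single i (1 : ℝ)⟫ ^ 2 = 1 := by
      have h4 : ∀ i, ⟪hT.eigenvectorBasis hn j, EuclideanSpace.single i (1 : ℝ)⟫ ^ 2 =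
          (hT.eigenvectorBasis hn j) i * (hT.eigenvectorBasis hn j) i := by
        intro i
        rw [EuclideanSpace.inner_single_right]
        simp [pow_two]
      simp_rw [h4]
      rw [← hinner, real_inner_self_eq_norm_sq, (hT.eigenvectorBasis hn).orthonormal.1 j]
      norm_num
    rw [h3, mul_one]
  · intro i
    apply Submodule.sum_mem
    intro a _
    apply Submodule.smul_mem
    exact Submodule.subset_span ⟨a, rfl⟩

theorem q_sum_diag {N : ℕ} {g : Fin N → 𝒟} {ν : Fin N → ℝ}
    (hg : ∀ i j, q (g i) (g j) = if i = j then ν i else 0) (x : Fin N → ℝ) :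
    q (∑ i, x i • g i) (∑ i, x i • g i) = ∑ i, ν i * x i ^ 2 := by
  rw [bilin_sum]
  apply Finset.sum_congr rfl
  intro i _
  rw [Finset.sum_eq_single i]
  · rw [hg, if_pos rfl]; ring
  · intro j _ hj
    rw [hg, if_neg (Ne.symm hj), mul_zero]
  · intro h; exact absurd (Finset.mem_univ i) h

theorem minmax_bddBelow (hpos : ∀ f, f ≠ 0 → 0 < b f f) (C : ℝ) (hC : ∀ f, -C * b f f ≤ q f f) (j : ℕ) :
    BddBelow {c : ℝ | ∃ V : Submodule ℝ 𝒟, Module.finrank ℝ V = j + 1 ∧ ∀ f ∈ V, q f f ≤ c * b f f} := by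
  refine ⟨-C, ?_⟩
  rintro c ⟨V, hV, hVq⟩
  have hne : V ≠ ⊥ := by
    intro h
    rw [h, finrank_bot] at hV
    omega
  obtain ⟨f, hfV, hf0⟩ := (Submodule.ne_bot_iff V).mp hne
  have h1 := hC f
  have h2 := hVq f hfV
  have h3 := hpos f hf0
  by_contra hlt
  push Not at hlt
  have : c * b f f < -C * b f f := mul_lt_mul_of_pos_right hlt h3
  linarith

/-- Each diagonal value of a frame bounds the corresponding min–max value. -/
theorem diag_mem {N : ℕ} {g : Fin N → 𝒟} {ν : Fin N → ℝ} (hg : IsFrame b g) (hν : Monotone ν)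
    (hgq : ∀ i j, q (g i) (g j) = if i = j then ν i else 0) (j : Fin N) :
    ν j ∈ {c : ℝ | ∃ V : Submodule ℝ 𝒟, Module.finrank ℝ V = (j : ℕ) + 1 ∧ ∀ f ∈ V, q f f ≤ c * b f f} := by
  have hle : (j : ℕ) + 1 ≤ N := j.2
  set e : Fin ((j : ℕ) + 1) → Fin N := Fin.castLE hle with he
  have hei : Function.Injective e := Fin.castLE_injective hle
  have hfr := hg.comp e hei
  refine ⟨Submodule.span ℝ (Set.range (fun i => g (e i))), ?_, ?_⟩
  · rw [finrank_span_eq_card hfr.linearIndependent, Fintype.card_fin]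
  · intro f hf
    obtain ⟨x, rfl⟩ := (Submodule.mem_span_range_iff_exists_fun ℝ).mp hf
    rw [hfr.b_sum]
    have hq' : ∀ i i', q (g (e i)) (g (e i')) = if i = i' then ν (e i) else 0 := by
      intro i i'
      rw [hgq]
      by_cases h : i = i'
      · simp [h]
      · rw [if_neg h, if_neg (fun h' => h (hei h'))]
    rw [q_sum_diag (g := fun i => g (e i)) (ν := fun i => ν (e i)) hq', Finset.mul_sum]
    apply Finset.sum_le_sum
    intro i _
    have h1 : ν (e i) ≤ ν j := hν (by
      rw [Fin.le_def]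
      simp only [he, Fin.val_castLE]
      have := i.2; omega)
    nlinarith [sq_nonneg (x i)]

/-- Sum of the first `k` min–max values is at most the trace of the form on any `k`-frame. -/
theorem sum_minmax_le (hq : ∀ f g, q f g = q g f) (hpos : ∀ f, f ≠ 0 → 0 < b f f) (C : ℝ)
    (hC : ∀ f, -C * b f f ≤ q f f) {k : ℕ} {f : Fin k → 𝒟} (hf : IsFrame b f) :
    ∑ j : Fin k, minmax b q j ≤ ∑ i, q (f i) (f i) := by
  obtain ⟨g, ν, hg, hν, hgq, hsum, _⟩ := exists_diag_frame hq hf
  rw [← hsum]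
  apply Finset.sum_le_sum
  intro j _
  exact csInf_le (minmax_bddBelow hpos C hC j) (diag_mem hg hν hgq j)

/-- A `b`-orthonormal basis of a finite dimensional subspace. -/
theorem exists_frame_span (hb : ∀ f g, b f g = b g f) (hpos : ∀ f, f ≠ 0 → 0 < b f f)
    (W : Submodule ℝ 𝒟) [FiniteDimensional ℝ W] :
    ∃ f : Fin (Module.finrank ℝ W) → 𝒟, IsFrame b f ∧ Submodule.span ℝ (Set.range f) = W := by
  classical
  set B : LinearMap.BilinForm ℝ W := (b.compl₁₂ W.subtype W.subtype) with hB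
  have hBsymm : LinearMap.IsSymm B := by
    constructor
    intro x y
    simp [hB, hb]
  obtain ⟨v, hv⟩ := LinearMap.BilinForm.exists_orthogonal_basis hBsymm
  have hvne : ∀ i, (v i : 𝒟) ≠ 0 := fun i h => v.ne_zero i (Subtype.ext h)
  have hvpos : ∀ i, 0 < b (v i) (v i) := fun i => hpos _ (hvne i)
  have horth : ∀ i j, i ≠ j → b (v i) (v j) = 0 := by
    intro i j hij
    have := hv hij
    exact this
  set s : Fin (Module.finrank ℝ W) → ℝ := fun i => (√(b (v i) (v i)))⁻¹ with hs
  have hspos : ∀ i, 0 < s i := fun i => inv_pos.mpr (Real.sqrt_pos.mpr (hvpos i))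
  refine ⟨fun i => s i • (v i : 𝒟), ?_, ?_⟩
  · intro i j
    simp only [map_smul, LinearMap.smul_apply, smul_eq_mul]
    by_cases h : i = j
    · subst h
      rw [if_pos rfl]
      have h1 : √(b (v i) (v i)) ^ 2 = b (v i) (v i) := Real.sq_sqrt (hvpos i).le
      have h2 : √(b (v i) (v i)) ≠ 0 := (Real.sqrt_pos.mpr (hvpos i)).ne'
      have h3 : s i * √(b (v i) (v i)) = 1 := inv_mul_cancel₀ h2
      calc s i * (s i * b (v i) (v i)) = (s i * √(b (v i) (v i))) * (s i * √(b (v i) (v i))) := by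
            nth_rewrite 1 [← h1]; ring
        _ = 1 := by rw [h3, mul_one]
    · rw [if_neg h, horth i j h]; ring
  · apply le_antisymm
    · rw [Submodule.span_le]
      rintro _ ⟨i, rfl⟩
      exact W.smul_mem _ (v i).2
    · intro w hw
      have h1 := v.sum_repr ⟨w, hw⟩
      have h2 : w = ∑ i, (v.repr ⟨w, hw⟩ i * (s i)⁻¹) • (s i • (v i : 𝒟)) := by
        have h3 := congrArg (Submodule.subtype W) h1
        rw [map_sum] at h3
        simp only [map_smul, Submodule.subtype_apply] at h3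
        refine h3.symm.trans ?_
        apply Finset.sum_congr rfl
        intro i _
        rw [smul_smul, mul_assoc, inv_mul_cancel₀ (hspos i).ne', mul_one]
      rw [h2]
      apply Submodule.sum_mem
      intro i _
      apply Submodule.smul_mem
      exact Submodule.subset_span ⟨i, rfl⟩

/-- The sum of the first `k` min–max values is approached by `k`-frames. -/
theorem exists_frame_near (hb : ∀ f g, b f g = b g f) (hq : ∀ f g, q f g = q g f)
    (hpos : ∀ f, f ≠ 0 → 0 < b f f) {k : ℕ}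
    {f₀ : Fin k → 𝒟} (hf₀ : IsFrame b f₀) (ε : ℝ) (hε : 0 < ε) :
    ∃ f : Fin k → 𝒟, IsFrame b f ∧ ∑ i, q (f i) (f i) ≤ ∑ j : Fin k, minmax b q j + ε := by
  classical
  rcases Nat.eq_zero_or_pos k with hk0 | hk0
  · subst hk0
    exact ⟨f₀, hf₀, by simp [hε.le]⟩
  have hkR : (0 : ℝ) < k := by exact_mod_cast hk0
  obtain ⟨g₀, ν₀, hg₀, hν₀, hgq₀, _, _⟩ := exists_diag_frame hq hf₀
  -- nearly optimal subspaces
  have hV : ∀ j : Fin k, ∃ V : Submodule ℝ 𝒟, Module.finrank ℝ V = (j : ℕ) + 1 ∧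
      ∀ f ∈ V, q f f ≤ (minmax b q j + ε / k) * b f f := by
    intro j
    have hne : {c : ℝ | ∃ V : Submodule ℝ 𝒟, Module.finrank ℝ V = (j : ℕ) + 1 ∧ ∀ f ∈ V, q f f ≤ c * b f f}.Nonempty :=
      ⟨ν₀ j, diag_mem hg₀ hν₀ hgq₀ j⟩
    obtain ⟨c, ⟨V, hV, hVc⟩, hc⟩ := exists_lt_of_csInf_lt hne
      (show minmax b q j < minmax b q j + ε / k by have : 0 < ε / k := by positivity
                                                   linarith)
    refine ⟨V, hV, fun f hf => (hVc f hf).trans ?_⟩
    apply mul_le_mul_of_nonneg_right hc.le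
    by_cases h0 : f = 0
    · rw [h0]; simp
    · exact (hpos f h0).le
  choose V hVd hVq using hV
  have hVfin : ∀ j, FiniteDimensional ℝ (V j) := fun j =>
    FiniteDimensional.of_finrank_pos (by rw [hVd]; omega)
  set W : Submodule ℝ 𝒟 := ⨆ j, V j with hW
  have hWfin : FiniteDimensional ℝ W := Submodule.finiteDimensional_iSup V
  obtain ⟨N, hN, f₁, hf₁, hspan₁⟩ : ∃ N, N = Module.finrank ℝ W ∧ ∃ f : Fin N → 𝒟, IsFrame b f ∧
      Submodule.span ℝ (Set.range f) = W := ⟨_, rfl, exists_frame_span hb hpos W⟩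
  obtain ⟨g, ν, hg, hν, hgq, _, hgmem⟩ := exists_diag_frame hq hf₁
  have hgW : ∀ i, g i ∈ W := by
    intro i
    have := hgmem i
    rwa [hspan₁] at this
  have hVW : ∀ j, V j ≤ W := fun j => le_iSup V j
  have hkN : k ≤ N := by
    have h1 := Submodule.finrank_mono (hVW ⟨k - 1, by omega⟩)
    rw [hVd, ← hN] at h1
    simp only at h1
    omega
  have hνle : ∀ j : Fin k, ν (Fin.castLE hkN j) ≤ minmax b q j + ε / k := by
    intro j
    -- U = span of g_i, i ≥ j
    set e : Fin (N - j) → Fin N := fun i => ⟨j + i, by have := i.2; omega⟩ with he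
    have hei : Function.Injective e := by
      intro i i' h
      simp only [he, Fin.mk.injEq] at h
      ext; omega
    have hfr := hg.comp e hei
    set U : Submodule ℝ 𝒟 := Submodule.span ℝ (Set.range (fun i => g (e i))) with hU
    have hUd : Module.finrank ℝ U = N - j := by
      rw [hU, finrank_span_eq_card hfr.linearIndependent, Fintype.card_fin]
    have hUW : U ≤ W := by
      rw [hU, Submodule.span_le]
      rintro _ ⟨i, rfl⟩
      exact hgW _
    have hUfin : FiniteDimensional ℝ U := FiniteDimensional.span_of_finite ℝ (Set.finite_range _)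
    have hint : U ⊓ V j ≠ ⊥ := by
      intro hbot
      have h1 := Submodule.finrank_sup_add_finrank_inf_eq U (V j)
      rw [hbot, finrank_bot, hUd, hVd] at h1
      have h2 : Module.finrank ℝ ↥(U ⊔ V j) ≤ N := by
        rw [hN]; exact Submodule.finrank_mono (sup_le hUW (hVW j))
      have h3 : (j : ℕ) < k := j.2
      omega
    obtain ⟨f, hf, hf0⟩ := (Submodule.ne_bot_iff _).mp hint
    have hbf := hpos f hf0
    have h1 := hVq j f hf.2
    obtain ⟨x, hx⟩ := (Submodule.mem_span_range_iff_exists_fun ℝ).mp hf.1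
    have hq' : ∀ i i', q (g (e i)) (g (e i')) = if i = i' then ν (e i) else 0 := by
      intro i i'
      rw [hgq]
      by_cases h : i = i'
      · simp [h]
      · rw [if_neg h, if_neg (fun h' => h (hei h'))]
    have h2 : ν (Fin.castLE hkN j) * b f f ≤ q f f := by
      rw [← hx, hfr.b_sum, q_sum_diag (g := fun i => g (e i)) (ν := fun i => ν (e i)) hq', Finset.mul_sum]
      apply Finset.sum_le_sum
      intro i _
      have h3 : ν (Fin.castLE hkN j) ≤ ν (e i) := hν (by
        rw [Fin.le_def]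
        simp [he])
      nlinarith [sq_nonneg (x i)]
    have h3 := h2.trans h1
    exact le_of_mul_le_mul_right h3 hbf
  refine ⟨fun i => g (Fin.castLE hkN i), hg.comp _ (Fin.castLE_injective hkN), ?_⟩
  calc ∑ i : Fin k, q (g (Fin.castLE hkN i)) (g (Fin.castLE hkN i))
      = ∑ i : Fin k, ν (Fin.castLE hkN i) := by
        apply Finset.sum_congr rfl
        intro i _
        rw [hgq, if_pos rfl]
    _ ≤ ∑ j : Fin k, (minmax b q j + ε / k) := Finset.sum_le_sum (fun j _ => hνle j)
    _ = ∑ j : Fin k, minmax b q j + ε := by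
        rw [Finset.sum_add_distrib, Finset.sum_const, Finset.card_univ, Fintype.card_fin, nsmul_eq_mul]
        congr 1
        field_simp

end MinMax

end Pool.Agent.Helper95
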