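import Mathlib
open MeasureTheory Finset Filter Topology TopologicalSpace Set
open scoped NNReal ENNReal Distributions BoundedContinuousFunction

namespace Pool.Agent.Helper95

/-- The open half line `(0, ∞)`. -/
def halfLine : Opens ℝ := ⟨Set.Ioi 0, isOpen_Ioi⟩

theorem induced_eq_of_dist_eq {Z X Y : Type*} [PseudoMetricSpace X] [PseudoMetricSpace Y]
    (a : Z → X) (b : Z → Y) (h : ∀ z z', dist (a z) (a z') = dist (b z) (b z')) :
    TopologicalSpace.induced a inferInstance = TopologicalSpace.induced b inferInstance := by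
  apply TopologicalSpace.ext_nhds
  intro z
  rw [nhds_induced, nhds_induced]
  have h1 := (Metric.nhds_basis_ball (x := a z)).comap a
  have h2 := (Metric.nhds_basis_ball (x := b z)).comap b
  refine h1.eq_of_same_basis ?_
  convert! h2 using 2 with ε
  ext z'
  simp only [Set.mem_preimage, Metric.mem_ball, h]

instance secondCountable_multilinear (i : ℕ) : SecondCountableTopology (ℝ [×i]→L[ℝ] ℝ) := by
  have e := (ContinuousMultilinearMap.piFieldEquiv ℝ (Fin i) ℝ).toHomeomorph
  exact e.symm.secondCountableTopology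

/-- The space of smooth functions supported in a compact subset of `ℝ` is second countable. -/
instance secondCountable_supportedIn (K : Compacts ℝ) :
    SecondCountableTopology (𝓓_{K}(ℝ, ℝ)) := by
  have : CompactSpace K := isCompact_iff_compactSpace.mp K.isCompact
  set R : ∀ i : ℕ, (ℝ →ᵇ (ℝ [×i]→L[ℝ] ℝ)) → C(K, ℝ [×i]→L[ℝ] ℝ) := fun i g =>
    ⟨fun x => g x, g.continuous.comp continuous_subtype_val⟩ with hR
  have htop : (ContDiffMapSupportedIn.topologicalSpace : TopologicalSpace (𝓓_{K}(ℝ, ℝ))) =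
      ⨅ i : ℕ, TopologicalSpace.induced (fun f => R i (ContDiffMapSupportedIn.structureMapLM ℝ ⊤ i f))
        inferInstance := by
    show (⨅ (i : ℕ), induced (ContDiffMapSupportedIn.structureMapLM ℝ ⊤ i) inferInstance) = _
    congr 1
    funext i
    refine induced_eq_of_dist_eq (ContDiffMapSupportedIn.structureMapLM ℝ ⊤ i)
      (fun f => R i (ContDiffMapSupportedIn.structureMapLM ℝ ⊤ i f)) (fun f g => ?_)
    apply le_antisymm
    · rw [BoundedContinuousFunction.dist_le dist_nonneg]
      intro x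
      by_cases hx : x ∈ K
      · have := ContinuousMap.dist_apply_le_dist
          (f := R i (ContDiffMapSupportedIn.structureMapLM ℝ ⊤ i f))
          (g := R i (ContDiffMapSupportedIn.structureMapLM ℝ ⊤ i g)) (⟨x, hx⟩ : K)
        exact this
      · have h1 : ∀ u : 𝓓_{K}(ℝ, ℝ), (ContDiffMapSupportedIn.structureMapLM ℝ ⊤ i u) x = 0 := by
          intro u
          have e := ContDiffMapSupportedIn.structureMapLM_top_apply ℝ (i := i) u
          rw [e]
          exact u.iteratedFDeriv_zero_on_compl hx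
        rw [h1, h1, dist_self]
        exact dist_nonneg
    · rw [ContinuousMap.dist_le dist_nonneg]
      intro x
      exact BoundedContinuousFunction.dist_coe_le_dist
        (f := ContDiffMapSupportedIn.structureMapLM ℝ ⊤ i f)
        (g := ContDiffMapSupportedIn.structureMapLM ℝ ⊤ i g) (x : ℝ)
  rw [htop]
  apply secondCountableTopology_iInf
  intro i
  exact secondCountableTopology_induced _ _ _

/-- The compact sets `[1/(m+1), m+1]`. -/
def exhaust (m : ℕ) : Compacts ℝ := ⟨Set.Icc (1 / ((m : ℝ) + 1)) (m + 1), isCompact_Icc⟩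

theorem exhaust_subset (m : ℕ) : ((exhaust m : Compacts ℝ) : Set ℝ) ⊆ halfLine := by
  intro x hx
  have h1 : 1 / ((m : ℝ) + 1) ≤ x := hx.1
  have h2 : 0 < 1 / ((m : ℝ) + 1) := by positivity
  exact lt_of_lt_of_le h2 h1

theorem exists_exhaust (f : 𝓓(halfLine, ℝ)) : ∃ m : ℕ, tsupport f ⊆ (exhaust m : Compacts ℝ) := by
  have hc : IsCompact (tsupport f) := f.hasCompactSupport
  have hsub : tsupport f ⊆ Set.Ioi 0 := f.tsupport_subset
  rcases (tsupport f).eq_empty_or_nonempty with he | hne
  · exact ⟨0, by rw [he]; exact Set.empty_subset _⟩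
  · obtain ⟨a, ha, hamin⟩ := hc.exists_isLeast hne
    obtain ⟨b, hb, hbmax⟩ := hc.exists_isGreatest hne
    have ha0 : 0 < a := hsub ha
    obtain ⟨m, hm⟩ := exists_nat_ge (max (1 / a) b)
    refine ⟨m, ?_⟩
    intro x hx
    have h1 : a ≤ x := hamin hx
    have h2 : x ≤ b := hbmax hx
    have h3 : 1 / a ≤ m := (le_max_left _ _).trans hm
    have h4 : b ≤ m := (le_max_right _ _).trans hm
    constructor
    · refine le_trans ?_ h1
      rw [div_le_iff₀ (by positivity)]
      rw [div_le_iff₀ ha0] at h3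
      nlinarith
    · linarith

/-- Countable approximation of an arbitrary family of pairs (test function, real number), simultaneously for all
distributions. -/
theorem exists_countable_approx {F : Type*} (r : F → 𝓓(halfLine, ℝ)) (e : F → ℝ) :
    ∃ C : Set F, C.Countable ∧ ∀ (f : F) (T : 𝓓'(halfLine, ℝ)) (ε : ℝ), 0 < ε →
      ∃ g ∈ C, |e g - e f| < ε ∧ |T (r g) - T (r f)| < ε := by
  classical
  -- the part of the family supported in `exhaust m`
  set Fm : ℕ → Set F := fun m => {f | tsupport (r f) ⊆ (exhaust m : Compacts ℝ)} with hFm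
  set Ψ : ∀ m, Fm m → 𝓓_{exhaust m}(ℝ, ℝ) × ℝ := fun m f =>
    (ContDiffMapSupportedIn.of_support_subset (r f.1).contDiff (subset_closure.trans f.2), e f.1) with hΨ
  have hsep : ∀ m, ∃ C : Set (Fm m), C.Countable ∧ Set.range (Ψ m) ⊆ closure (Ψ m '' C) := by
    intro m
    obtain ⟨D, hDc, hDd⟩ := TopologicalSpace.exists_countable_dense (Set.range (Ψ m))
    set pre : Set.range (Ψ m) → Fm m := fun z => Classical.choose z.2 with hpre
    have hpre' : ∀ z : Set.range (Ψ m), Ψ m (pre z) = z.1 := fun z => Classical.choose_spec z.2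
    refine ⟨pre '' D, hDc.image _, ?_⟩
    intro z hz
    have h1 : (⟨z, hz⟩ : Set.range (Ψ m)) ∈ closure D := hDd _
    rw [closure_subtype] at h1
    have h2 : (fun x : Set.range (Ψ m) => x.1) '' D = Ψ m '' (pre '' D) := by
      rw [Set.image_image]
      apply Set.image_congr
      intro a _
      exact (hpre' a).symm
    rw [← h2]
    exact h1
  choose C hCc hCd using hsep
  refine ⟨⋃ m, (fun f : Fm m => f.1) '' C m, Set.countable_iUnion (fun m => (hCc m).image _), ?_⟩
  intro f T ε hε
  obtain ⟨m, hm⟩ := exists_exhaust (r f)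
  set f' : Fm m := ⟨f, hm⟩ with hf'
  have hmem : Ψ m f' ∈ closure (Ψ m '' C m) := hCd m ⟨f', rfl⟩
  have hcont : Continuous (fun z : 𝓓_{exhaust m}(ℝ, ℝ) × ℝ =>
      T (TestFunction.ofSupportedIn (exhaust_subset m) z.1)) :=
    T.continuous.comp ((TestFunction.continuous_ofSupportedIn (exhaust_subset m)).comp continuous_fst)
  set O : Set (𝓓_{exhaust m}(ℝ, ℝ) × ℝ) := {z | |z.2 - e f| < ε ∧
    |T (TestFunction.ofSupportedIn (exhaust_subset m) z.1) - T (r f)| < ε} with hO
  have hOo : IsOpen O := by
    apply IsOpen.inter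
    · exact isOpen_lt ((continuous_snd.sub continuous_const).abs) continuous_const
    · exact isOpen_lt ((hcont.sub continuous_const).abs) continuous_const
  have hr : ∀ g : Fm m, TestFunction.ofSupportedIn (exhaust_subset m) (Ψ m g).1 = r g.1 := by
    intro g
    ext x
    rfl
  have hfO : Ψ m f' ∈ O := by
    refine ⟨?_, ?_⟩
    · simp [hΨ, hf', hε]
    · rw [hr f']; simp [hf', hε]
  obtain ⟨z, hzO, g, hg, rfl⟩ := mem_closure_iff.mp hmem O hOo hfO
  refine ⟨g.1, Set.mem_iUnion.mpr ⟨m, g, hg, rfl⟩, hzO.1, ?_⟩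
  have := hzO.2
  rwa [hr g] at this

end Pool.Agent.Helper95
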