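import Mathlib
import Pool.Agent.Lib.Helper95.TestDense
open MeasureTheory Finset Filter Topology TopologicalSpace Set
open scoped NNReal ENNReal Distributions BoundedContinuousFunction

namespace Pool.Agent.Helper95

/-! ### Integrals of test functions -/

theorem test_zero_of_nonpos (f : 𝓓(halfLine, ℝ)) {x : ℝ} (hx : x ≤ 0) : f x = 0 := by
  by_contra h
  have h1 : x ∈ tsupport f := subset_tsupport _ h
  have h2 : x ∈ (halfLine : Set ℝ) := f.tsupport_subset h1
  exact absurd h2 (not_lt.mpr hx)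

theorem test_continuous (f : 𝓓(halfLine, ℝ)) : Continuous f := f.continuous

theorem test_contDiff (f : 𝓓(halfLine, ℝ)) : ContDiff ℝ 1 f := f.contDiff.of_le (by norm_cast)

theorem test_differentiable (f : 𝓓(halfLine, ℝ)) : Differentiable ℝ f :=
  (test_contDiff f).differentiable (by norm_num)

theorem test_deriv_continuous (f : 𝓓(halfLine, ℝ)) : Continuous (deriv f) :=
  (test_contDiff f).continuous_deriv (by norm_num)

theorem test_deriv_compact (f : 𝓓(halfLine, ℝ)) : HasCompactSupport (deriv f) := f.hasCompactSupport.deriv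

theorem test_bound (f : 𝓓(halfLine, ℝ)) : ∃ P : ℕ, ∀ x : ℝ, (P : ℝ) ≤ x → f x = 0 ∧ deriv f x = 0 := by
  obtain ⟨m, hm⟩ := exists_exhaust f
  refine ⟨m + 2, fun x hx => ?_⟩
  have hx' : x ∉ tsupport f := by
    intro h
    have h1 : x ∈ Set.Icc (1 / ((m : ℝ) + 1)) (m + 1) := hm h
    have := h1.2
    push_cast at hx
    linarith
  refine ⟨image_eq_zero_of_notMem_tsupport hx', ?_⟩
  have h2 : x ∉ tsupport (deriv f) := fun h => hx' (tsupport_deriv_subset h)
  exact image_eq_zero_of_notMem_tsupport h2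

theorem test_deriv_bound (f : 𝓓(halfLine, ℝ)) : ∃ L : ℝ, 0 ≤ L ∧ ∀ x y : ℝ, |f x - f y| ≤ L * |x - y| := by
  obtain ⟨C, hC⟩ := (test_deriv_continuous f).bounded_above_of_compact_support (test_deriv_compact f)
  have hC0 : 0 ≤ C := (norm_nonneg _).trans (hC 0)
  refine ⟨C, hC0, fun x y => ?_⟩
  have := Convex.norm_image_sub_le_of_norm_deriv_le (f := f) (s := Set.univ) (x := y) (y := x)
    (fun z _ => (test_differentiable f) z) (fun z _ => hC z) convex_univ (Set.mem_univ _) (Set.mem_univ _)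
  simpa [Real.norm_eq_abs] using this

theorem integrable_of_compact {g : ℝ → ℝ} (hg : Continuous g) (hc : HasCompactSupport g) :
    IntegrableOn g (Set.Ioi 0) := (hg.integrable_of_hasCompactSupport hc).integrableOn

/-- Half line integral of a continuous function vanishing beyond `P`. -/
theorem integral_Ioi_eq {g : ℝ → ℝ} (P : ℕ) (h : ∀ x : ℝ, (P : ℝ) ≤ x → g x = 0) :
    ∫ x in Set.Ioi 0, g x = ∫ x in (0 : ℝ)..P, g x := by
  rw [intervalIntegral.integral_of_le (Nat.cast_nonneg P)]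
  refine MeasureTheory.setIntegral_eq_of_subset_of_forall_sdiff_eq_zero (μ := volume)
    (s := Set.Ioc (0 : ℝ) P) (t := Set.Ioi 0) measurableSet_Ioi
    (fun x hx => hx.1) ?_
  intro x hx
  apply h
  by_contra hlt
  push Not at hlt
  exact hx.2 ⟨hx.1, hlt.le⟩

/-! ### Step test functions -/

/-- A smooth step, `0` before `1/2` and `1` after `1`. -/
noncomputable def sstep (y : ℝ) : ℝ := Real.smoothTransition (2 * y - 1)

theorem sstep_nonneg (y : ℝ) : 0 ≤ sstep y := Real.smoothTransition.nonneg _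
theorem sstep_le_one (y : ℝ) : sstep y ≤ 1 := Real.smoothTransition.le_one _
theorem sstep_zero {y : ℝ} (h : y ≤ 1 / 2) : sstep y = 0 :=
  Real.smoothTransition.zero_of_nonpos (by linarith)
theorem sstep_one {y : ℝ} (h : 1 ≤ y) : sstep y = 1 :=
  Real.smoothTransition.one_of_one_le (by linarith)
theorem sstep_contDiff : ContDiff ℝ ((⊤ : ℕ∞) : WithTop ℕ∞) sstep := by
  unfold sstep
  exact Real.smoothTransition.contDiff.comp (by fun_prop)

/-- The step function `θ(Mx-a) - θ(Mx-b)`, `M = N+1`. -/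
noncomputable def stepFun (N a b : ℕ) (x : ℝ) : ℝ :=
  sstep (((N : ℝ) + 1) * x - a) - sstep (((N : ℝ) + 1) * x - b)

theorem stepFun_contDiff (N a b : ℕ) : ContDiff ℝ ((⊤ : ℕ∞) : WithTop ℕ∞) (stepFun N a b) := by
  unfold stepFun
  exact ContDiff.sub (sstep_contDiff.comp (by fun_prop)) (sstep_contDiff.comp (by fun_prop))

theorem stepFun_zero {N a b : ℕ} (hab : a ≤ b) {x : ℝ}
    (h : ((N : ℝ) + 1) * x ≤ a + 1 / 2 ∨ (b : ℝ) + 1 ≤ ((N : ℝ) + 1) * x) : stepFun N a b x = 0 := by
  have hab' : (a : ℝ) ≤ b := by exact_mod_cast hab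
  unfold stepFun
  rcases h with h | h
  · rw [sstep_zero (by linarith), sstep_zero (by linarith), sub_zero]
  · rw [sstep_one (by linarith), sstep_one (by linarith), sub_self]

theorem stepFun_mono_sub {N a b : ℕ} (hab : a ≤ b) (x : ℝ) : 0 ≤ stepFun N a b x ∧ stepFun N a b x ≤ 1 := by
  rcases Nat.lt_or_ge a b with h | h
  · have hab' : (a : ℝ) + 1 ≤ b := by exact_mod_cast h
    unfold stepFun
    by_cases h1 : ((N : ℝ) + 1) * x - b ≤ 1 / 2
    · rw [sstep_zero h1, sub_zero]
      exact ⟨sstep_nonneg _, sstep_le_one _⟩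
    · push Not at h1
      rw [sstep_one (y := ((N : ℝ) + 1) * x - a) (by linarith)]
      have := sstep_nonneg (((N : ℝ) + 1) * x - b)
      have := sstep_le_one (((N : ℝ) + 1) * x - b)
      constructor <;> linarith
  · have : a = b := le_antisymm hab h
    subst this
    simp [stepFun]

theorem stepFun_support {N a b : ℕ} :
    Function.support (stepFun N a b) ⊆ Set.Icc (1 / (2 * ((N : ℝ) + 1))) (((a : ℝ) + b + 1) / ((N : ℝ) + 1)) := by
  intro x hx
  have hN : (0 : ℝ) < (N : ℝ) + 1 := by positivity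
  have ha : (0 : ℝ) ≤ a := Nat.cast_nonneg a
  have hb : (0 : ℝ) ≤ b := Nat.cast_nonneg b
  by_contra hcon
  apply hx
  rw [Set.mem_Icc, not_and_or, not_le, not_le] at hcon
  unfold stepFun
  rcases hcon with h | h
  · rw [lt_div_iff₀ (by positivity)] at h
    rw [sstep_zero (by nlinarith), sstep_zero (by nlinarith), sub_zero]
  · rw [div_lt_iff₀ hN] at h
    rw [sstep_one (by nlinarith), sstep_one (by nlinarith), sub_self]

/-- The step test function. -/
noncomputable def stepTest (N a b : ℕ) : 𝓓(halfLine, ℝ) where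
  toFun := stepFun N a b
  contDiff' := stepFun_contDiff N a b
  hasCompactSupport' := HasCompactSupport.of_support_subset_isCompact isCompact_Icc stepFun_support
  tsupport_subset' := by
    refine (closure_minimal stepFun_support isClosed_Icc).trans ?_
    intro x hx
    have h1 := hx.1
    have h2 : 0 < 1 / (2 * ((N : ℝ) + 1)) := by positivity
    exact lt_of_lt_of_le h2 h1

theorem stepTest_apply (N a b : ℕ) (x : ℝ) : stepTest N a b x = stepFun N a b x := rfl

theorem stepTest_sub (N a b c : ℕ) : stepTest N a c - stepTest N b c = stepTest N a b := by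
  ext x
  simp only [sub_apply, stepTest_apply, stepFun]
  ring

/-- The interpolant. -/
noncomputable def interp (N P : ℕ) (F : ℝ → ℝ) : 𝓓(halfLine, ℝ) :=
  ∑ n ∈ Finset.range P, ∑ r ∈ Finset.range (N + 1),
    F (((n * (N + 1) + r + 1 : ℕ) : ℝ) / ((N : ℝ) + 1)) • stepTest N (n * (N + 1) + r) (n * (N + 1) + r + 1)

theorem interp_apply (N P : ℕ) (F : ℝ → ℝ) (x : ℝ) : interp N P F x =
    ∑ n ∈ Finset.range P, ∑ r ∈ Finset.range (N + 1),
    F (((n * (N + 1) + r + 1 : ℕ) : ℝ) / ((N : ℝ) + 1)) *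
      stepFun N (n * (N + 1) + r) (n * (N + 1) + r + 1) x := by
  unfold interp
  simp only [_root_.sum_apply, smul_apply, smul_eq_mul, stepTest_apply]

theorem sum_steps (N P : ℕ) (x : ℝ) :
    ∑ n ∈ Finset.range P, ∑ r ∈ Finset.range (N + 1),
      stepFun N (n * (N + 1) + r) (n * (N + 1) + r + 1) x = stepFun N 0 (P * (N + 1)) x := by
  have h1 : ∀ n, ∑ r ∈ Finset.range (N + 1), stepFun N (n * (N + 1) + r) (n * (N + 1) + r + 1) x =
      stepFun N (n * (N + 1)) ((n + 1) * (N + 1)) x := by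
    intro n
    have := Finset.sum_range_sub' (fun r => sstep (((N : ℝ) + 1) * x - ((n * (N + 1) + r : ℕ) : ℝ))) (N + 1)
    simp only [stepFun]
    rw [← add_zero (n * (N + 1)), show (n + 1) * (N + 1) = n * (N + 1) + (N + 1) by ring]
    rw [← this]
    apply Finset.sum_congr rfl
    intro r _
    simp only [add_zero, add_assoc]
  rw [Finset.sum_congr rfl (fun n _ => h1 n)]
  have := Finset.sum_range_sub' (fun n => sstep (((N : ℝ) + 1) * x - ((n * (N + 1) : ℕ) : ℝ))) P
  simp only [stepFun]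
  rw [this]
  simp

theorem interp_error (F : 𝓓(halfLine, ℝ)) (P : ℕ) (hP : ∀ x : ℝ, (P : ℝ) ≤ x → F x = 0) (L : ℝ) (hL0 : 0 ≤ L)
    (hL : ∀ x y : ℝ, |F x - F y| ≤ L * |x - y|) (N : ℕ) {x : ℝ} (hx : 0 < x) :
    |F x - interp N P F x| ≤ L / ((N : ℝ) + 1) := by
  have hN : (0 : ℝ) < (N : ℝ) + 1 := by positivity
  set s := stepFun N 0 (P * (N + 1)) x with hs
  have hs01 := stepFun_mono_sub (N := N) (Nat.zero_le (P * (N + 1))) x
  rw [← hs] at hs01
  have h1 : F x - interp N P F x = (∑ n ∈ Finset.range P, ∑ r ∈ Finset.range (N + 1),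
      stepFun N (n * (N + 1) + r) (n * (N + 1) + r + 1) x *
        (F x - F (((n * (N + 1) + r + 1 : ℕ) : ℝ) / ((N : ℝ) + 1)))) + (1 - s) * F x := by
    rw [interp_apply]
    have h2 : ∑ n ∈ Finset.range P, ∑ r ∈ Finset.range (N + 1),
      stepFun N (n * (N + 1) + r) (n * (N + 1) + r + 1) x *
        (F x - F (((n * (N + 1) + r + 1 : ℕ) : ℝ) / ((N : ℝ) + 1))) =
        (∑ n ∈ Finset.range P, ∑ r ∈ Finset.range (N + 1),
          stepFun N (n * (N + 1) + r) (n * (N + 1) + r + 1) x) * F x -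
        ∑ n ∈ Finset.range P, ∑ r ∈ Finset.range (N + 1),
          F (((n * (N + 1) + r + 1 : ℕ) : ℝ) / ((N : ℝ) + 1)) *
          stepFun N (n * (N + 1) + r) (n * (N + 1) + r + 1) x := by
      rw [Finset.sum_mul, ← Finset.sum_sub_distrib]
      apply Finset.sum_congr rfl
      intro n _
      rw [Finset.sum_mul, ← Finset.sum_sub_distrib]
      apply Finset.sum_congr rfl
      intro r _
      ring
    rw [h2, sum_steps, ← hs]
    ring
  have h3 : |(1 - s) * F x| ≤ (1 - s) * (L / ((N : ℝ) + 1)) := by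
    rw [abs_mul, abs_of_nonneg (by linarith [hs01.2])]
    rcases le_or_gt (P : ℝ) x with hxP | hxP
    · rw [hP x hxP, abs_zero, mul_zero]
      exact mul_nonneg (by linarith [hs01.2]) (by positivity)
    · by_cases hx1 : 1 ≤ ((N : ℝ) + 1) * x
      · have : s = 1 := by
          rw [hs, stepFun, sstep_one (by simpa using hx1), sstep_zero, sub_zero]
          push_cast
          nlinarith
        rw [this]; simp
      · apply mul_le_mul_of_nonneg_left _ (by linarith [hs01.2])
        have h4 := hL x 0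
        rw [test_zero_of_nonpos F le_rfl, sub_zero, sub_zero, abs_of_pos hx] at h4
        refine h4.trans ?_
        rw [div_eq_mul_inv]
        apply mul_le_mul_of_nonneg_left _ hL0
        rw [← one_div, le_div_iff₀ hN]
        push Not at hx1
        linarith
  have h5 : |∑ n ∈ Finset.range P, ∑ r ∈ Finset.range (N + 1),
      stepFun N (n * (N + 1) + r) (n * (N + 1) + r + 1) x *
        (F x - F (((n * (N + 1) + r + 1 : ℕ) : ℝ) / ((N : ℝ) + 1)))| ≤ s * (L / ((N : ℝ) + 1)) := by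
    rw [hs, ← sum_steps, Finset.sum_mul]
    refine (Finset.abs_sum_le_sum_abs _ _).trans (Finset.sum_le_sum (fun n _ => ?_))
    rw [Finset.sum_mul]
    refine (Finset.abs_sum_le_sum_abs _ _).trans (Finset.sum_le_sum (fun r _ => ?_))
    have h6 := stepFun_mono_sub (N := N) (Nat.le_succ (n * (N + 1) + r)) x
    rw [abs_mul, abs_of_nonneg h6.1]
    by_cases h7 : stepFun N (n * (N + 1) + r) (n * (N + 1) + r + 1) x = 0
    · rw [h7]; simp
    · apply mul_le_mul_of_nonneg_left _ h6.1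
      refine (hL _ _).trans ?_
      rw [div_eq_mul_inv L]
      apply mul_le_mul_of_nonneg_left _ hL0
      have h8 : ¬ (((N : ℝ) + 1) * x ≤ ((n * (N + 1) + r : ℕ) : ℝ) + 1 / 2 ∨
          ((n * (N + 1) + r + 1 : ℕ) : ℝ) + 1 ≤ ((N : ℝ) + 1) * x) :=
        fun h => h7 (stepFun_zero (Nat.le_succ _) h)
      push Not at h8
      obtain ⟨h9, h10⟩ := h8
      have h11 : x - ((n * (N + 1) + r + 1 : ℕ) : ℝ) / ((N : ℝ) + 1) =
          (((N : ℝ) + 1) * x - ((n * (N + 1) + r + 1 : ℕ) : ℝ)) * ((N : ℝ) + 1)⁻¹ := by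
        field_simp
      rw [h11, abs_mul, abs_of_pos (inv_pos.mpr hN)]
      have h12 : |((N : ℝ) + 1) * x - ((n * (N + 1) + r + 1 : ℕ) : ℝ)| ≤ 1 := by
        rw [abs_le]
        push_cast at h9 h10 ⊢
        constructor <;> linarith
      calc _ ≤ 1 * ((N : ℝ) + 1)⁻¹ := mul_le_mul_of_nonneg_right h12 (inv_pos.mpr hN).le
        _ = _ := one_mul _
  rw [h1]
  refine (abs_add_le _ _).trans ((add_le_add h5 h3).trans ?_)
  apply le_of_eq; ring

theorem interp_zero (N P : ℕ) (F : ℝ → ℝ) {x : ℝ} (hx : (P : ℝ) + 1 ≤ x) : interp N P F x = 0 := by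
  rw [interp_apply]
  apply Finset.sum_eq_zero
  intro n hn
  apply Finset.sum_eq_zero
  intro r hr
  rw [stepFun_zero (Nat.le_succ _), mul_zero]
  right
  have h1 : n + 1 ≤ P := Finset.mem_range.mp hn
  have h2 : r + 1 ≤ N + 1 := Finset.mem_range.mp hr
  have h3 : n * (N + 1) + r + 1 ≤ P * (N + 1) := by nlinarith
  have h4 : ((n * (N + 1) + r + 1 : ℕ) : ℝ) ≤ (P : ℝ) * ((N : ℝ) + 1) := by exact_mod_cast h3
  have h5 : (0 : ℝ) ≤ N := Nat.cast_nonneg N
  nlinarith

theorem interp_l2 (F : 𝓓(halfLine, ℝ)) (P : ℕ) (hP : ∀ x : ℝ, (P : ℝ) ≤ x → F x = 0) (L : ℝ) (hL0 : 0 ≤ L)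
    (hL : ∀ x y : ℝ, |F x - F y| ≤ L * |x - y|) (N : ℕ) :
    ∫ x in Set.Ioi 0, (interp N P F x - F x) ^ 2 ≤ ((P : ℝ) + 1) * (L / ((N : ℝ) + 1)) ^ 2 := by
  have h1 : ∫ x in Set.Ioi 0, (interp N P F x - F x) ^ 2 =
      ∫ x in (0 : ℝ)..((P + 1 : ℕ) : ℝ), (interp N P F x - F x) ^ 2 := by
    apply integral_Ioi_eq
    intro x hx
    push_cast at hx
    rw [interp_zero N P F hx, hP x (by linarith)]
    ring
  rw [h1]
  have h2 : ∀ x ∈ Set.uIoc (0 : ℝ) ((P + 1 : ℕ) : ℝ), ‖(interp N P F x - F x) ^ 2‖ ≤ (L / ((N : ℝ) + 1)) ^ 2 := by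
    intro x hx
    rw [Set.uIoc_of_le (Nat.cast_nonneg _)] at hx
    rw [Real.norm_eq_abs, abs_pow]
    apply pow_le_pow_left₀ (abs_nonneg _)
    rw [abs_sub_comm]
    exact interp_error F P hP L hL0 hL N hx.1
  have h3 := intervalIntegral.norm_integral_le_of_norm_le_const h2
  rw [sub_zero, abs_of_nonneg (Nat.cast_nonneg _)] at h3
  refine (le_abs_self _).trans ((Real.norm_eq_abs _).symm.le.trans (h3.trans ?_))
  push_cast
  apply le_of_eq; ring

/-! ### The block estimate -/

/-- Cauchy–Schwarz for increments. -/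
theorem sq_increment_le (f : 𝓓(halfLine, ℝ)) {a b : ℝ} (hab : a ≤ b) :
    (f b - f a) ^ 2 ≤ (b - a) * ∫ x in a..b, (deriv f x) ^ 2 := by
  have hd : ∫ x in a..b, deriv f x = f b - f a := by
    apply intervalIntegral.integral_eq_sub_of_hasDerivAt
    · intro x _
      exact ((test_differentiable f) x).hasDerivAt
    · exact (test_deriv_continuous f).intervalIntegrable _ _
  have hI : IntervalIntegrable (fun x => (deriv f x) ^ 2) volume a b :=
    ((test_deriv_continuous f).pow 2).intervalIntegrable _ _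
  have hI1 : IntervalIntegrable (deriv f) volume a b := (test_deriv_continuous f).intervalIntegrable _ _
  rcases hab.eq_or_lt with h | h
  · subst h; simp
  · have hba : 0 < b - a := by linarith
    set c := (f b - f a) / (b - a) with hc
    have h1 : 0 ≤ ∫ x in a..b, (deriv f x - c) ^ 2 :=
      intervalIntegral.integral_nonneg hab (fun x _ => sq_nonneg _)
    have h2 : ∫ x in a..b, (deriv f x - c) ^ 2 =
        (∫ x in a..b, (deriv f x) ^ 2) - 2 * c * (f b - f a) + c ^ 2 * (b - a) := by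
      have h3 : ∀ x, (deriv f x - c) ^ 2 = (deriv f x) ^ 2 - 2 * c * deriv f x + c ^ 2 := fun x => by ring
      simp_rw [h3]
      rw [intervalIntegral.integral_add (hI.sub (hI1.const_mul _)) intervalIntegrable_const,
        intervalIntegral.integral_sub hI (hI1.const_mul _), intervalIntegral.integral_const_mul, hd,
        intervalIntegral.integral_const, smul_eq_mul]
      ring
    rw [h2] at h1
    have h4 : c * (b - a) = f b - f a := by rw [hc]; field_simp
    nlinarith

/-- Agmon inequality on a unit interval. -/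
theorem agmon (f : 𝓓(halfLine, ℝ)) (n : ℕ) {x : ℝ} (hx : x ∈ Set.Icc (n : ℝ) (n + 1)) {l : ℝ} (hl : 0 < l) :
    (f x) ^ 2 ≤ (1 + 1 / l) * (∫ y in (n : ℝ)..(n + 1), (f y) ^ 2) +
      l * ∫ y in (n : ℝ)..(n + 1), (deriv f y) ^ 2 := by
  have hI : IntervalIntegrable (fun x => (deriv f x) ^ 2) volume (n : ℝ) (n + 1) :=
    ((test_deriv_continuous f).pow 2).intervalIntegrable _ _
  have hI0 : IntervalIntegrable (fun x => (f x) ^ 2) volume (n : ℝ) (n + 1) :=
    ((test_continuous f).pow 2).intervalIntegrable _ _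
  set Q := ∫ y in (n : ℝ)..(n + 1), ((f y) ^ 2 / l + l * (deriv f y) ^ 2) with hQ
  have hQ' : Q = (1 / l) * (∫ y in (n : ℝ)..(n + 1), (f y) ^ 2) +
      l * ∫ y in (n : ℝ)..(n + 1), (deriv f y) ^ 2 := by
    rw [hQ, intervalIntegral.integral_add (hI0.div_const l) (hI.const_mul l),
      intervalIntegral.integral_div, intervalIntegral.integral_const_mul]
    ring
  have hcont : Continuous (fun y => (f y) ^ 2 / l + l * (deriv f y) ^ 2) := by
    have := test_continuous f
    have := test_deriv_continuous f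
    fun_prop
  have h1 : ∀ y ∈ Set.Icc (n : ℝ) (n + 1), (f x) ^ 2 - (f y) ^ 2 ≤ Q := by
    intro y hy
    have hd : ∫ z in y..x, (2 * f z * deriv f z) = (f x) ^ 2 - (f y) ^ 2 := by
      apply intervalIntegral.integral_eq_sub_of_hasDerivAt (f := fun z => (f z) ^ 2)
      · intro z _
        have := ((test_differentiable f) z).hasDerivAt.fun_pow 2
        simpa using this
      · have := test_continuous f
        have := test_deriv_continuous f
        apply Continuous.intervalIntegrable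
        fun_prop
    rw [← hd]
    have h2 := intervalIntegral.norm_integral_le_integral_norm_uIoc (f := fun z => 2 * f z * deriv f z)
      (a := y) (b := x) (μ := volume)
    refine (le_abs_self _).trans ((Real.norm_eq_abs _).symm.le.trans (h2.trans ?_))
    rw [hQ, intervalIntegral.integral_of_le (by linarith)]
    have hsub : Set.uIoc y x ⊆ Set.Ioc (n : ℝ) (n + 1) := by
      intro z hz
      rw [Set.mem_uIoc] at hz
      rcases hz with hz | hz
      · exact ⟨by linarith [hy.1, hz.1], by linarith [hx.2, hz.2]⟩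
      · exact ⟨by linarith [hx.1, hz.1], by linarith [hy.2, hz.2]⟩
    have h3 : ∀ z, ‖2 * f z * deriv f z‖ ≤ (f z) ^ 2 / l + l * (deriv f z) ^ 2 := by
      intro z
      rw [Real.norm_eq_abs, abs_mul, abs_mul, abs_two]
      have h4 : (f z) ^ 2 / l + l * (deriv f z) ^ 2 - 2 * |f z| * |deriv f z| =
          (1 / l) * (|f z| - l * |deriv f z|) ^ 2 := by
        rw [← sq_abs (f z), ← sq_abs (deriv f z)]
        field_simp
        ring
      have h5 : 0 ≤ (1 / l) * (|f z| - l * |deriv f z|) ^ 2 := by positivity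
      linarith
    calc ∫ z in Set.uIoc y x, ‖2 * f z * deriv f z‖
        ≤ ∫ z in Set.uIoc y x, ((f z) ^ 2 / l + l * (deriv f z) ^ 2) := by
          apply setIntegral_mono_on _ _ measurableSet_uIoc (fun z _ => h3 z)
          · have := test_continuous f
            have := test_deriv_continuous f
            have hc : Continuous (fun z => ‖2 * f z * deriv f z‖) := by fun_prop
            exact (hc.continuousOn.integrableOn_compact isCompact_Icc).mono_set (Set.uIoc_subset_uIcc)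
          · exact (hcont.continuousOn.integrableOn_compact isCompact_Icc).mono_set (Set.uIoc_subset_uIcc)
      _ ≤ ∫ z in Set.Ioc (n : ℝ) (n + 1), ((f z) ^ 2 / l + l * (deriv f z) ^ 2) := by
          apply setIntegral_mono_set
          · exact (hcont.continuousOn.integrableOn_compact isCompact_Icc).mono_set Set.Ioc_subset_Icc_self
          · filter_upwards with z
            positivity
          · exact hsub.eventuallyLE
  have h6 : ∫ y in (n : ℝ)..(n + 1), ((f x) ^ 2 - (f y) ^ 2) ≤ ∫ y in (n : ℝ)..(n + 1), Q := by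
    apply intervalIntegral.integral_mono_on (by linarith)
    · exact intervalIntegrable_const.sub hI0
    · exact intervalIntegrable_const
    · exact h1
  rw [intervalIntegral.integral_sub intervalIntegrable_const hI0, intervalIntegral.integral_const,
    intervalIntegral.integral_const, smul_eq_mul, smul_eq_mul, hQ'] at h6
  have h7 : (n : ℝ) + 1 - n = 1 := by ring
  rw [h7] at h6
  linarith

theorem abel_sum (F W : ℕ → ℝ) (m : ℕ) :
    ∑ r ∈ Finset.range m, F (r + 1) * (W r - W (r + 1)) =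
      F 0 * W 0 - F m * W m + ∑ r ∈ Finset.range m, (F (r + 1) - F r) * W r := by
  induction m with
  | zero => simp
  | succ m ih => rw [Finset.sum_range_succ, Finset.sum_range_succ, ih]; ring

theorem scalar_step (D E w M c : ℝ) (hc : 0 < c) (hE : E ^ 2 ≤ 4 * M) :
    |D * E * w| ≤ 1 / 8 * (c * D ^ 2) + 8 * M / c * w ^ 2 := by
  have h11 : 1 / 8 * (c * D ^ 2) + 2 * (E ^ 2 * w ^ 2) / c -
      |D| * |E| * |w| = 1 / (8 * c) * (c * |D| - 4 * (|E| * |w|)) ^ 2 := by
    rw [← sq_abs D, ← sq_abs E, ← sq_abs w]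
    field_simp
    ring
  have h12 : 0 ≤ 1 / (8 * c) * (c * |D| - 4 * (|E| * |w|)) ^ 2 := by positivity
  rw [abs_mul, abs_mul]
  have h13 : 2 * (E ^ 2 * w ^ 2) / c ≤ 8 * M / c * w ^ 2 := by
    rw [div_mul_eq_mul_div]
    apply div_le_div_of_nonneg_right _ hc.le
    have := mul_le_mul_of_nonneg_right hE (sq_nonneg w)
    linarith
  linarith

theorem scalar_poly (A : ℝ) :
    (1 + 8 * (1 + (A + 8 * A ^ 2))) * (A + 8 * A ^ 2) ≤ 1500 * (1 + A ^ 4) := by
  have h1 : 2 * A ≤ 1 + A ^ 2 := by nlinarith [sq_nonneg (A - 1)]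
  have h2 : 2 * A ^ 2 ≤ 1 + A ^ 4 := by nlinarith [sq_nonneg (A ^ 2 - 1)]
  have h3 : 2 * A ^ 3 ≤ A ^ 2 + A ^ 4 := by nlinarith [sq_nonneg (A ^ 2 - A)]
  nlinarith

theorem block_estimate (f : 𝓓(halfLine, ℝ)) (N n : ℕ) (W : ℕ → ℝ) (hW : W (N + 1) = 0) (A : ℝ) (hA : 0 ≤ A)
    (h0 : |W 0| ≤ A) (h1 : ∑ r ∈ Finset.range (N + 1), (W r) ^ 2 ≤ ((N : ℝ) + 1) * A ^ 2) :
    |∑ r ∈ Finset.range (N + 1), (f (((n * (N + 1) + r + 1 : ℕ) : ℝ) / ((N : ℝ) + 1))) ^ 2 * (W r - W (r + 1))| ≤
      1 / 4 * (∫ y in (n : ℝ)..(n + 1), (deriv f y) ^ 2) +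
      1500 * (1 + A ^ 4) * ∫ y in (n : ℝ)..(n + 1), (f y) ^ 2 := by
  have hN : (0 : ℝ) < (N : ℝ) + 1 := by positivity
  set K := ∫ y in (n : ℝ)..(n + 1), (deriv f y) ^ 2 with hK
  set Q := ∫ y in (n : ℝ)..(n + 1), (f y) ^ 2 with hQ
  have hK0 : 0 ≤ K := intervalIntegral.integral_nonneg (by linarith) (fun x _ => sq_nonneg _)
  have hQ0 : 0 ≤ Q := intervalIntegral.integral_nonneg (by linarith) (fun x _ => sq_nonneg _)
  set x : ℕ → ℝ := fun r => ((n * (N + 1) + r : ℕ) : ℝ) / ((N : ℝ) + 1) with hx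
  have hxn : ∀ r, x r = n + r / ((N : ℝ) + 1) := by
    intro r
    simp only [hx]
    push_cast
    field_simp
  have hxmem : ∀ r, r ≤ N + 1 → x r ∈ Set.Icc (n : ℝ) (n + 1) := by
    intro r hr
    have hr' : (r : ℝ) ≤ (N : ℝ) + 1 := by exact_mod_cast hr
    rw [hxn]
    constructor
    · have : 0 ≤ (r : ℝ) / ((N : ℝ) + 1) := by positivity
      linarith
    · have : (r : ℝ) / ((N : ℝ) + 1) ≤ 1 := (div_le_one hN).mpr hr'
      linarith
  set B := A + 8 * A ^ 2 with hB
  have hB0 : 0 ≤ B := by positivity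
  set l : ℝ := 1 / (8 * (1 + B)) with hl
  have hl0 : 0 < l := by positivity
  set M := (1 + 1 / l) * Q + l * K with hM
  have hM0 : 0 ≤ M := by positivity
  have hMf : ∀ r, r ≤ N + 1 → (f (x r)) ^ 2 ≤ M := fun r hr => agmon f n (hxmem r hr) hl0
  have hab := abel_sum (fun r => (f (x r)) ^ 2) W (N + 1)
  have hgoal : ∑ r ∈ Finset.range (N + 1), (f (((n * (N + 1) + r + 1 : ℕ) : ℝ) / ((N : ℝ) + 1))) ^ 2 *
      (W r - W (r + 1)) = ∑ r ∈ Finset.range (N + 1), (fun r => (f (x r)) ^ 2) (r + 1) * (W r - W (r + 1)) := rfl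
  rw [hgoal, hab, hW, mul_zero, sub_zero]
  have hfirst : |(f (x 0)) ^ 2 * W 0| ≤ M * A := by
    rw [abs_mul, abs_of_nonneg (sq_nonneg _)]
    exact mul_le_mul (hMf 0 (Nat.zero_le _)) h0 (abs_nonneg _) hM0
  have hstep : ∀ r ∈ Finset.range (N + 1), |((f (x (r + 1))) ^ 2 - (f (x r)) ^ 2) * W r| ≤
      1 / 8 * (∫ y in (x r)..(x (r + 1)), (deriv f y) ^ 2) + 8 * M / ((N : ℝ) + 1) * (W r) ^ 2 := by
    intro r hr
    have hr' : r + 1 ≤ N + 1 := Finset.mem_range.mp hr
    have h2 := sq_increment_le f (show x r ≤ x (r + 1) by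
      rw [hxn, hxn]
      push_cast
      have : (r : ℝ) / ((N : ℝ) + 1) ≤ ((r : ℝ) + 1) / ((N : ℝ) + 1) := by
        apply div_le_div_of_nonneg_right _ hN.le
        linarith
      linarith)
    have h3 : x (r + 1) - x r = 1 / ((N : ℝ) + 1) := by
      rw [hxn, hxn]
      push_cast
      field_simp
      ring
    rw [h3] at h2
    set D := f (x (r + 1)) - f (x r) with hD
    set E := f (x (r + 1)) + f (x r) with hE
    set I := ∫ y in (x r)..(x (r + 1)), (deriv f y) ^ 2 with hI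
    have h4 : (f (x (r + 1))) ^ 2 - (f (x r)) ^ 2 = D * E := by rw [hD, hE]; ring
    have h5 : E ^ 2 ≤ 4 * M := by
      have h6 := hMf (r + 1) hr'
      have h7 := hMf r (by omega)
      rw [hE]
      nlinarith [sq_nonneg (f (x (r + 1)) - f (x r))]
    rw [h4]
    have h8 : ((N : ℝ) + 1) * D ^ 2 ≤ I := by
      have h9 : D ^ 2 ≤ I / ((N : ℝ) + 1) := by rw [div_eq_mul_one_div, mul_comm]; exact h2
      rw [le_div_iff₀ hN] at h9
      linarith
    have h10 := scalar_step D E (W r) M ((N : ℝ) + 1) hN h5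
    linarith
  have hsumI : ∑ r ∈ Finset.range (N + 1), ∫ y in (x r)..(x (r + 1)), (deriv f y) ^ 2 = K := by
    have hs := intervalIntegral.sum_integral_adjacent_intervals (f := fun y => (deriv f y) ^ 2) (a := x)
      (n := N + 1) (μ := volume) (fun r _ => ((test_deriv_continuous f).pow 2).intervalIntegrable _ _)
    rw [hs, hxn, hxn]
    congr 2
    · simp
    · push_cast
      rw [div_self hN.ne']
  have hrest : |∑ r ∈ Finset.range (N + 1), ((f (x (r + 1))) ^ 2 - (f (x r)) ^ 2) * W r| ≤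
      1 / 8 * K + 8 * M * A ^ 2 := by
    refine (Finset.abs_sum_le_sum_abs _ _).trans ((Finset.sum_le_sum hstep).trans ?_)
    rw [Finset.sum_add_distrib, ← Finset.mul_sum, ← Finset.mul_sum, hsumI]
    have h2 : 8 * M / ((N : ℝ) + 1) * ∑ r ∈ Finset.range (N + 1), (W r) ^ 2 ≤
        8 * M / ((N : ℝ) + 1) * (((N : ℝ) + 1) * A ^ 2) := mul_le_mul_of_nonneg_left h1 (by positivity)
    have h3 : 8 * M / ((N : ℝ) + 1) * (((N : ℝ) + 1) * A ^ 2) = 8 * M * A ^ 2 := by field_simp
    linarith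
  have htot : |(f (x 0)) ^ 2 * W 0 + ∑ r ∈ Finset.range (N + 1), ((f (x (r + 1))) ^ 2 - (f (x r)) ^ 2) * W r| ≤
      1 / 8 * K + M * B := by
    refine (abs_add_le _ _).trans ((add_le_add hfirst hrest).trans ?_)
    rw [hB]; apply le_of_eq; ring
  refine htot.trans ?_
  have h2 : 1 / l = 8 * (1 + B) := by rw [hl]; field_simp
  have h3 : M * B = (1 + 8 * (1 + B)) * B * Q + l * B * K := by rw [hM, h2]; ring
  have h4 : l * B ≤ 1 / 8 := by
    rw [hl, div_mul_eq_mul_div, div_le_div_iff₀ (by positivity) (by norm_num)]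
    linarith
  have h5 : (1 + 8 * (1 + B)) * B ≤ 1500 * (1 + A ^ 4) := scalar_poly A
  rw [h3]
  have h6 := mul_le_mul_of_nonneg_right h4 hK0
  have h7 := mul_le_mul_of_nonneg_right h5 hQ0
  linarith

/-- Product of two test functions. -/
noncomputable def mulTest (f g : 𝓓(halfLine, ℝ)) : 𝓓(halfLine, ℝ) where
  toFun x := f x * g x
  contDiff' := f.contDiff.mul g.contDiff
  hasCompactSupport' := f.hasCompactSupport.mul_right
  tsupport_subset' := (tsupport_mul_subset_left).trans f.tsupport_subset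

theorem mulTest_apply (f g : 𝓓(halfLine, ℝ)) (x : ℝ) : mulTest f g x = f x * g x := rfl

/-- The block variables of a linear functional. -/
noncomputable def blockVar (ℓ : 𝓓(halfLine, ℝ) → ℝ) (N n r : ℕ) : ℝ :=
  ℓ (stepTest N (n * (N + 1) + r) ((n + 1) * (N + 1)))

/-- The deterministic form bound for the interpolants. -/
theorem interp_form_bound (ℓ : 𝓓(halfLine, ℝ) →ₗ[ℝ] ℝ) (N : ℕ) (R : ℝ) (hR : 0 ≤ R)
    (h0 : ∀ n : ℕ, |blockVar ℓ N n 0| ^ 16 ≤ R * ((n : ℝ) + 1) ^ 2)
    (h1 : ∀ n : ℕ, ∑ r ∈ Finset.range (N + 1), |blockVar ℓ N n r| ^ 16 ≤ ((N : ℝ) + 1) * (R * ((n : ℝ) + 1) ^ 2))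
    (f : 𝓓(halfLine, ℝ)) (P : ℕ) (hP : ∀ x : ℝ, (P : ℝ) ≤ x → f x = 0 ∧ deriv f x = 0) :
    |ℓ (interp N P (mulTest f f))| ≤ 1 / 4 * (∫ x in Set.Ioi 0, ((deriv f x) ^ 2 + x * (f x) ^ 2)) +
      (1501 + 1500 ^ 2 * √R) * ∫ x in Set.Ioi 0, (f x) ^ 2 := by
  have hN : (0 : ℝ) < (N : ℝ) + 1 := by positivity
  have hc0 := test_continuous f
  have hc1 := test_deriv_continuous f
  -- block bound
  have hblock : ∀ n ∈ Finset.range P, |∑ r ∈ Finset.range (N + 1),
      (f (((n * (N + 1) + r + 1 : ℕ) : ℝ) / ((N : ℝ) + 1))) ^ 2 *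
        ℓ (stepTest N (n * (N + 1) + r) (n * (N + 1) + r + 1))| ≤
      ∫ y in (n : ℝ)..((n + 1 : ℕ) : ℝ), (1 / 4 * ((deriv f y) ^ 2 + y * (f y) ^ 2) +
        (1501 + 1500 ^ 2 * √R) * (f y) ^ 2) := by
    intro n _
    have hn0 : (0 : ℝ) ≤ n := Nat.cast_nonneg n
    set A : ℝ := (√R * ((n : ℝ) + 1)) ^ (((8 : ℕ) : ℝ)⁻¹) with hA
    have hA0 : 0 ≤ A := by positivity
    have hA8 : A ^ 8 = √R * ((n : ℝ) + 1) := by
      rw [hA]
      exact Real.rpow_inv_natCast_pow (by positivity) (by norm_num)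
    have hA16 : A ^ 16 = R * ((n : ℝ) + 1) ^ 2 := by
      have : A ^ 16 = (A ^ 8) ^ 2 := by ring
      rw [this, hA8, mul_pow, Real.sq_sqrt hR]
    have hW0 : |blockVar ℓ N n 0| ≤ A := by
      have := h0 n
      rw [← hA16] at this
      exact (pow_le_pow_iff_left₀ (abs_nonneg _) hA0 (by norm_num)).mp this
    have hW2 : ∑ r ∈ Finset.range (N + 1), (blockVar ℓ N n r) ^ 2 ≤ ((N : ℝ) + 1) * A ^ 2 := by
      have h2 := Real.pow_arith_mean_le_arith_mean_pow (Finset.range (N + 1)) (fun _ => ((N : ℝ) + 1)⁻¹)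
        (fun r => (blockVar ℓ N n r) ^ 2) (fun _ _ => (inv_pos.mpr hN).le)
        (by rw [Finset.sum_const, Finset.card_range, nsmul_eq_mul]; push_cast; exact mul_inv_cancel₀ hN.ne')
        (fun _ _ => sq_nonneg _) 8
      rw [← Finset.mul_sum, ← Finset.mul_sum] at h2
      have h3 : ∑ r ∈ Finset.range (N + 1), ((blockVar ℓ N n r) ^ 2) ^ 8 =
          ∑ r ∈ Finset.range (N + 1), |blockVar ℓ N n r| ^ 16 := by
        apply Finset.sum_congr rfl
        intro r _
        rw [← pow_mul]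
        norm_num
        rw [show (16 : ℕ) = 2 * 8 by norm_num, pow_mul, pow_mul, sq_abs]
      rw [h3] at h2
      have h4 : ((N : ℝ) + 1)⁻¹ * ∑ r ∈ Finset.range (N + 1), |blockVar ℓ N n r| ^ 16 ≤ (A ^ 2) ^ 8 := by
        rw [← pow_mul, show 2 * 8 = 16 by norm_num, hA16, inv_mul_le_iff₀ hN]
        exact h1 n
      have h5 := (pow_le_pow_iff_left₀ (mul_nonneg (inv_pos.mpr hN).le
        (Finset.sum_nonneg (fun _ _ => sq_nonneg _))) (sq_nonneg A) (by norm_num : (8 : ℕ) ≠ 0)).mp (h2.trans h4)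
      rwa [inv_mul_le_iff₀ hN] at h5
    have hWN : blockVar ℓ N n (N + 1) = 0 := by
      unfold blockVar
      have : stepTest N (n * (N + 1) + (N + 1)) ((n + 1) * (N + 1)) = 0 := by
        ext x
        rw [stepTest_apply, stepFun, show n * (N + 1) + (N + 1) = (n + 1) * (N + 1) by ring]
        simp
      rw [this, map_zero]
    have hdiff : ∀ r, ℓ (stepTest N (n * (N + 1) + r) (n * (N + 1) + r + 1)) =
        blockVar ℓ N n r - blockVar ℓ N n (r + 1) := by
      intro r
      unfold blockVar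
      rw [← map_sub, ← add_assoc, stepTest_sub]
    simp_rw [hdiff]
    refine (block_estimate f N n (blockVar ℓ N n) hWN A hA0 hW0 hW2).trans ?_
    have hpoly : 1500 * (1 + A ^ 4) ≤ 1 / 4 * n + (1501 + 1500 ^ 2 * √R) := by
      have h6 : 0 ≤ (1 / 2 * ((n : ℝ) + 1) - 1500 * A ^ 4) ^ 2 := sq_nonneg _
      have h7 : (A ^ 4) ^ 2 = √R * ((n : ℝ) + 1) := by rw [← hA8]; ring
      have h8 : 1500 * A ^ 4 * ((n : ℝ) + 1) ≤ (1 / 4 * ((n : ℝ) + 1) + 1500 ^ 2 * √R) * ((n : ℝ) + 1) := by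
        nlinarith
      have h9 := le_of_mul_le_mul_right h8 (by positivity)
      linarith
    have hQ0 : 0 ≤ ∫ y in (n : ℝ)..(n + 1), (f y) ^ 2 :=
      intervalIntegral.integral_nonneg (by linarith) (fun x _ => sq_nonneg _)
    have h10 := mul_le_mul_of_nonneg_right hpoly hQ0
    refine (add_le_add_right h10 _).trans ?_
    have i1 : IntervalIntegrable (fun y => (deriv f y) ^ 2) volume (n : ℝ) (n + 1) :=
      (hc1.pow 2).intervalIntegrable _ _
    have i2 : IntervalIntegrable (fun y => (f y) ^ 2) volume (n : ℝ) (n + 1) :=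
      (hc0.pow 2).intervalIntegrable _ _
    rw [← intervalIntegral.integral_const_mul, ← intervalIntegral.integral_const_mul,
      ← intervalIntegral.integral_add (i1.const_mul _) (i2.const_mul _)]
    push_cast
    apply intervalIntegral.integral_mono_on (by linarith)
    · exact (i1.const_mul _).add (i2.const_mul _)
    · apply Continuous.intervalIntegrable
      fun_prop
    · intro y hy
      nlinarith [mul_nonneg (sub_nonneg.mpr hy.1) (sq_nonneg (f y))]
  -- sum over blocks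
  have hval : ℓ (interp N P (mulTest f f)) = ∑ n ∈ Finset.range P, ∑ r ∈ Finset.range (N + 1),
      (f (((n * (N + 1) + r + 1 : ℕ) : ℝ) / ((N : ℝ) + 1))) ^ 2 *
        ℓ (stepTest N (n * (N + 1) + r) (n * (N + 1) + r + 1)) := by
    unfold interp
    rw [map_sum]
    apply Finset.sum_congr rfl
    intro n _
    rw [map_sum]
    apply Finset.sum_congr rfl
    intro r _
    rw [map_smul, smul_eq_mul, mulTest_apply]
    ring
  rw [hval]
  refine (Finset.abs_sum_le_sum_abs _ _).trans ((Finset.sum_le_sum hblock).trans ?_)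
  have hs := intervalIntegral.sum_integral_adjacent_intervals
    (f := fun y => (1 / 4 * ((deriv f y) ^ 2 + y * (f y) ^ 2) +
        (1501 + 1500 ^ 2 * √R) * (f y) ^ 2)) (a := fun n : ℕ => (n : ℝ))
      (n := P) (μ := volume) (fun r _ => by
        apply Continuous.intervalIntegrable
        fun_prop)
  rw [hs]
  have e1 := integral_Ioi_eq (g := fun y => (deriv f y) ^ 2 + y * (f y) ^ 2) P (fun x hx => by
    rw [(hP x hx).1, (hP x hx).2]; ring)
  have e2 := integral_Ioi_eq (g := fun y => (f y) ^ 2) P (fun x hx => by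
    rw [(hP x hx).1]; ring)
  rw [e1, e2, ← intervalIntegral.integral_const_mul, ← intervalIntegral.integral_const_mul,
    ← intervalIntegral.integral_add]
  · push_cast
    exact le_rfl
  · apply Continuous.intervalIntegrable
    fun_prop
  · apply Continuous.intervalIntegrable
    fun_prop

end Pool.Agent.Helper95
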