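import Mathlib
import Pool.Agent.Lib.Helper95.NoiseBlock
open MeasureTheory ProbabilityTheory Finset Filter Topology TopologicalSpace Set
open scoped NNReal ENNReal Distributions

namespace Pool.Agent.Helper95

/-! ### Moments of Gaussian variables -/

theorem gauss_moment {Ω : Type*} [MeasurableSpace Ω] {P : Measure Ω} {X : Ω → ℝ} (hX : AEMeasurable X P)
    {v : ℝ≥0} (hlaw : P.map X = gaussianReal 0 v) (hv : (v : ℝ) ≤ 2) :
    ∫⁻ ω, ENNReal.ofReal (|X ω| ^ 16) ∂P ≤ ENNReal.ofReal ((Nat.factorial 16 : ℝ) * (2 * Real.exp 1)) := by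
  have h1 : ∫⁻ ω, ENNReal.ofReal (|X ω| ^ 16) ∂P = ∫⁻ x, ENNReal.ofReal (|x| ^ 16) ∂(gaussianReal 0 v) := by
    rw [← hlaw, lintegral_map' (by fun_prop) hX]
  rw [h1]
  have h2 : ∀ x : ℝ, |x| ^ 16 ≤ (Nat.factorial 16 : ℝ) * (Real.exp x + Real.exp (-x)) := by
    intro x
    have h3 := Real.pow_div_factorial_le_exp |x| (abs_nonneg x) 16
    rw [div_le_iff₀ (by positivity)] at h3
    have h4 : Real.exp |x| ≤ Real.exp x + Real.exp (-x) := by
      rcases abs_cases x with ⟨h, _⟩ | ⟨h, _⟩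
      · rw [h]; linarith [Real.exp_pos (-x)]
      · rw [h]; linarith [Real.exp_pos x]
    nlinarith [show (0 : ℝ) < (Nat.factorial 16 : ℝ) by positivity]
  have hI : Integrable (fun x : ℝ => (Nat.factorial 16 : ℝ) * (Real.exp x + Real.exp (-x))) (gaussianReal 0 v) := by
    apply Integrable.const_mul
    apply Integrable.add
    · have := integrable_exp_mul_gaussianReal (μ := 0) (v := v) 1
      simpa using this
    · have := integrable_exp_mul_gaussianReal (μ := 0) (v := v) (-1)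
      simpa using this
  refine (lintegral_mono (fun x => ENNReal.ofReal_le_ofReal (h2 x))).trans ?_
  rw [← ofReal_integral_eq_lintegral_ofReal hI (Filter.Eventually.of_forall (fun x => by positivity))]
  apply ENNReal.ofReal_le_ofReal
  rw [integral_const_mul]
  apply mul_le_mul_of_nonneg_left _ (by positivity)
  have e1 : ∫ x, Real.exp x ∂(gaussianReal 0 v) = Real.exp (v / 2) := by
    have := congrFun (mgf_fun_id_gaussianReal (μ := 0) (v := v)) 1
    simpa [mgf] using this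
  have e2 : ∫ x, Real.exp (-x) ∂(gaussianReal 0 v) = Real.exp (v / 2) := by
    have := congrFun (mgf_fun_id_gaussianReal (μ := 0) (v := v)) (-1)
    simpa [mgf] using this
  rw [integral_add, e1, e2]
  · have : Real.exp ((v : ℝ) / 2) ≤ Real.exp 1 := Real.exp_le_exp.mpr (by linarith)
    linarith
  · have := integrable_exp_mul_gaussianReal (μ := 0) (v := v) 1
    simpa using this
  · have := integrable_exp_mul_gaussianReal (μ := 0) (v := v) (-1)
    simpa using this

theorem gauss_sq {Ω : Type*} [MeasurableSpace Ω] {P : Measure Ω} {X : Ω → ℝ} (hX : AEMeasurable X P)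
    {v : ℝ≥0} (hlaw : P.map X = gaussianReal 0 v) :
    ∫⁻ ω, ENNReal.ofReal ((X ω) ^ 2) ∂P = ENNReal.ofReal v := by
  have h1 : ∫⁻ ω, ENNReal.ofReal ((X ω) ^ 2) ∂P = ∫⁻ x, ENNReal.ofReal (x ^ 2) ∂(gaussianReal 0 v) := by
    rw [← hlaw, lintegral_map' (by fun_prop) hX]
  rw [h1]
  have hL : MemLp (id : ℝ → ℝ) 2 (gaussianReal 0 v) := memLp_id_gaussianReal 2
  rw [← ofReal_integral_eq_lintegral_ofReal (by simpa using hL.integrable_sq)
    (Filter.Eventually.of_forall (fun x => sq_nonneg x))]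
  congr 1
  have := variance_fun_id_gaussianReal (μ := 0) (v := v)
  rw [← this, variance_of_integral_eq_zero]
  · exact aemeasurable_id
  · simp [integral_id_gaussianReal]

/-- One-time law of white noise on the half line. -/
structure IsWhite {Ω : Type*} [MeasurableSpace Ω] (P : Measure Ω) (T : Ω → 𝓓'(halfLine, ℝ)) : Prop where
  aemeas : ∀ F : 𝓓(halfLine, ℝ), AEMeasurable (fun ω => T ω F) P
  law : ∀ F : 𝓓(halfLine, ℝ), P.map (fun ω => T ω F) =
    gaussianReal 0 (Real.toNNReal (∫ x in Set.Ioi 0, (F x) ^ 2))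

theorem step_l2 (N a b : ℕ) (hab : a ≤ b) :
    ∫ x in Set.Ioi 0, (stepTest N a b x) ^ 2 ≤ ((b : ℝ) + 1 - a) / ((N : ℝ) + 1) := by
  have hN : (0 : ℝ) < (N : ℝ) + 1 := by positivity
  have hab' : (a : ℝ) ≤ b := by exact_mod_cast hab
  have ha0 : (0 : ℝ) ≤ a := Nat.cast_nonneg a
  have h1 : ∫ x in Set.Ioi 0, (stepTest N a b x) ^ 2 =
      ∫ x in Set.Ioc ((a : ℝ) / ((N : ℝ) + 1)) (((b : ℝ) + 1) / ((N : ℝ) + 1)), (stepTest N a b x) ^ 2 := by
    apply MeasureTheory.setIntegral_eq_of_subset_of_forall_sdiff_eq_zero measurableSet_Ioi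
    · intro x hx
      exact lt_of_le_of_lt (by positivity) hx.1
    · intro x hx
      have h2 : stepFun N a b x = 0 := by
        apply stepFun_zero hab
        by_cases h3 : x ≤ (a : ℝ) / ((N : ℝ) + 1)
        · left
          rw [le_div_iff₀ hN] at h3
          linarith
        · right
          push Not at h3
          have h4 : ¬ x ≤ ((b : ℝ) + 1) / ((N : ℝ) + 1) := fun h => hx.2 ⟨h3, h⟩
          push Not at h4
          rw [div_lt_iff₀ hN] at h4
          linarith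
      rw [stepTest_apply, h2]; ring
  rw [h1]
  have h5 : ∀ x ∈ Set.Ioc ((a : ℝ) / ((N : ℝ) + 1)) (((b : ℝ) + 1) / ((N : ℝ) + 1)),
      ‖(stepTest N a b x) ^ 2‖ ≤ 1 := by
    intro x _
    have := stepFun_mono_sub (N := N) hab x
    rw [Real.norm_eq_abs, abs_of_nonneg (sq_nonneg _), stepTest_apply]
    nlinarith
  have h6 := norm_setIntegral_le_of_norm_le_const (μ := volume) (by simp) h5
  rw [one_mul, measureReal_def, Real.volume_Ioc, ENNReal.toReal_ofReal (by
    rw [← sub_div]; apply div_nonneg _ hN.le; linarith)] at h6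
  refine (le_abs_self _).trans ((Real.norm_eq_abs _).symm.le.trans (h6.trans ?_))
  rw [← sub_div]

theorem blockVar_moment {Ω : Type*} [MeasurableSpace Ω] {P : Measure Ω} {T : Ω → 𝓓'(halfLine, ℝ)}
    (hT : IsWhite P T) (N n r : ℕ) (hr : r < N + 1) :
    ∫⁻ ω, ENNReal.ofReal (|blockVar (T ω) N n r| ^ 16) ∂P ≤
      ENNReal.ofReal ((Nat.factorial 16 : ℝ) * (2 * Real.exp 1)) := by
  apply gauss_moment (hT.aemeas _) (hT.law _)
  have hN : (0 : ℝ) < (N : ℝ) + 1 := by positivity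
  have h1 := step_l2 N (n * (N + 1) + r) ((n + 1) * (N + 1)) (by nlinarith)
  rw [Real.coe_toNNReal _ (integral_nonneg (fun x => sq_nonneg _))]
  refine h1.trans ?_
  rw [div_le_iff₀ hN]
  push_cast
  have h2 : (0 : ℝ) ≤ r := Nat.cast_nonneg r
  have h3 : (0 : ℝ) ≤ N := Nat.cast_nonneg N
  nlinarith

/-- The control variable at level `N`. -/
noncomputable def ctrl (ℓ : 𝓓(halfLine, ℝ) → ℝ) (N : ℕ) : ℝ≥0∞ :=
  ∑' n : ℕ, ENNReal.ofReal (1 / ((n : ℝ) + 1) ^ 2) * (ENNReal.ofReal (|blockVar ℓ N n 0| ^ 16) +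
    ENNReal.ofReal (1 / ((N : ℝ) + 1)) * ∑ r ∈ Finset.range (N + 1), ENNReal.ofReal (|blockVar ℓ N n r| ^ 16))

theorem summable_inv_sq : Summable (fun n : ℕ => 1 / ((n : ℝ) + 1) ^ 2) := by
  have h := (summable_nat_add_iff 1).mpr (Real.summable_one_div_nat_pow.mpr (by norm_num : 1 < 2))
  refine h.congr (fun n => ?_)
  push_cast
  rfl

/-- The constant `∑ 1/(n+1)^2`. -/
noncomputable def kap : ℝ≥0∞ := ∑' n : ℕ, ENNReal.ofReal (1 / ((n : ℝ) + 1) ^ 2)

theorem kap_ne_top : kap ≠ ⊤ := summable_inv_sq.tsum_ofReal_ne_top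

theorem ctrl_lintegral {Ω : Type*} [MeasurableSpace Ω] {P : Measure Ω} {T : Ω → 𝓓'(halfLine, ℝ)}
    (hT : IsWhite P T) (N : ℕ) :
    ∫⁻ ω, ctrl (T ω) N ∂P ≤ kap * (2 * ENNReal.ofReal ((Nat.factorial 16 : ℝ) * (2 * Real.exp 1))) := by
  have hN : (0 : ℝ) < (N : ℝ) + 1 := by positivity
  set c := ENNReal.ofReal ((Nat.factorial 16 : ℝ) * (2 * Real.exp 1)) with hc
  have hmeas : ∀ n r, AEMeasurable (fun ω => ENNReal.ofReal (|blockVar (T ω) N n r| ^ 16)) P := by
    intro n r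
    have : AEMeasurable (fun ω => blockVar (T ω) N n r) P := hT.aemeas _
    fun_prop
  unfold ctrl
  rw [lintegral_tsum]
  · unfold kap
    rw [← ENNReal.tsum_mul_right]
    apply ENNReal.tsum_le_tsum
    intro n
    rw [lintegral_const_mul'' _ (by
      apply AEMeasurable.add (hmeas n 0)
      apply AEMeasurable.const_mul
      exact Finset.aemeasurable_fun_sum _ (fun r _ => hmeas n r))]
    refine mul_le_mul' le_rfl ?_
    rw [lintegral_add_left' (hmeas n 0), two_mul]
    apply add_le_add (blockVar_moment hT N n 0 (Nat.succ_pos _))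
    rw [lintegral_const_mul'' _ (Finset.aemeasurable_fun_sum _ (fun r _ => hmeas n r)),
      lintegral_finsetSum' _ (fun r _ => hmeas n r)]
    calc ENNReal.ofReal (1 / ((N : ℝ) + 1)) * ∑ r ∈ Finset.range (N + 1),
          ∫⁻ ω, ENNReal.ofReal (|blockVar (T ω) N n r| ^ 16) ∂P
        ≤ ENNReal.ofReal (1 / ((N : ℝ) + 1)) * ∑ r ∈ Finset.range (N + 1), c := by
          refine mul_le_mul' le_rfl ?_
          exact Finset.sum_le_sum (fun r hr => blockVar_moment hT N n r (Finset.mem_range.mp hr))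
      _ = c := by
          rw [Finset.sum_const, Finset.card_range, nsmul_eq_mul, ← mul_assoc]
          rw [show ((N + 1 : ℕ) : ℝ≥0∞) = ENNReal.ofReal ((N : ℝ) + 1) by
            rw [← Nat.cast_succ, ENNReal.ofReal_natCast]]
          rw [← ENNReal.ofReal_mul (by positivity), one_div, inv_mul_cancel₀ hN.ne', ENNReal.ofReal_one, one_mul]
  · intro n
    apply AEMeasurable.const_mul
    apply AEMeasurable.add (hmeas n 0)
    apply AEMeasurable.const_mul
    exact Finset.aemeasurable_fun_sum _ (fun r _ => hmeas n r)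

theorem ctrl_aemeasurable {Ω : Type*} [MeasurableSpace Ω] {P : Measure Ω} {T : Ω → 𝓓'(halfLine, ℝ)}
    (hT : IsWhite P T) (N : ℕ) : AEMeasurable (fun ω => ctrl (T ω) N) P := by
  have hmeas : ∀ n r, AEMeasurable (fun ω => ENNReal.ofReal (|blockVar (T ω) N n r| ^ 16)) P := by
    intro n r
    have : AEMeasurable (fun ω => blockVar (T ω) N n r) P := hT.aemeas _
    fun_prop
  unfold ctrl
  apply AEMeasurable.tsum
  intro n
  apply AEMeasurable.const_mul
  apply AEMeasurable.add (hmeas n 0)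
  apply AEMeasurable.const_mul
  exact Finset.aemeasurable_fun_sum _ (fun r _ => hmeas n r)

theorem ctrl_spec (ℓ : 𝓓(halfLine, ℝ) → ℝ) (N : ℕ) (t : ℝ) (ht : 0 ≤ t) (h : ctrl ℓ N ≤ ENNReal.ofReal t) :
    (∀ n : ℕ, |blockVar ℓ N n 0| ^ 16 ≤ t * ((n : ℝ) + 1) ^ 2) ∧
    (∀ n : ℕ, ∑ r ∈ Finset.range (N + 1), |blockVar ℓ N n r| ^ 16 ≤ ((N : ℝ) + 1) * (t * ((n : ℝ) + 1) ^ 2)) := by
  have hN : (0 : ℝ) < (N : ℝ) + 1 := by positivity
  have hterm : ∀ n : ℕ, ENNReal.ofReal (1 / ((n : ℝ) + 1) ^ 2) * (ENNReal.ofReal (|blockVar ℓ N n 0| ^ 16) +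
    ENNReal.ofReal (1 / ((N : ℝ) + 1)) * ∑ r ∈ Finset.range (N + 1), ENNReal.ofReal (|blockVar ℓ N n r| ^ 16)) ≤
      ENNReal.ofReal t := fun n => (ENNReal.le_tsum n).trans h
  have hkey : ∀ n : ℕ, 1 / ((n : ℝ) + 1) ^ 2 * (|blockVar ℓ N n 0| ^ 16 + (1 / ((N : ℝ) + 1)) *
      ∑ r ∈ Finset.range (N + 1), |blockVar ℓ N n r| ^ 16) ≤ t := by
    intro n
    have h1 := hterm n
    have hs : 0 ≤ ∑ r ∈ Finset.range (N + 1), |blockVar ℓ N n r| ^ 16 := Finset.sum_nonneg (fun r _ => by positivity)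
    rw [← ENNReal.ofReal_sum_of_nonneg (fun r _ => by positivity), ← ENNReal.ofReal_mul (by positivity),
      ← ENNReal.ofReal_add (by positivity) (by positivity), ← ENNReal.ofReal_mul (by positivity),
      ENNReal.ofReal_le_ofReal_iff ht] at h1
    exact h1
  constructor
  · intro n
    have h1 := hkey n
    have hs : 0 ≤ (1 / ((N : ℝ) + 1)) * ∑ r ∈ Finset.range (N + 1), |blockVar ℓ N n r| ^ 16 :=
      mul_nonneg (by positivity) (Finset.sum_nonneg (fun r _ => by positivity))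
    rw [one_div, inv_mul_le_iff₀ (by positivity)] at h1
    linarith
  · intro n
    have h1 := hkey n
    have hs : 0 ≤ |blockVar ℓ N n 0| ^ 16 := by positivity
    rw [one_div, inv_mul_le_iff₀ (by positivity)] at h1
    have h2 : (1 / ((N : ℝ) + 1)) * ∑ r ∈ Finset.range (N + 1), |blockVar ℓ N n r| ^ 16 ≤ ((n : ℝ) + 1) ^ 2 * t := by
      linarith
    rw [one_div, inv_mul_le_iff₀ hN] at h2
    linarith

/-- Convergence of the interpolants along white noise. -/
theorem ae_tendsto_interp {Ω : Type*} [MeasurableSpace Ω] {P : Measure Ω} {T : Ω → 𝓓'(halfLine, ℝ)}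
    (hT : IsWhite P T) (F : 𝓓(halfLine, ℝ)) (Q : ℕ) (hQ : ∀ x : ℝ, (Q : ℝ) ≤ x → F x = 0) :
    ∀ᵐ ω ∂P, Tendsto (fun N => T ω (interp N Q F)) atTop (𝓝 (T ω F)) := by
  obtain ⟨L, hL0, hL⟩ := test_deriv_bound F
  have h1 : ∀ N, ∫⁻ ω, ENNReal.ofReal ((T ω (interp N Q F - F)) ^ 2) ∂P ≤
      ENNReal.ofReal (((Q : ℝ) + 1) * L ^ 2) * ENNReal.ofReal (1 / ((N : ℝ) + 1) ^ 2) := by
    intro N
    rw [gauss_sq (hT.aemeas _) (hT.law _), ← ENNReal.ofReal_mul (by positivity),
      Real.coe_toNNReal _ (integral_nonneg (fun x => sq_nonneg _))]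
    apply ENNReal.ofReal_le_ofReal
    have h2 := interp_l2 F Q hQ L hL0 hL N
    refine le_trans (le_of_eq ?_) (h2.trans (le_of_eq ?_))
    · rfl
    · rw [div_pow]; ring
  have hmeas : ∀ N, AEMeasurable (fun ω => ENNReal.ofReal ((T ω (interp N Q F - F)) ^ 2)) P := by
    intro N
    have := hT.aemeas (interp N Q F - F)
    fun_prop
  have h2 : ∫⁻ ω, ∑' N, ENNReal.ofReal ((T ω (interp N Q F - F)) ^ 2) ∂P ≠ ⊤ := by
    rw [lintegral_tsum hmeas]
    refine ne_top_of_le_ne_top ?_ (ENNReal.tsum_le_tsum h1)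
    rw [ENNReal.tsum_mul_left]
    exact ENNReal.mul_ne_top ENNReal.ofReal_ne_top kap_ne_top
  have h3 := ae_lt_top' (AEMeasurable.tsum hmeas) h2
  filter_upwards [h3] with ω hω
  have h4 := ENNReal.tendsto_atTop_zero_of_tsum_ne_top hω.ne
  have h5 : Tendsto (fun N => (T ω (interp N Q F - F)) ^ 2) atTop (𝓝 0) := by
    have h6 := (ENNReal.tendsto_toReal ENNReal.zero_ne_top).comp h4
    refine h6.congr (fun N => ?_)
    simp [ENNReal.toReal_ofReal (sq_nonneg _)]
  have h7 : Tendsto (fun N => T ω (interp N Q F - F)) atTop (𝓝 0) := by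
    have h8 : Tendsto (fun N => |T ω (interp N Q F - F)|) atTop (𝓝 0) := by
      have h9 := (Real.continuous_sqrt.tendsto 0).comp h5
      rw [Real.sqrt_zero] at h9
      refine h9.congr (fun N => ?_)
      simp [Real.sqrt_sq_eq_abs]
    exact (tendsto_zero_iff_abs_tendsto_zero _).mpr h8
  have h10 := h7.add_const (T ω F)
  rw [zero_add] at h10
  refine h10.congr (fun N => ?_)
  rw [map_sub]
  ring

/-- Energy of a test function. -/
noncomputable def energy (f : 𝓓(halfLine, ℝ)) : ℝ := ∫ x in Set.Ioi 0, ((deriv f x) ^ 2 + x * (f x) ^ 2)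

/-- Squared `L²` norm of a test function. -/
noncomputable def mass (f : 𝓓(halfLine, ℝ)) : ℝ := ∫ x in Set.Ioi 0, (f x) ^ 2

theorem energy_nonneg (f : 𝓓(halfLine, ℝ)) : 0 ≤ energy f := by
  apply setIntegral_nonneg measurableSet_Ioi
  intro x hx
  have : 0 < x := hx
  positivity

theorem mass_nonneg (f : 𝓓(halfLine, ℝ)) : 0 ≤ mass f := integral_nonneg (fun x => sq_nonneg _)

theorem mass_pos {f : 𝓓(halfLine, ℝ)} (hf : f ≠ 0) : 0 < mass f := by
  obtain ⟨x, hx⟩ : ∃ x, f x ≠ 0 := by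
    by_contra hcon
    push Not at hcon
    exact hf (by ext x; exact hcon x)
  have hcont := test_continuous f
  have h1 : mass f = ∫ x, (f x) ^ 2 := by
    unfold mass
    rw [setIntegral_eq_integral_of_forall_compl_eq_zero]
    intro y hy
    rw [test_zero_of_nonpos f (by simpa using hy)]
    ring
  rw [h1]
  apply Continuous.integral_pos_of_hasCompactSupport_nonneg_nonzero (x := x)
  · fun_prop
  · exact (f.hasCompactSupport).comp_left (g := fun y : ℝ => y ^ 2) (by norm_num)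
  · intro y; exact sq_nonneg _
  · exact pow_ne_zero 2 hx

/-- Form bound for a realisation of the noise. -/
def FormBound (T : 𝓓'(halfLine, ℝ)) (C : ℝ) : Prop :=
  ∀ f : 𝓓(halfLine, ℝ), |2 * T (mulTest f f)| ≤ 1 / 2 * energy f + C * mass f

theorem energy_smul (c : ℝ) (f : 𝓓(halfLine, ℝ)) : energy (c • f) = c ^ 2 * energy f := by
  unfold energy
  rw [← integral_const_mul]
  congr 1
  funext x
  have h1 : deriv (c • f : 𝓓(halfLine, ℝ)) x = c * deriv f x := by
    have : ((c • f : 𝓓(halfLine, ℝ)) : ℝ → ℝ) = fun x => c * f x := by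
      funext y; rfl
    rw [this, deriv_const_mul _ ((test_differentiable f) x)]
  have h2 : (c • f : 𝓓(halfLine, ℝ)) x = c * f x := rfl
  rw [h1, h2]
  ring

theorem mass_smul (c : ℝ) (f : 𝓓(halfLine, ℝ)) : mass (c • f) = c ^ 2 * mass f := by
  unfold mass
  rw [← integral_const_mul]
  congr 1
  funext x
  have h2 : (c • f : 𝓓(halfLine, ℝ)) x = c * f x := rfl
  rw [h2]
  ring

theorem mulTest_smul (c : ℝ) (f : 𝓓(halfLine, ℝ)) : mulTest (c • f) (c • f) = c ^ 2 • mulTest f f := by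
  ext x
  show (c * f x) * (c * f x) = c ^ 2 * (f x * f x)
  ring

/-- A countable set of unit test functions that detects the form bound. -/
theorem exists_countable_detect : ∃ C : Set {f : 𝓓(halfLine, ℝ) // mass f = 1}, C.Countable ∧
    ∀ (T : 𝓓'(halfLine, ℝ)) (c : ℝ),
      (∀ f ∈ C, |2 * T (mulTest f.1 f.1)| ≤ 1 / 2 * energy f.1 + c) → FormBound T c := by
  obtain ⟨C, hC, happ⟩ := exists_countable_approx (F := {f : 𝓓(halfLine, ℝ) // mass f = 1})
    (fun f => mulTest f.1 f.1) (fun f => energy f.1)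
  refine ⟨C, hC, fun T c h => ?_⟩
  have hunit : ∀ f : {f : 𝓓(halfLine, ℝ) // mass f = 1}, |2 * T (mulTest f.1 f.1)| ≤ 1 / 2 * energy f.1 + c := by
    intro f
    apply le_of_forall_pos_le_add
    intro ε hε
    obtain ⟨g, hg, h1, h2⟩ := happ f T (ε / 4) (by positivity)
    have h3 := h g hg
    rw [abs_lt] at h1 h2
    rw [abs_le] at h3 ⊢
    constructor <;> linarith [h1.1, h1.2, h2.1, h2.2, h3.1, h3.2]
  intro f
  by_cases hf : f = 0
  · subst hf
    have h1 : mulTest (0 : 𝓓(halfLine, ℝ)) 0 = 0 := by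
      ext x
      show (0 : ℝ) * 0 = 0
      ring
    have h2 : mass 0 = 0 := by
      unfold mass
      have : ∀ x, ((0 : 𝓓(halfLine, ℝ)) x) ^ 2 = 0 := fun x => by
        show (0 : ℝ) ^ 2 = 0
        norm_num
      simp_rw [this]
      simp
    rw [h1, map_zero, h2]
    have := energy_nonneg 0
    simp
    linarith
  · have hm := mass_pos hf
    set c' : ℝ := (√(mass f))⁻¹ with hc'
    have hc2 : c' ^ 2 = (mass f)⁻¹ := by rw [hc', inv_pow, Real.sq_sqrt hm.le]
    have h1 := hunit ⟨c' • f, by rw [mass_smul, hc2]; exact inv_mul_cancel₀ hm.ne'⟩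
    simp only at h1
    rw [mulTest_smul, map_smul, smul_eq_mul, energy_smul, hc2] at h1
    have h2 : |2 * ((mass f)⁻¹ * T (mulTest f f))| = (mass f)⁻¹ * |2 * T (mulTest f f)| := by
      rw [show 2 * ((mass f)⁻¹ * T (mulTest f f)) = (mass f)⁻¹ * (2 * T (mulTest f f)) by ring, abs_mul,
        abs_of_pos (inv_pos.mpr hm)]
    rw [h2, inv_mul_le_iff₀ hm] at h1
    refine h1.trans (le_of_eq ?_)
    field_simp

/-- High probability form bound for white noise. -/
theorem formBound_prob {δ : ℝ} (hδ : 0 < δ) : ∃ C : ℝ, 0 < C ∧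
    ∀ {Ω : Type*} [MeasurableSpace Ω] {P : Measure Ω} {T : Ω → 𝓓'(halfLine, ℝ)}, IsWhite P T →
      P {ω | ¬ FormBound (T ω) C} ≤ ENNReal.ofReal δ := by
  set K0 : ℝ≥0∞ := kap * (2 * ENNReal.ofReal ((Nat.factorial 16 : ℝ) * (2 * Real.exp 1))) with hK0
  have hK0t : K0 ≠ ⊤ := ENNReal.mul_ne_top kap_ne_top (ENNReal.mul_ne_top (by norm_num) ENNReal.ofReal_ne_top)
  set t : ℝ := (K0.toReal + 1) / δ with ht
  have ht0 : 0 < t := by positivity
  refine ⟨2 * (1501 + 1500 ^ 2 * √t), by positivity, ?_⟩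
  intro Ω _ P T hT
  obtain ⟨D, hDc, hD⟩ := exists_countable_detect
  have hDae : ∀ᵐ ω ∂P, ∀ f ∈ D, Tendsto (fun N => T ω (interp N (Classical.choose (test_bound f.1)) (mulTest f.1 f.1)))
      atTop (𝓝 (T ω (mulTest f.1 f.1))) := by
    rw [ae_ball_iff hDc]
    intro f _
    apply ae_tendsto_interp hT
    intro x hx
    rw [mulTest_apply, (Classical.choose_spec (test_bound f.1) x hx).1, mul_zero]
  have hgood : ∀ᵐ ω ∂P, ¬ FormBound (T ω) (2 * (1501 + 1500 ^ 2 * √t)) →
      ENNReal.ofReal t ≤ liminf (fun N => ctrl (T ω) N) atTop := by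
    filter_upwards [hDae] with ω hω hnot
    by_contra hlt
    push Not at hlt
    apply hnot
    apply hD
    intro f hf
    have hfreq := Filter.frequently_lt_of_liminf_lt (by isBoundedDefault) hlt
    set Q := Classical.choose (test_bound f.1) with hQ
    have hQs : ∀ x : ℝ, (Q : ℝ) ≤ x → f.1 x = 0 ∧ deriv f.1 x = 0 := Classical.choose_spec (test_bound f.1)
    have hlim := (hω f hf).abs
    have hclosed : |T ω (mulTest f.1 f.1)| ≤ 1 / 4 * energy f.1 + (1501 + 1500 ^ 2 * √t) * mass f.1 := by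
      apply le_of_tendsto_of_frequently hlim
      refine hfreq.mono (fun N hN => ?_)
      obtain ⟨s0, s1⟩ := ctrl_spec (T ω) N t ht0.le hN.le
      exact interp_form_bound ((T ω : 𝓓(halfLine, ℝ) →L[ℝ] ℝ) : 𝓓(halfLine, ℝ) →ₗ[ℝ] ℝ) N t ht0.le s0 s1 f.1 Q hQs
    rw [abs_mul, abs_two]
    rw [f.2] at hclosed
    linarith
  have h1 : P {ω | ¬ FormBound (T ω) (2 * (1501 + 1500 ^ 2 * √t))} ≤
      P {ω | ENNReal.ofReal t ≤ liminf (fun N => ctrl (T ω) N) atTop} := by
    apply measure_mono_ae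
    filter_upwards [hgood] with ω hω
    exact hω
  refine h1.trans ?_
  have hmeas : AEMeasurable (fun ω => liminf (fun N => ctrl (T ω) N) atTop) P :=
    ⟨fun ω => liminf (fun N => (ctrl_aemeasurable hT N).mk _ ω) atTop,
      Measurable.liminf (fun N => (ctrl_aemeasurable hT N).measurable_mk), by
        have hall : ∀ᵐ ω ∂P, ∀ N, ctrl (T ω) N = (ctrl_aemeasurable hT N).mk _ ω :=
          ae_all_iff.mpr (fun N => (ctrl_aemeasurable hT N).ae_eq_mk)
        filter_upwards [hall] with ω hω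
        simp_rw [hω]⟩
  refine (meas_ge_le_lintegral_div hmeas (by simpa using ht0) ENNReal.ofReal_ne_top).trans ?_
  have h2 : ∫⁻ ω, liminf (fun N => ctrl (T ω) N) atTop ∂P ≤ K0 := by
    refine (lintegral_liminf_le' (fun N => ctrl_aemeasurable hT N)).trans ?_
    refine (liminf_le_liminf (Filter.Eventually.of_forall (fun N => ctrl_lintegral hT N))).trans ?_
    simp [hK0]
  refine (ENNReal.div_le_div_right h2 _).trans ?_
  rw [ENNReal.div_le_iff (by simpa using ht0) ENNReal.ofReal_ne_top, ← ENNReal.ofReal_mul hδ.le]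
  have h3 : δ * t = K0.toReal + 1 := by rw [ht]; field_simp
  rw [h3, ENNReal.le_ofReal_iff_toReal_le hK0t (by positivity)]
  linarith

end Pool.Agent.Helper95
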