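import Mathlib
import Pool.Agent.Lib.Helper95.NoiseBound
import Pool.Agent.Lib.Helper95.MinMax
open MeasureTheory ProbabilityTheory Finset Filter Topology TopologicalSpace Set
open scoped NNReal ENNReal Distributions

namespace Pool.Agent.Helper95

theorem integrableOn_test {g : ℝ → ℝ} (hg : Continuous g) (f : 𝓓(halfLine, ℝ)) :
    IntegrableOn (fun x => f x * g x) (Set.Ioi 0) :=
  integrable_of_compact ((test_continuous f).mul hg) f.hasCompactSupport.mul_right

theorem integrableOn_test_deriv {g : ℝ → ℝ} (hg : Continuous g) (f : 𝓓(halfLine, ℝ)) :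
    IntegrableOn (fun x => deriv f x * g x) (Set.Ioi 0) :=
  integrable_of_compact ((test_deriv_continuous f).mul hg) (test_deriv_compact f).mul_right

theorem deriv_add_test (f g : 𝓓(halfLine, ℝ)) (x : ℝ) :
    deriv (f + g : 𝓓(halfLine, ℝ)) x = deriv f x + deriv g x := by
  have : ((f + g : 𝓓(halfLine, ℝ)) : ℝ → ℝ) = (f : ℝ → ℝ) + g := by funext y; rfl
  rw [this, deriv_add ((test_differentiable f) x) ((test_differentiable g) x)]

theorem deriv_smul_test (c : ℝ) (f : 𝓓(halfLine, ℝ)) (x : ℝ) :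
    deriv (c • f : 𝓓(halfLine, ℝ)) x = c * deriv f x := by
  have : ((c • f : 𝓓(halfLine, ℝ)) : ℝ → ℝ) = fun x => c * f x := by
    funext y; rfl
  rw [this, deriv_const_mul _ ((test_differentiable f) x)]

/-- The `L²` pairing on test functions. -/
noncomputable def l2Form : 𝓓(halfLine, ℝ) →ₗ[ℝ] 𝓓(halfLine, ℝ) →ₗ[ℝ] ℝ :=
  LinearMap.mk₂ ℝ (fun f g => ∫ x in Set.Ioi 0, f x * g x)
    (by
      intro f₁ f₂ g
      rw [← integral_add (integrableOn_test (test_continuous g) f₁) (integrableOn_test (test_continuous g) f₂)]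
      congr 1; funext x
      show (f₁ x + f₂ x) * g x = _
      ring)
    (by
      intro c f g
      rw [smul_eq_mul, ← integral_const_mul]
      congr 1; funext x
      show (c * f x) * g x = _
      ring)
    (by
      intro f g₁ g₂
      rw [← integral_add (integrableOn_test (test_continuous g₁) f) (integrableOn_test (test_continuous g₂) f)]
      congr 1; funext x
      show f x * (g₁ x + g₂ x) = _
      ring)
    (by
      intro c f g
      rw [smul_eq_mul, ← integral_const_mul]
      congr 1; funext x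
      show f x * (c * g x) = _
      ring)

theorem l2Form_apply (f g : 𝓓(halfLine, ℝ)) : l2Form f g = ∫ x in Set.Ioi 0, f x * g x := rfl

theorem l2Form_self (f : 𝓓(halfLine, ℝ)) : l2Form f f = mass f := by
  rw [l2Form_apply, mass]
  congr 1; funext x; ring

theorem energy_integrable (f g : 𝓓(halfLine, ℝ)) :
    IntegrableOn (fun x => deriv f x * deriv g x + x * (f x * g x)) (Set.Ioi 0) := by
  apply Integrable.add
  · exact integrableOn_test_deriv (test_deriv_continuous g) f
  · have := integrableOn_test (g := fun x => x * g x) (continuous_id.mul (test_continuous g)) f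
    refine this.congr_fun (fun x _ => ?_) measurableSet_Ioi
    ring

/-- The form of the stochastic Airy operator with noise `c • T` on test functions. -/
noncomputable def airyForm (c : ℝ) (T : 𝓓'(halfLine, ℝ)) : 𝓓(halfLine, ℝ) →ₗ[ℝ] 𝓓(halfLine, ℝ) →ₗ[ℝ] ℝ :=
  LinearMap.mk₂ ℝ (fun f g => (∫ x in Set.Ioi 0, (deriv f x * deriv g x + x * (f x * g x))) + c * T (mulTest f g))
    (by
      intro f₁ f₂ g
      have h1 : mulTest (f₁ + f₂) g = mulTest f₁ g + mulTest f₂ g := by
        ext x
        show (f₁ x + f₂ x) * g x = f₁ x * g x + f₂ x * g x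
        ring
      have h2 : ∫ x in Set.Ioi 0, (deriv (f₁ + f₂ : 𝓓(halfLine, ℝ)) x * deriv g x + x * ((f₁ + f₂ : 𝓓(halfLine, ℝ)) x * g x)) =
          (∫ x in Set.Ioi 0, (deriv f₁ x * deriv g x + x * (f₁ x * g x))) +
          ∫ x in Set.Ioi 0, (deriv f₂ x * deriv g x + x * (f₂ x * g x)) := by
        rw [← integral_add (energy_integrable f₁ g) (energy_integrable f₂ g)]
        congr 1; funext x
        rw [deriv_add_test]
        show _ + x * ((f₁ x + f₂ x) * g x) = _
        ring
      rw [h1, h2, map_add]; ring)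
    (by
      intro a f g
      have h1 : mulTest (a • f) g = a • mulTest f g := by
        ext x
        show (a * f x) * g x = a * (f x * g x)
        ring
      have h2 : ∫ x in Set.Ioi 0, (deriv (a • f : 𝓓(halfLine, ℝ)) x * deriv g x + x * ((a • f : 𝓓(halfLine, ℝ)) x * g x)) =
          a * ∫ x in Set.Ioi 0, (deriv f x * deriv g x + x * (f x * g x)) := by
        rw [← integral_const_mul]
        congr 1; funext x
        rw [deriv_smul_test]
        show _ + x * ((a * f x) * g x) = _
        ring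
      rw [h1, h2, map_smul, smul_eq_mul, smul_eq_mul]; ring)
    (by
      intro f g₁ g₂
      have h1 : mulTest f (g₁ + g₂) = mulTest f g₁ + mulTest f g₂ := by
        ext x
        show f x * (g₁ x + g₂ x) = f x * g₁ x + f x * g₂ x
        ring
      have h2 : ∫ x in Set.Ioi 0, (deriv f x * deriv (g₁ + g₂ : 𝓓(halfLine, ℝ)) x + x * (f x * (g₁ + g₂ : 𝓓(halfLine, ℝ)) x)) =
          (∫ x in Set.Ioi 0, (deriv f x * deriv g₁ x + x * (f x * g₁ x))) +
          ∫ x in Set.Ioi 0, (deriv f x * deriv g₂ x + x * (f x * g₂ x)) := by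
        rw [← integral_add (energy_integrable f g₁) (energy_integrable f g₂)]
        congr 1; funext x
        rw [deriv_add_test]
        show _ + x * (f x * (g₁ x + g₂ x)) = _
        ring
      rw [h1, h2, map_add]; ring)
    (by
      intro a f g
      have h1 : mulTest f (a • g) = a • mulTest f g := by
        ext x
        show f x * (a * g x) = a * (f x * g x)
        ring
      have h2 : ∫ x in Set.Ioi 0, (deriv f x * deriv (a • g : 𝓓(halfLine, ℝ)) x + x * (f x * (a • g : 𝓓(halfLine, ℝ)) x)) =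
          a * ∫ x in Set.Ioi 0, (deriv f x * deriv g x + x * (f x * g x)) := by
        rw [← integral_const_mul]
        congr 1; funext x
        rw [deriv_smul_test]
        show _ + x * (f x * (a * g x)) = _
        ring
      rw [h1, h2, map_smul, smul_eq_mul, smul_eq_mul]; ring)

theorem airyForm_apply (c : ℝ) (T : 𝓓'(halfLine, ℝ)) (f g : 𝓓(halfLine, ℝ)) :
    airyForm c T f g = (∫ x in Set.Ioi 0, (deriv f x * deriv g x + x * (f x * g x))) + c * T (mulTest f g) := rfl

theorem airyForm_self (c : ℝ) (T : 𝓓'(halfLine, ℝ)) (f : 𝓓(halfLine, ℝ)) :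
    airyForm c T f f = energy f + c * T (mulTest f f) := by
  rw [airyForm_apply, energy]
  congr 2; funext x; ring

theorem mulTest_comm (f g : 𝓓(halfLine, ℝ)) : mulTest f g = mulTest g f := by
  ext x; show f x * g x = g x * f x; ring

theorem l2Form_symm (f g : 𝓓(halfLine, ℝ)) : l2Form f g = l2Form g f := by
  rw [l2Form_apply, l2Form_apply]; congr 1; funext x; ring

theorem airyForm_symm (c : ℝ) (T : 𝓓'(halfLine, ℝ)) (f g : 𝓓(halfLine, ℝ)) :
    airyForm c T f g = airyForm c T g f := by
  rw [airyForm_apply, airyForm_apply, mulTest_comm f g]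
  congr 2; funext x; ring

theorem l2Form_pos (f : 𝓓(halfLine, ℝ)) (hf : f ≠ 0) : 0 < l2Form f f := by
  rw [l2Form_self]; exact mass_pos hf

/-- Density of a frame. -/
noncomputable def rho {k : ℕ} (f : Fin k → 𝓓(halfLine, ℝ)) : 𝓓(halfLine, ℝ) := ∑ i, mulTest (f i) (f i)

theorem rho_apply {k : ℕ} (f : Fin k → 𝓓(halfLine, ℝ)) (x : ℝ) : rho f x = ∑ i, (f i x) ^ 2 := by
  unfold rho
  rw [_root_.sum_apply]
  apply Finset.sum_congr rfl
  intro i _
  rw [mulTest_apply]; ring

/-- Total energy of a frame. -/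
noncomputable def totE {k : ℕ} (f : Fin k → 𝓓(halfLine, ℝ)) : ℝ := ∑ i, energy (f i)

theorem totE_nonneg {k : ℕ} (f : Fin k → 𝓓(halfLine, ℝ)) : 0 ≤ totE f :=
  Finset.sum_nonneg (fun i _ => energy_nonneg _)

theorem trace_eq {k : ℕ} (c : ℝ) (T : 𝓓'(halfLine, ℝ)) (f : Fin k → 𝓓(halfLine, ℝ)) :
    ∑ i, airyForm c T (f i) (f i) = totE f + c * T (rho f) := by
  unfold totE rho
  rw [map_sum, Finset.mul_sum, ← Finset.sum_add_distrib]
  apply Finset.sum_congr rfl
  intro i _
  rw [airyForm_self]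

theorem frame_mass {k : ℕ} {f : Fin k → 𝓓(halfLine, ℝ)} (hf : IsFrame l2Form f) (i : Fin k) : mass (f i) = 1 := by
  rw [← l2Form_self, hf, if_pos rfl]

theorem formBound_lower {T : 𝓓'(halfLine, ℝ)} {C : ℝ} (h : FormBound T C) (f : 𝓓(halfLine, ℝ)) :
    -C * l2Form f f ≤ airyForm 2 T f f := by
  rw [airyForm_self, l2Form_self]
  have h1 := (abs_le.mp (h f)).1
  have h2 := energy_nonneg f
  linarith

theorem formBound_frame {T : 𝓓'(halfLine, ℝ)} {C : ℝ} (h : FormBound T C) {k : ℕ}
    {f : Fin k → 𝓓(halfLine, ℝ)} (hf : IsFrame l2Form f) :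
    |2 * T (rho f)| ≤ 1 / 2 * totE f + C * k := by
  unfold rho totE
  rw [map_sum, Finset.mul_sum, Finset.mul_sum]
  refine (Finset.abs_sum_le_sum_abs _ _).trans ?_
  have h1 : ∀ i ∈ (Finset.univ : Finset (Fin k)), |2 * T (mulTest (f i) (f i))| ≤ 1 / 2 * energy (f i) + C := by
    intro i _
    have := h (f i)
    rw [frame_mass hf i, mul_one] at this
    exact this
  refine (Finset.sum_le_sum h1).trans ?_
  rw [Finset.sum_add_distrib, Finset.sum_const, Finset.card_univ, Fintype.card_fin, nsmul_eq_mul]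
  linarith

/-- Sum of the first `k` min–max values (coefficient `2`, i.e. `β = 1`). -/
noncomputable def airySum (T : 𝓓'(halfLine, ℝ)) (k : ℕ) : ℝ := ∑ j : Fin k, minmax l2Form (airyForm 2 T) j

theorem airySum_le {T : 𝓓'(halfLine, ℝ)} {C : ℝ} (h : FormBound T C) {k : ℕ}
    {f : Fin k → 𝓓(halfLine, ℝ)} (hf : IsFrame l2Form f) : airySum T k ≤ totE f + 2 * T (rho f) := by
  rw [← trace_eq]
  exact sum_minmax_le (airyForm_symm 2 T) l2Form_pos C (formBound_lower h) hf

/-- A countable family of frames computing all the sums. -/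
theorem exists_countable_frames (k : ℕ) (g₀ : {f : Fin k → 𝓓(halfLine, ℝ) // IsFrame l2Form f}) :
    ∃ D : Set {f : Fin k → 𝓓(halfLine, ℝ) // IsFrame l2Form f}, D.Countable ∧ D.Nonempty ∧
      ∀ (T : 𝓓'(halfLine, ℝ)) (C : ℝ), FormBound T C →
        (∀ ε : ℝ, 0 < ε → ∃ f ∈ D, totE f.1 + 2 * T (rho f.1) ≤ airySum T k + ε) := by
  obtain ⟨D, hD, happ⟩ := exists_countable_approx (F := {f : Fin k → 𝓓(halfLine, ℝ) // IsFrame l2Form f})
    (fun f => rho f.1) (fun f => totE f.1)
  refine ⟨insert g₀ D, hD.insert g₀, ⟨g₀, Set.mem_insert _ _⟩, ?_⟩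
  intro T C hT ε hε
  obtain ⟨f, hf, hfq⟩ := exists_frame_near l2Form_symm (airyForm_symm 2 T) l2Form_pos g₀.2 (ε / 2) (by positivity)
  rw [trace_eq] at hfq
  obtain ⟨g, hg, h1, h2⟩ := happ ⟨f, hf⟩ T (ε / 8) (by positivity)
  refine ⟨g, Set.mem_insert_of_mem _ hg, ?_⟩
  rw [abs_lt] at h1 h2
  have : airySum T k = ∑ j : Fin k, minmax l2Form (airyForm 2 T) j := rfl
  rw [this]
  simp only at h1 h2
  linarith [h1.2, h2.2]

end Pool.Agent.Helper95
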