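import Mathlib
open MeasureTheory ProbabilityTheory Finset

namespace Pool.Agent.Helper95

/-- Two Gaussian vectors with the same means and the same second moments have the same law. -/
theorem map_eq_of_second_moments {κ Ω Ω' : Type*} [Fintype κ] [MeasurableSpace Ω] [MeasurableSpace Ω']
    {P : Measure Ω} {P' : Measure Ω'} {X : κ → Ω → ℝ} {Y : κ → Ω' → ℝ}
    (hX : HasGaussianLaw (fun ω i => X i ω) P) (hY : HasGaussianLaw (fun ω i => Y i ω) P')
    (hm : ∀ i, ∫ ω, X i ω ∂P = ∫ ω, Y i ω ∂P')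
    (hc : ∀ i j, ∫ ω, X i ω * X j ω ∂P = ∫ ω, Y i ω * Y j ω ∂P') :
    P.map (fun ω i => X i ω) = P'.map (fun ω i => Y i ω) := by
  have hP := hX.isProbabilityMeasure
  have hP' := hY.isProbabilityMeasure
  have := Measure.isFiniteMeasure_map P (fun ω i => X i ω)
  have := Measure.isFiniteMeasure_map P' (fun ω i => Y i ω)
  have hX2 : ∀ i, MemLp (X i) 2 P := fun i => (hX.eval i).memLp_two
  have hY2 : ∀ i, MemLp (Y i) 2 P' := fun i => (hY.eval i).memLp_two
  apply Measure.ext_of_charFunDual
  ext L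
  rw [hX.charFunDual_map_eq_fun, hY.charFunDual_map_eq_fun]
  classical
  have hLX : ∀ ω, L (fun i => X i ω) = ∑ i, L (Pi.single i 1) * X i ω := by
    intro ω
    conv_lhs => rw [pi_eq_sum_univ' (fun i => X i ω)]
    rw [map_sum]
    apply Finset.sum_congr rfl
    intro i _
    rw [map_smul, smul_eq_mul, mul_comm]
  have hLY : ∀ ω, L (fun i => Y i ω) = ∑ i, L (Pi.single i 1) * Y i ω := by
    intro ω
    conv_lhs => rw [pi_eq_sum_univ' (fun i => Y i ω)]
    rw [map_sum]
    apply Finset.sum_congr rfl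
    intro i _
    rw [map_smul, smul_eq_mul, mul_comm]
  have hmean : ∫ ω, L (fun i => X i ω) ∂P = ∫ ω, L (fun i => Y i ω) ∂P' := by
    simp_rw [hLX, hLY]
    rw [integral_finsetSum _ (fun i _ => ((hX2 i).integrable one_le_two).const_mul _),
      integral_finsetSum _ (fun i _ => ((hY2 i).integrable one_le_two).const_mul _)]
    apply Finset.sum_congr rfl
    intro i _
    rw [integral_const_mul, integral_const_mul, hm]
  have hXm : MemLp (fun ω => L (fun i => X i ω)) 2 P := by
    have : MemLp (fun ω => ∑ i, L (Pi.single i 1) * X i ω) 2 P :=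
      memLp_finsetSum _ (fun i _ => (hX2 i).const_mul _)
    exact this.congr_norm (hX.map_fun L).aemeasurable.aestronglyMeasurable
      (Filter.Eventually.of_forall (fun ω => by rw [hLX]))
  have hYm : MemLp (fun ω => L (fun i => Y i ω)) 2 P' := by
    have : MemLp (fun ω => ∑ i, L (Pi.single i 1) * Y i ω) 2 P' :=
      memLp_finsetSum _ (fun i _ => (hY2 i).const_mul _)
    exact this.congr_norm (hY.map_fun L).aemeasurable.aestronglyMeasurable
      (Filter.Eventually.of_forall (fun ω => by rw [hLY]))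
  have hvar : Var[fun ω => L (fun i => X i ω); P] = Var[fun ω => L (fun i => Y i ω); P'] := by
    rw [variance_eq_sub hXm, variance_eq_sub hYm]
    congr 1
    · simp only [Pi.pow_apply]
      have e1 : ∀ ω, (L (fun i => X i ω)) ^ 2 = ∑ i, ∑ j, L (Pi.single i 1) * L (Pi.single j 1) * (X i ω * X j ω) := by
        intro ω
        rw [hLX, pow_two, Finset.sum_mul_sum]
        apply Finset.sum_congr rfl; intro i _
        apply Finset.sum_congr rfl; intro j _
        ring
      have e2 : ∀ ω, (L (fun i => Y i ω)) ^ 2 = ∑ i, ∑ j, L (Pi.single i 1) * L (Pi.single j 1) * (Y i ω * Y j ω) := by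
        intro ω
        rw [hLY, pow_two, Finset.sum_mul_sum]
        apply Finset.sum_congr rfl; intro i _
        apply Finset.sum_congr rfl; intro j _
        ring
      simp_rw [e1, e2]
      have iX : ∀ i j, Integrable (fun ω => L (Pi.single i 1) * L (Pi.single j 1) * (X i ω * X j ω)) P :=
        fun i j => ((hX2 i).integrable_mul (hX2 j)).const_mul _
      have iY : ∀ i j, Integrable (fun ω => L (Pi.single i 1) * L (Pi.single j 1) * (Y i ω * Y j ω)) P' :=
        fun i j => ((hY2 i).integrable_mul (hY2 j)).const_mul _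
      rw [integral_finsetSum _ (fun i _ => integrable_finsetSum _ (fun j _ => iX i j)),
        integral_finsetSum _ (fun i _ => integrable_finsetSum _ (fun j _ => iY i j))]
      apply Finset.sum_congr rfl; intro i _
      rw [integral_finsetSum _ (fun j _ => iX i j), integral_finsetSum _ (fun j _ => iY i j)]
      apply Finset.sum_congr rfl; intro j _
      rw [integral_const_mul, integral_const_mul, hc]
    · rw [hmean]
  rw [hmean, hvar]

/-- Two independent copies of a centred Gaussian vector, given through their second moments. -/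
structure GaussPair {ι Ω : Type*} [Fintype ι] [MeasurableSpace Ω] (P : Measure Ω)
    (U V : ι → Ω → ℝ) (C : ι → ι → ℝ) : Prop where
  gauss : HasGaussianLaw (fun ω (p : ι ⊕ ι) => Sum.elim (fun i => U i ω) (fun i => V i ω) p) P
  meanU : ∀ i, ∫ ω, U i ω ∂P = 0
  meanV : ∀ i, ∫ ω, V i ω ∂P = 0
  covUU : ∀ i j, ∫ ω, U i ω * U j ω ∂P = C i j
  covVV : ∀ i j, ∫ ω, V i ω * V j ω ∂P = C i j
  covUV : ∀ i j, ∫ ω, U i ω * V j ω ∂P = 0

/-- Rotation of the pair. -/
noncomputable def rot {ι Ω : Type*} (U V : ι → Ω → ℝ) (φ : ℝ) (i : ι) (ω : Ω) : ℝ :=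
  Real.cos φ * U i ω + Real.sin φ * V i ω

section GaussPair
variable {ι Ω : Type*} [Fintype ι] [MeasurableSpace Ω] {P : Measure Ω}
    {U V : ι → Ω → ℝ} {C : ι → ι → ℝ}

theorem GaussPair.hU (h : GaussPair P U V C) (i : ι) : HasGaussianLaw (U i) P := by
  have := h.gauss.map_fun (ContinuousLinearMap.proj (R := ℝ) (φ := fun _ : ι ⊕ ι => ℝ) (Sum.inl i))
  simpa using this

theorem GaussPair.hV (h : GaussPair P U V C) (i : ι) : HasGaussianLaw (V i) P := by
  have := h.gauss.map_fun (ContinuousLinearMap.proj (R := ℝ) (φ := fun _ : ι ⊕ ι => ℝ) (Sum.inr i))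
  simpa using this

theorem GaussPair.memLpU (h : GaussPair P U V C) (i : ι) : MemLp (U i) 2 P := (h.hU i).memLp_two
theorem GaussPair.memLpV (h : GaussPair P U V C) (i : ι) : MemLp (V i) 2 P := (h.hV i).memLp_two

theorem GaussPair.mean_rot (h : GaussPair P U V C) (φ : ℝ) (i : ι) :
    ∫ ω, rot U V φ i ω ∂P = 0 := by
  have hP := h.gauss.isProbabilityMeasure
  unfold rot
  rw [integral_add (((h.memLpU i).integrable one_le_two).const_mul _)
    (((h.memLpV i).integrable one_le_two).const_mul _), integral_const_mul, integral_const_mul,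
    h.meanU, h.meanV]
  ring

theorem GaussPair.cov_rot (h : GaussPair P U V C) (φ ψ : ℝ) (i j : ι) :
    ∫ ω, rot U V φ i ω * rot U V ψ j ω ∂P = Real.cos (φ - ψ) * C i j := by
  have hP := h.gauss.isProbabilityMeasure
  have e : ∀ ω, rot U V φ i ω * rot U V ψ j ω =
      Real.cos φ * Real.cos ψ * (U i ω * U j ω) + Real.cos φ * Real.sin ψ * (U i ω * V j ω) +
      Real.sin φ * Real.cos ψ * (U j ω * V i ω) + Real.sin φ * Real.sin ψ * (V i ω * V j ω) := by
    intro ω; unfold rot; ring
  simp_rw [e]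
  have i1 : Integrable (fun ω => Real.cos φ * Real.cos ψ * (U i ω * U j ω)) P :=
    ((h.memLpU i).integrable_mul (h.memLpU j)).const_mul _
  have i2 : Integrable (fun ω => Real.cos φ * Real.sin ψ * (U i ω * V j ω)) P :=
    ((h.memLpU i).integrable_mul (h.memLpV j)).const_mul _
  have i3 : Integrable (fun ω => Real.sin φ * Real.cos ψ * (U j ω * V i ω)) P :=
    ((h.memLpU j).integrable_mul (h.memLpV i)).const_mul _
  have i4 : Integrable (fun ω => Real.sin φ * Real.sin ψ * (V i ω * V j ω)) P :=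
    ((h.memLpV i).integrable_mul (h.memLpV j)).const_mul _
  have i12 : Integrable (fun ω => Real.cos φ * Real.cos ψ * (U i ω * U j ω) +
      Real.cos φ * Real.sin ψ * (U i ω * V j ω)) P := i1.add i2
  have i123 : Integrable (fun ω => Real.cos φ * Real.cos ψ * (U i ω * U j ω) +
      Real.cos φ * Real.sin ψ * (U i ω * V j ω) + Real.sin φ * Real.cos ψ * (U j ω * V i ω)) P :=
    i12.add i3
  rw [integral_add i123 i4, integral_add i12 i3, integral_add i1 i2,
    integral_const_mul, integral_const_mul, integral_const_mul, integral_const_mul,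
    h.covUU, h.covUV, h.covUV, h.covVV, Real.cos_sub]
  ring

theorem GaussPair.gauss_rot (h : GaussPair P U V C) (φ ψ : ℝ) :
    HasGaussianLaw (fun ω (p : ι ⊕ ι) =>
      Sum.elim (fun i => rot U V φ i ω) (fun i => rot U V ψ i ω) p) P := by
  set L : (ι ⊕ ι → ℝ) →L[ℝ] (ι ⊕ ι → ℝ) :=
    ContinuousLinearMap.pi (fun p => Sum.elim
      (fun i => Real.cos φ • ContinuousLinearMap.proj (R := ℝ) (φ := fun _ : ι ⊕ ι => ℝ) (Sum.inl i) +
        Real.sin φ • ContinuousLinearMap.proj (R := ℝ) (φ := fun _ : ι ⊕ ι => ℝ) (Sum.inr i))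
      (fun i => Real.cos ψ • ContinuousLinearMap.proj (R := ℝ) (φ := fun _ : ι ⊕ ι => ℝ) (Sum.inl i) +
        Real.sin ψ • ContinuousLinearMap.proj (R := ℝ) (φ := fun _ : ι ⊕ ι => ℝ) (Sum.inr i)) p) with hL
  have := h.gauss.map_fun L
  refine this.congr (Filter.Eventually.of_forall (fun ω => ?_))
  funext p
  rcases p with i | i <;> simp [hL, rot]

/-- The law of the pair (`rot φ`, `rot ψ`) depends only on `cos (φ - ψ)`. -/
theorem GaussPair.law_rot (h : GaussPair P U V C) (φ ψ φ' ψ' : ℝ)
    (hc : Real.cos (φ - ψ) = Real.cos (φ' - ψ')) :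
    P.map (fun ω (p : ι ⊕ ι) => Sum.elim (fun i => rot U V φ i ω) (fun i => rot U V ψ i ω) p) =
    P.map (fun ω (p : ι ⊕ ι) => Sum.elim (fun i => rot U V φ' i ω) (fun i => rot U V ψ' i ω) p) := by
  set X : ι ⊕ ι → Ω → ℝ := fun p ω => Sum.elim (fun i => rot U V φ i ω) (fun i => rot U V ψ i ω) p with hX
  set Y : ι ⊕ ι → Ω → ℝ := fun p ω => Sum.elim (fun i => rot U V φ' i ω) (fun i => rot U V ψ' i ω) p with hY
  apply map_eq_of_second_moments (X := X) (Y := Y) (h.gauss_rot φ ψ) (h.gauss_rot φ' ψ')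
  · intro p
    rcases p with i | i <;> simp only [hX, hY, Sum.elim_inl, Sum.elim_inr, h.mean_rot]
  · intro p q
    rcases p with i | i <;> rcases q with j | j <;>
      simp only [hX, hY, Sum.elim_inl, Sum.elim_inr, h.cov_rot, sub_self]
    · rw [hc]
    · have e1 : Real.cos (ψ - φ) = Real.cos (ψ' - φ') := by
        rw [← Real.cos_neg, neg_sub, hc, ← Real.cos_neg, neg_sub]
      rw [e1]

end GaussPair

section MaxBound

/-- Maximum of finitely many reals. -/
noncomputable def fmax {N : ℕ} (x : Fin (N + 1) → ℝ) : ℝ := Finset.univ.sup' Finset.univ_nonempty x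

theorem le_fmax {N : ℕ} (x : Fin (N + 1) → ℝ) (i : Fin (N + 1)) : x i ≤ fmax x :=
  Finset.le_sup' x (Finset.mem_univ i)

theorem exists_eq_fmax {N : ℕ} (x : Fin (N + 1) → ℝ) : ∃ i, fmax x = x i := by
  obtain ⟨i, _, hi⟩ := Finset.exists_mem_eq_sup' Finset.univ_nonempty x
  exact ⟨i, hi⟩

theorem continuous_fmax {N : ℕ} : Continuous (fmax (N := N)) := by
  unfold fmax
  exact Continuous.finset_sup'_apply _ (fun i _ => continuous_apply i)

theorem abs_fmax_le {N : ℕ} (x : Fin (N + 1) → ℝ) : |fmax x| ≤ ∑ i, |x i| := by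
  obtain ⟨i, hi⟩ := exists_eq_fmax x
  rw [hi]
  exact Finset.single_le_sum (f := fun i => |x i|) (fun j _ => abs_nonneg _) (Finset.mem_univ i)

variable {N : ℕ} {Ω : Type*} [MeasurableSpace Ω] {P : Measure Ω}
    {U V : Fin (N + 1) → Ω → ℝ} {C : Fin (N + 1) → Fin (N + 1) → ℝ}

theorem GaussPair.aem_rot (h : GaussPair P U V C) (φ : ℝ) :
    AEMeasurable (fun ω i => rot U V φ i ω) P := by
  apply aemeasurable_pi_lambda
  intro i
  exact ((h.hU i).aemeasurable.const_mul _).add ((h.hV i).aemeasurable.const_mul _)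

theorem GaussPair.memLp_rot (h : GaussPair P U V C) (φ : ℝ) (i : Fin (N + 1)) :
    MemLp (fun ω => rot U V φ i ω) 2 P :=
  ((h.memLpU i).const_mul _).add ((h.memLpV i).const_mul _)

theorem GaussPair.memLp_fmax (h : GaussPair P U V C) (φ : ℝ) :
    MemLp (fun ω => fmax (fun i => rot U V φ i ω)) 2 P := by
  have h1 : MemLp (fun ω => ∑ i, |rot U V φ i ω|) 2 P :=
    memLp_finsetSum _ (fun i _ => (h.memLp_rot φ i).abs)
  refine h1.mono (continuous_fmax.measurable.comp_aemeasurable (h.aem_rot φ)).aestronglyMeasurable ?_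
  refine Filter.Eventually.of_forall (fun ω => ?_)
  rw [Real.norm_eq_abs, Real.norm_eq_abs]
  exact (abs_fmax_le _).trans (le_abs_self _)

theorem GaussPair.indep (h : GaussPair P U V C) :
    IndepFun (fun ω i => U i ω) (fun ω i => V i ω) P := by
  have hP := h.gauss.isProbabilityMeasure
  apply HasGaussianLaw.indepFun_of_covariance_eval
  · set L : (Fin (N + 1) ⊕ Fin (N + 1) → ℝ) →L[ℝ] (Fin (N + 1) → ℝ) × (Fin (N + 1) → ℝ) :=
      (ContinuousLinearMap.pi (fun i => ContinuousLinearMap.proj (R := ℝ)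
        (φ := fun _ : Fin (N + 1) ⊕ Fin (N + 1) => ℝ) (Sum.inl i))).prod
      (ContinuousLinearMap.pi (fun i => ContinuousLinearMap.proj (R := ℝ)
        (φ := fun _ : Fin (N + 1) ⊕ Fin (N + 1) => ℝ) (Sum.inr i))) with hL
    have := h.gauss.map_fun L
    refine this.congr (Filter.Eventually.of_forall (fun ω => ?_))
    simp only [hL, ContinuousLinearMap.prod_apply]
    rfl
  · intro i j
    rw [covariance_eq_sub (h.memLpU i) (h.memLpV j), h.meanU, h.meanV]
    have := h.covUV i j
    simp only [Pi.mul_apply] at *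
    rw [this]; ring

/-- Lower half of the increment of the maximum. -/
theorem GaussPair.neg_part (h : GaussPair P U V C) (v : ℝ) (hv : ∀ i, C i i ≤ v) (δ : ℝ) :
    ∫ ω, (max (fmax (fun i => rot U V 0 i ω) - fmax (fun i => rot U V δ i ω)) 0) ^ 2 ∂P ≤
      2 * (1 - Real.cos δ) ^ 2 * ∫ ω, (fmax (fun i => rot U V 0 i ω)) ^ 2 ∂P +
        2 * Real.sin δ ^ 2 * v := by
  classical
  have hP := h.gauss.isProbabilityMeasure
  have hrot0 : ∀ i ω, rot U V 0 i ω = U i ω := by intro i ω; simp [rot]
  -- partition according to the first maximiser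
  set A : Fin (N + 1) → Set (Fin (N + 1) → ℝ) := fun m => {x | fmax x = x m ∧ ∀ l < m, x l < fmax x} with hA
  have hAm : ∀ m, MeasurableSet (A m) := by
    intro m
    have e : A m = {x | fmax x = x m} ∩ ⋂ l ∈ (Finset.univ.filter (fun l => l < m)), {x | x l < fmax x} := by
      ext x; simp [hA]
    rw [e]
    apply MeasurableSet.inter
    · exact measurableSet_eq_fun continuous_fmax.measurable (measurable_pi_apply m)
    · apply Finset.measurableSet_biInter
      intro l _
      exact measurableSet_lt (measurable_pi_apply l) continuous_fmax.measurable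
  have hcover : ∀ x, ∃ m, x ∈ A m := by
    intro x
    obtain ⟨i, hi⟩ := exists_eq_fmax x
    have hne : (Finset.univ.filter (fun j => fmax x = x j)).Nonempty := ⟨i, by simp [hi]⟩
    set m := (Finset.univ.filter (fun j => fmax x = x j)).min' hne with hm
    refine ⟨m, ?_, ?_⟩
    · have := Finset.min'_mem _ hne
      exact (Finset.mem_filter.mp this).2
    · intro l hl
      refine lt_of_le_of_ne (le_fmax x l) ?_
      intro hcon
      have : m ≤ l := Finset.min'_le _ _ (by simp [hcon])
      exact absurd hl (not_lt.mpr this)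
  -- pointwise bound
  have hpt : ∀ ω, (max (fmax (fun i => rot U V 0 i ω) - fmax (fun i => rot U V δ i ω)) 0) ^ 2 ≤
      2 * (1 - Real.cos δ) ^ 2 * (fmax (fun i => rot U V 0 i ω)) ^ 2 +
      2 * Real.sin δ ^ 2 * ∑ m, (Set.indicator (A m) (fun _ => (1 : ℝ)) (fun i => U i ω)) * (V m ω) ^ 2 := by
    intro ω
    have e0 : (fun i => rot U V 0 i ω) = fun i => U i ω := by funext i; exact hrot0 i ω
    rw [e0]
    obtain ⟨m, hm⟩ := hcover (fun i => U i ω)
    have hsum : (V m ω) ^ 2 ≤ ∑ m, (Set.indicator (A m) (fun _ => (1 : ℝ)) (fun i => U i ω)) * (V m ω) ^ 2 := by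
      have h1 : (V m ω) ^ 2 = (Set.indicator (A m) (fun _ => (1 : ℝ)) (fun i => U i ω)) * (V m ω) ^ 2 := by
        rw [Set.indicator_of_mem hm, one_mul]
      conv_lhs => rw [h1]
      apply Finset.single_le_sum (f := fun m => (Set.indicator (A m) (fun _ => (1 : ℝ)) (fun i => U i ω)) * (V m ω) ^ 2)
      · intro j _
        apply mul_nonneg _ (sq_nonneg _)
        apply Set.indicator_nonneg
        intro _ _; norm_num
      · exact Finset.mem_univ m
    have hm1 : fmax (fun i => U i ω) = U m ω := hm.1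
    have h2 : rot U V δ m ω ≤ fmax (fun i => rot U V δ i ω) := le_fmax (fun i => rot U V δ i ω) m
    have h3 : fmax (fun i => U i ω) - fmax (fun i => rot U V δ i ω) ≤
        (1 - Real.cos δ) * fmax (fun i => U i ω) - Real.sin δ * V m ω := by
      have : rot U V δ m ω = Real.cos δ * U m ω + Real.sin δ * V m ω := rfl
      rw [hm1]
      linarith
    set a := (1 - Real.cos δ) * fmax (fun i => U i ω) with ha
    set b := Real.sin δ * V m ω with hb
    have h4 : (max (fmax (fun i => U i ω) - fmax (fun i => rot U V δ i ω)) 0) ^ 2 ≤ (a - b) ^ 2 := by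
      have h5 : max (fmax (fun i => U i ω) - fmax (fun i => rot U V δ i ω)) 0 ≤ |a - b| :=
        max_le (h3.trans (le_abs_self _)) (abs_nonneg _)
      calc _ ≤ |a - b| ^ 2 := pow_le_pow_left₀ (le_max_right _ _) h5 2
        _ = (a - b) ^ 2 := sq_abs _
    have h6 : (a - b) ^ 2 ≤ 2 * a ^ 2 + 2 * b ^ 2 := by nlinarith [sq_nonneg (a + b)]
    have h7 : 2 * a ^ 2 = 2 * (1 - Real.cos δ) ^ 2 * (fmax (fun i => U i ω)) ^ 2 := by rw [ha]; ring
    have h8 : 2 * b ^ 2 = 2 * Real.sin δ ^ 2 * (V m ω) ^ 2 := by rw [hb]; ring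
    have h9 : 2 * Real.sin δ ^ 2 * (V m ω) ^ 2 ≤ 2 * Real.sin δ ^ 2 *
      ∑ m, (Set.indicator (A m) (fun _ => (1 : ℝ)) (fun i => U i ω)) * (V m ω) ^ 2 :=
      mul_le_mul_of_nonneg_left hsum (by positivity)
    linarith
  have hUm : AEMeasurable (fun ω i => U i ω) P := aemeasurable_pi_lambda _ (fun i => (h.hU i).aemeasurable)
  have hVm : AEMeasurable (fun ω i => V i ω) P := aemeasurable_pi_lambda _ (fun i => (h.hV i).aemeasurable)
  have hindm : ∀ m, Measurable (Set.indicator (A m) (fun _ : Fin (N + 1) → ℝ => (1 : ℝ))) := fun m =>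
    measurable_const.indicator (hAm m)
  have hprod : ∀ m, ∫ ω, (Set.indicator (A m) (fun _ => (1 : ℝ)) (fun i => U i ω)) * (V m ω) ^ 2 ∂P =
      (∫ ω, Set.indicator (A m) (fun _ => (1 : ℝ)) (fun i => U i ω) ∂P) * C m m := by
    intro m
    have hi := h.indep.comp (hindm m) ((measurable_pi_apply m).pow_const 2)
    have := hi.integral_fun_mul_eq_mul_integral
      ((hindm m).comp_aemeasurable hUm).aestronglyMeasurable
      ((((measurable_pi_apply m).pow_const 2).comp_aemeasurable hVm).aestronglyMeasurable)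
    simp only [Function.comp_def] at this
    rw [this]
    congr 1
    rw [← h.covVV m m]
    congr 1
    funext ω; ring
  have hint : ∀ m, Integrable (fun ω => (Set.indicator (A m) (fun _ => (1 : ℝ)) (fun i => U i ω)) * (V m ω) ^ 2) P := by
    intro m
    have h1 : Integrable (fun ω => (V m ω) ^ 2) P := (h.memLpV m).integrable_sq
    refine h1.mono' ?_ ?_
    · exact ((hindm m).comp_aemeasurable hUm).aestronglyMeasurable.mul h1.aestronglyMeasurable
    · refine Filter.Eventually.of_forall (fun ω => ?_)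
      rw [Real.norm_eq_abs, abs_mul, abs_of_nonneg (sq_nonneg (V m ω))]
      have : |Set.indicator (A m) (fun _ => (1 : ℝ)) (fun i => U i ω)| ≤ 1 := by
        by_cases hx : (fun i => U i ω) ∈ A m
        · rw [Set.indicator_of_mem hx]; norm_num
        · rw [Set.indicator_of_notMem hx]; norm_num
      exact mul_le_of_le_one_left (sq_nonneg _) this
  have hF2 : Integrable (fun ω => (fmax (fun i => rot U V 0 i ω)) ^ 2) P := (h.memLp_fmax 0).integrable_sq
  -- the indicators sum to 1
  have hsum1 : ∑ m, ∫ ω, Set.indicator (A m) (fun _ => (1 : ℝ)) (fun i => U i ω) ∂P = 1 := by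
    have hi : ∀ m, Integrable (fun ω => Set.indicator (A m) (fun _ => (1 : ℝ)) (fun i => U i ω)) P := by
      intro m
      refine (integrable_const (1 : ℝ)).mono' ((hindm m).comp_aemeasurable hUm).aestronglyMeasurable ?_
      refine Filter.Eventually.of_forall (fun ω => ?_)
      by_cases hx : (fun i => U i ω) ∈ A m
      · rw [Set.indicator_of_mem hx]; norm_num
      · rw [Set.indicator_of_notMem hx]; norm_num
    rw [← integral_finsetSum _ (fun m _ => hi m)]
    have : ∀ ω, ∑ m, Set.indicator (A m) (fun _ => (1 : ℝ)) (fun i => U i ω) = 1 := by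
      intro ω
      obtain ⟨m, hm⟩ := hcover (fun i => U i ω)
      rw [Finset.sum_eq_single m]
      · exact Set.indicator_of_mem hm _
      · intro j _ hj
        apply Set.indicator_of_notMem
        intro hj2
        rcases lt_or_gt_of_ne hj with hlt | hlt
        · have := hm.2 j hlt
          rw [hj2.1] at this
          exact lt_irrefl _ this
        · have := hj2.2 m hlt
          rw [hm.1] at this
          exact lt_irrefl _ this
      · intro hh; exact absurd (Finset.mem_univ m) hh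
    simp_rw [this]
    simp
  have hsumint : Integrable (fun ω => ∑ m, (Set.indicator (A m) (fun _ => (1 : ℝ)) (fun i => U i ω)) * (V m ω) ^ 2) P :=
    integrable_finsetSum _ (fun m _ => hint m)
  calc ∫ ω, (max (fmax (fun i => rot U V 0 i ω) - fmax (fun i => rot U V δ i ω)) 0) ^ 2 ∂P
      ≤ ∫ ω, (2 * (1 - Real.cos δ) ^ 2 * (fmax (fun i => rot U V 0 i ω)) ^ 2 +
      2 * Real.sin δ ^ 2 * ∑ m, (Set.indicator (A m) (fun _ => (1 : ℝ)) (fun i => U i ω)) * (V m ω) ^ 2) ∂P := by
        apply integral_mono_of_nonneg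
        · exact Filter.Eventually.of_forall (fun ω => sq_nonneg _)
        · exact (hF2.const_mul _).add (hsumint.const_mul _)
        · exact Filter.Eventually.of_forall hpt
    _ = 2 * (1 - Real.cos δ) ^ 2 * ∫ ω, (fmax (fun i => rot U V 0 i ω)) ^ 2 ∂P +
        2 * Real.sin δ ^ 2 * ∑ m, (∫ ω, Set.indicator (A m) (fun _ => (1 : ℝ)) (fun i => U i ω) ∂P) * C m m := by
        rw [integral_add (hF2.const_mul _) (hsumint.const_mul _), integral_const_mul, integral_const_mul,
          integral_finsetSum _ (fun m _ => hint m)]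
        congr 2
        exact Finset.sum_congr rfl (fun m _ => hprod m)
    _ ≤ _ := by
        have h1 : ∑ m, (∫ ω, Set.indicator (A m) (fun _ => (1 : ℝ)) (fun i => U i ω) ∂P) * C m m ≤ v := by
          calc ∑ m, (∫ ω, Set.indicator (A m) (fun _ => (1 : ℝ)) (fun i => U i ω) ∂P) * C m m
              ≤ ∑ m, (∫ ω, Set.indicator (A m) (fun _ => (1 : ℝ)) (fun i => U i ω) ∂P) * v := by
                apply Finset.sum_le_sum
                intro m _
                apply mul_le_mul_of_nonneg_left (hv m)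
                apply integral_nonneg
                intro ω
                apply Set.indicator_nonneg
                intro _ _; norm_num
            _ = v := by rw [← Finset.sum_mul, hsum1, one_mul]
        have h2 : 2 * Real.sin δ ^ 2 * ∑ m, (∫ ω, Set.indicator (A m) (fun _ => (1 : ℝ)) (fun i => U i ω) ∂P) * C m m
          ≤ 2 * Real.sin δ ^ 2 * v := mul_le_mul_of_nonneg_left h1 (by positivity)
        linarith

/-- Increment bound for a small rotation. -/
theorem GaussPair.step (h : GaussPair P U V C) (v : ℝ) (hv : ∀ i, C i i ≤ v) (φ δ : ℝ) :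
    ∫ ω, (fmax (fun i => rot U V (φ + δ) i ω) - fmax (fun i => rot U V φ i ω)) ^ 2 ∂P ≤
      4 * (1 - Real.cos δ) ^ 2 * ∫ ω, (fmax (fun i => rot U V 0 i ω)) ^ 2 ∂P +
        4 * Real.sin δ ^ 2 * v := by
  have hP := h.gauss.isProbabilityMeasure
  set g : (Fin (N + 1) ⊕ Fin (N + 1) → ℝ) → ℝ := fun z =>
    (max (fmax (fun i => z (Sum.inl i)) - fmax (fun i => z (Sum.inr i))) 0) ^ 2 with hg
  have hgm : Measurable g := by
    have c1 : Continuous (fun z : Fin (N + 1) ⊕ Fin (N + 1) → ℝ => fmax (fun i => z (Sum.inl i))) :=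
      continuous_fmax.comp (by fun_prop)
    have c2 : Continuous (fun z : Fin (N + 1) ⊕ Fin (N + 1) → ℝ => fmax (fun i => z (Sum.inr i))) :=
      continuous_fmax.comp (by fun_prop)
    exact (((c1.sub c2).max continuous_const).pow 2).measurable
  have hlaw : ∀ φ ψ φ' ψ' : ℝ, Real.cos (φ - ψ) = Real.cos (φ' - ψ') →
      ∫ ω, (max (fmax (fun i => rot U V φ i ω) - fmax (fun i => rot U V ψ i ω)) 0) ^ 2 ∂P =
      ∫ ω, (max (fmax (fun i => rot U V φ' i ω) - fmax (fun i => rot U V ψ' i ω)) 0) ^ 2 ∂P := by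
    intro φ ψ φ' ψ' hc
    have h1 := h.law_rot φ ψ φ' ψ' hc
    have h2 := congrArg (fun μ : Measure (Fin (N + 1) ⊕ Fin (N + 1) → ℝ) => ∫ z, g z ∂μ) h1
    beta_reduce at h2
    rw [integral_map (h.gauss_rot φ ψ).aemeasurable hgm.aestronglyMeasurable,
      integral_map (h.gauss_rot φ' ψ').aemeasurable hgm.aestronglyMeasurable] at h2
    simpa [hg] using h2
  have m1 := h.memLp_fmax (φ + δ)
  have m2 := h.memLp_fmax φ
  have hdecomp : ∀ a b : ℝ, (a - b) ^ 2 = (max (a - b) 0) ^ 2 + (max (b - a) 0) ^ 2 := by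
    intro a b
    rcases le_total a b with hab | hab
    · rw [max_eq_right (by linarith), max_eq_left (by linarith)]; ring
    · rw [max_eq_left (by linarith), max_eq_right (by linarith)]; ring
  have hdec2 : (fun ω => (fmax (fun i => rot U V (φ + δ) i ω) - fmax (fun i => rot U V φ i ω)) ^ 2) =
      fun ω => (max (fmax (fun i => rot U V (φ + δ) i ω) - fmax (fun i => rot U V φ i ω)) 0) ^ 2 +
        (max (fmax (fun i => rot U V φ i ω) - fmax (fun i => rot U V (φ + δ) i ω)) 0) ^ 2 :=
    funext (fun ω => hdecomp _ _)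
  rw [hdec2]
  have mm : ∀ a b : Ω → ℝ, MemLp a 2 P → MemLp b 2 P → Integrable (fun ω => (max (a ω - b ω) 0) ^ 2) P := by
    intro a b ha hb
    have h1 : MemLp (fun ω => max (a ω - b ω) 0) 2 P := by
      have h2 : MemLp (fun ω => a ω - b ω) 2 P := ha.sub hb
      refine h2.mono ?_ ?_
      · exact h2.aestronglyMeasurable.sup aestronglyMeasurable_const
      · refine Filter.Eventually.of_forall (fun ω => ?_)
        rw [Real.norm_eq_abs, Real.norm_eq_abs, abs_of_nonneg (le_max_right _ _)]
        exact max_le (le_abs_self _) (abs_nonneg _)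
    exact h1.integrable_sq
  rw [integral_add (mm _ _ m1 m2) (mm _ _ m2 m1)]
  have e1 := hlaw (φ + δ) φ 0 δ (by rw [← Real.cos_neg]; congr 1; ring)
  have e2 := hlaw φ (φ + δ) 0 δ (by congr 1; ring)
  rw [e1, e2]
  have := h.neg_part v hv δ
  linarith

/-- Rotation bound for the maximum of a finite centred Gaussian family. -/
theorem GaussPair.rotation_bound (h : GaussPair P U V C) (v : ℝ) (hv : ∀ i, C i i ≤ v) (θ : ℝ) :
    ∫ ω, (fmax (fun i => rot U V θ i ω) - fmax (fun i => rot U V 0 i ω)) ^ 2 ∂P ≤ 4 * θ ^ 2 * v := by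
  have hP := h.gauss.isProbabilityMeasure
  have hv0 : 0 ≤ v := by
    refine le_trans ?_ (hv 0)
    rw [← h.covUU 0 0]
    apply integral_nonneg
    intro ω; exact mul_self_nonneg _
  set B : ℝ := ∫ ω, (fmax (fun i => rot U V 0 i ω)) ^ 2 ∂P with hB
  have hB0 : 0 ≤ B := integral_nonneg (fun ω => sq_nonneg _)
  set G : ℝ → Ω → ℝ := fun φ ω => fmax (fun i => rot U V φ i ω) with hG
  have key : ∀ n : ℕ, 0 < n → ∫ ω, (G θ ω - G 0 ω) ^ 2 ∂P ≤ 4 * θ ^ 2 * v + θ ^ 4 * B / n ^ 2 := by
    intro n hn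
    have hn' : (0 : ℝ) < n := by exact_mod_cast hn
    set δ : ℝ := θ / n with hδ
    have hnδ : (n : ℝ) * δ = θ := by rw [hδ]; field_simp
    have htel : ∀ ω, G θ ω - G 0 ω = ∑ j ∈ Finset.range n, (G (j * δ + δ) ω - G (j * δ) ω) := by
      intro ω
      have h1 := Finset.sum_range_sub (fun j : ℕ => G (j * δ) ω) n
      rw [hnδ] at h1
      simp only [Nat.cast_zero, zero_mul] at h1
      rw [← h1]
      apply Finset.sum_congr rfl
      intro j _
      have : ((j + 1 : ℕ) : ℝ) * δ = j * δ + δ := by push_cast; ring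
      rw [this]
    have hsq : ∀ ω, (G θ ω - G 0 ω) ^ 2 ≤ n * ∑ j ∈ Finset.range n, (G (j * δ + δ) ω - G (j * δ) ω) ^ 2 := by
      intro ω
      rw [htel ω]
      have := sq_sum_le_card_mul_sum_sq (s := Finset.range n) (f := fun j => G (j * δ + δ) ω - G (j * δ) ω)
      simpa using this
    have hint : ∀ j : ℕ, Integrable (fun ω => (G (j * δ + δ) ω - G (j * δ) ω) ^ 2) P := fun j =>
      ((h.memLp_fmax _).sub (h.memLp_fmax _)).integrable_sq
    calc ∫ ω, (G θ ω - G 0 ω) ^ 2 ∂P
        ≤ ∫ ω, n * ∑ j ∈ Finset.range n, (G (j * δ + δ) ω - G (j * δ) ω) ^ 2 ∂P := by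
          apply integral_mono_of_nonneg
          · exact Filter.Eventually.of_forall (fun ω => sq_nonneg _)
          · exact (integrable_finsetSum _ (fun j _ => hint j)).const_mul _
          · exact Filter.Eventually.of_forall hsq
      _ = n * ∑ j ∈ Finset.range n, ∫ ω, (G (j * δ + δ) ω - G (j * δ) ω) ^ 2 ∂P := by
          rw [integral_const_mul, integral_finsetSum _ (fun j _ => hint j)]
      _ ≤ n * ∑ _j ∈ Finset.range n, (4 * (1 - Real.cos δ) ^ 2 * B + 4 * Real.sin δ ^ 2 * v) := by
          apply mul_le_mul_of_nonneg_left _ hn'.le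
          apply Finset.sum_le_sum
          intro j _
          exact h.step v hv (j * δ) δ
      _ = n ^ 2 * (4 * (1 - Real.cos δ) ^ 2 * B + 4 * Real.sin δ ^ 2 * v) := by
          rw [Finset.sum_const, Finset.card_range, nsmul_eq_mul]; ring
      _ ≤ n ^ 2 * (4 * (δ ^ 2 / 2) ^ 2 * B + 4 * δ ^ 2 * v) := by
          apply mul_le_mul_of_nonneg_left _ (by positivity)
          have h1 : 0 ≤ 1 - Real.cos δ := by linarith [Real.cos_le_one δ]
          have h2 : 1 - Real.cos δ ≤ δ ^ 2 / 2 := by linarith [Real.one_sub_sq_div_two_le_cos (x := δ)]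
          have h3 : (1 - Real.cos δ) ^ 2 ≤ (δ ^ 2 / 2) ^ 2 := pow_le_pow_left₀ h1 h2 2
          have h4 : Real.sin δ ^ 2 ≤ δ ^ 2 := by
            rw [← sq_abs, ← sq_abs δ]
            exact pow_le_pow_left₀ (abs_nonneg _) Real.abs_sin_le_abs 2
          have h5 := mul_le_mul_of_nonneg_right h3 hB0
          have h6 := mul_le_mul_of_nonneg_right h4 hv0
          nlinarith
      _ = 4 * θ ^ 2 * v + θ ^ 4 * B / n ^ 2 := by
          rw [hδ]; field_simp; ring
  -- let n → ∞
  apply le_of_forall_pos_le_add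
  intro ε hε
  obtain ⟨n, hn⟩ := exists_nat_gt (max 1 (θ ^ 4 * B / ε))
  have hn1 : (1 : ℝ) < n := (le_max_left _ _).trans_lt hn
  have hn2 : θ ^ 4 * B / ε < n := (le_max_right _ _).trans_lt hn
  have hn0 : 0 < n := by
    have : (0 : ℝ) < n := by linarith
    exact_mod_cast this
  refine (key n hn0).trans ?_
  have h1 : θ ^ 4 * B / (n : ℝ) ^ 2 ≤ ε := by
    rw [div_le_iff₀ (by positivity)]
    rw [div_lt_iff₀ hε] at hn2
    have h3 : (n : ℝ) * ε ≤ ε * (n : ℝ) ^ 2 := by
      have : ε * (n : ℝ) ^ 2 - n * ε = n * ε * (n - 1) := by ring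
      have h4 : 0 ≤ n * ε * ((n : ℝ) - 1) := by
        apply mul_nonneg (by positivity); linarith
      linarith
    linarith
  linarith

end MaxBound

end Pool.Agent.Helper95
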