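import Mathlib
import Pool.Agent.Lib.Helper95.GaussRotation
import Pool.Agent.Lib.Helper95.KyFan
open MeasureTheory ProbabilityTheory Finset Filter Topology
open scoped RealInnerProductSpace NNReal ENNReal

namespace Pool.Agent.Helper95

theorem gp_fintype {T Ω : Type*} [Fintype T] [MeasurableSpace Ω] {P : Measure Ω} {X : T → Ω → ℝ}
    (hX : IsGaussianProcess X P) : HasGaussianLaw (fun ω t => X t ω) P := by
  have h := hX.hasGaussianLaw Finset.univ
  set L : ({x // x ∈ (Finset.univ : Finset T)} → ℝ) →L[ℝ] (T → ℝ) :=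
    ContinuousLinearMap.pi (fun t => ContinuousLinearMap.proj (R := ℝ)
      (φ := fun _ : {x // x ∈ (Finset.univ : Finset T)} => ℝ) ⟨t, Finset.mem_univ t⟩) with hL
  exact (h.map_fun L).congr (Filter.Eventually.of_forall (fun ω => rfl))

theorem gp_lin {S T Ω : Type*} [MeasurableSpace Ω] {P : Measure Ω} {X : T → Ω → ℝ}
    (hX : IsGaussianProcess X P) (I : S → Finset T) (c : S → T → ℝ) :
    IsGaussianProcess (fun s ω => ∑ t ∈ I s, c s t * X t ω) P := by
  apply hX.of_isGaussianProcess
  intro s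
  refine ⟨I s, ∑ t : I s, c s t • ContinuousLinearMap.proj (R := ℝ) (φ := fun _ : I s => ℝ) t, ?_⟩
  intro ω
  simp only [_root_.sum_apply, smul_apply, ContinuousLinearMap.proj_apply, smul_eq_mul, Finset.restrict_def]
  rw [← Finset.sum_coe_sort (I s) (fun t => c s t * X t ω)]

/-- Stationary solution of `dm = -m dt + √2 dB_GOE`: the centred Gaussian process with values in symmetric
matrices and covariance `(δ_ik δ_jl + δ_il δ_jk) * exp (-|s - t|)`. -/
structure IsStationaryGOE {Ω : Type*} [MeasurableSpace Ω] (P : Measure Ω) {n : ℕ}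
    (M : ℝ≥0 → Ω → Matrix (Fin n) (Fin n) ℝ) : Prop where
  symm : ∀ t ω, (M t ω).IsSymm
  gaussian : IsGaussianProcess (fun (p : ℝ≥0 × Fin n × Fin n) ω => M p.1 ω p.2.1 p.2.2) P
  mean_zero : ∀ t i j, ∫ ω, M t ω i j ∂P = 0
  covariance : ∀ s t i j k l, ∫ ω, M s ω i j * M t ω k l ∂P =
    Real.exp (-|(s : ℝ) - t|) * ((if i = k ∧ j = l then 1 else 0) + (if i = l ∧ j = k then 1 else 0))

section GOE
variable {Ω : Type*} [MeasurableSpace Ω] {P : Measure Ω} {n : ℕ}
    {M : ℝ≥0 → Ω → Matrix (Fin n) (Fin n) ℝ}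

/-- Linear functional of the matrix attached to a frame. -/
noncomputable def frameFun {k : ℕ} (v : Fin k → EuclideanSpace ℝ (Fin n)) (A : Matrix (Fin n) (Fin n) ℝ) : ℝ :=
  ∑ p : Fin n × Fin n, (∑ i, v i p.1 * v i p.2) * A p.1 p.2

theorem frameFun_eq {k : ℕ} (v : Fin k → EuclideanSpace ℝ (Fin n)) (A : Matrix (Fin n) (Fin n) ℝ) :
    frameFun v A = ∑ i, ⟪v i, Matrix.toEuclideanLin A (v i)⟫ := by
  unfold frameFun
  simp only [Finset.sum_mul]
  rw [Finset.sum_comm]
  apply Finset.sum_congr rfl
  intro i _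
  rw [Fintype.sum_prod_type, PiLp.inner_apply]
  apply Finset.sum_congr rfl
  intro a _
  simp only [Matrix.toLpLin_apply, Matrix.mulVec, dotProduct, RCLike.inner_apply, conj_trivial]
  rw [Finset.sum_mul]
  apply Finset.sum_congr rfl
  intro b _
  ring

/-- Sum of the products of the frame matrices. -/
theorem frame_cov_sum {k : ℕ} (v w : Fin k → EuclideanSpace ℝ (Fin n)) :
    ∑ p : Fin n × Fin n, ∑ q : Fin n × Fin n, (∑ i, v i p.1 * v i p.2) * (∑ i, w i q.1 * w i q.2) *
      ((if p.1 = q.1 ∧ p.2 = q.2 then (1 : ℝ) else 0) + (if p.1 = q.2 ∧ p.2 = q.1 then 1 else 0)) =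
    2 * ∑ p : Fin n × Fin n, (∑ i, v i p.1 * v i p.2) * (∑ i, w i p.1 * w i p.2) := by
  rw [Finset.mul_sum]
  apply Finset.sum_congr rfl
  intro p _
  have e1 : ∑ q : Fin n × Fin n, (∑ i, v i p.1 * v i p.2) * (∑ i, w i q.1 * w i q.2) *
      (if p.1 = q.1 ∧ p.2 = q.2 then (1 : ℝ) else 0) = (∑ i, v i p.1 * v i p.2) * (∑ i, w i p.1 * w i p.2) := by
    rw [Finset.sum_eq_single p]
    · simp
    · intro q _ hq
      rw [if_neg]
      · ring
      · rintro ⟨h1, h2⟩
        exact hq (Prod.ext h1.symm h2.symm)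
    · intro h; exact absurd (Finset.mem_univ p) h
  have e2 : ∑ q : Fin n × Fin n, (∑ i, v i p.1 * v i p.2) * (∑ i, w i q.1 * w i q.2) *
      (if p.1 = q.2 ∧ p.2 = q.1 then (1 : ℝ) else 0) = (∑ i, v i p.1 * v i p.2) * (∑ i, w i p.1 * w i p.2) := by
    rw [Finset.sum_eq_single (p.2, p.1)]
    · simp only [and_self, if_true, mul_one]
      congr 1
      apply Finset.sum_congr rfl
      intro i _; ring
    · intro q _ hq
      rw [if_neg]
      · ring
      · rintro ⟨h1, h2⟩
        exact hq (Prod.ext h2.symm h1.symm)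
    · intro h; exact absurd (Finset.mem_univ _) h
  simp only [mul_add, Finset.sum_add_distrib]
  rw [e1, e2]
  ring

theorem frame_norm_sq {k : ℕ} (v : Fin k → EuclideanSpace ℝ (Fin n)) (hv : Orthonormal ℝ v) :
    ∑ p : Fin n × Fin n, (∑ i, v i p.1 * v i p.2) * (∑ i, v i p.1 * v i p.2) = k := by
  have hin : ∀ i j, ∑ a, v i a * v j a = if i = j then 1 else 0 := by
    intro i j
    have := orthonormal_iff_ite.mp hv j i
    rw [PiLp.inner_apply] at this
    simp only [RCLike.inner_apply, conj_trivial] at this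
    rw [this]
    by_cases h : i = j
    · simp [h]
    · simp [h, Ne.symm h]
  have e : ∀ p : Fin n × Fin n, (∑ i, v i p.1 * v i p.2) * (∑ i, v i p.1 * v i p.2) =
      ∑ i, ∑ j, (v i p.1 * v j p.1) * (v i p.2 * v j p.2) := by
    intro p
    rw [Finset.sum_mul_sum]
    apply Finset.sum_congr rfl; intro i _
    apply Finset.sum_congr rfl; intro j _
    ring
  simp_rw [e]
  rw [Finset.sum_comm]
  have e2 : ∀ i, ∑ p : Fin n × Fin n, ∑ j, (v i p.1 * v j p.1) * (v i p.2 * v j p.2) = 1 := by
    intro i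
    rw [Finset.sum_comm]
    have e3 : ∀ j, ∑ p : Fin n × Fin n, (v i p.1 * v j p.1) * (v i p.2 * v j p.2) =
        (if i = j then 1 else 0) := by
      intro j
      rw [Fintype.sum_prod_type]
      simp only
      have : ∀ a, ∑ b, v i a * v j a * (v i b * v j b) = v i a * v j a * (if i = j then 1 else 0) := by
        intro a
        rw [← Finset.mul_sum, hin]
      simp_rw [this]
      rw [← Finset.sum_mul, hin]
      by_cases h : i = j <;> simp [h]
    simp_rw [e3]
    simp
  simp_rw [e2]
  simp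

/-- Angle `θ` with `cos θ = exp (-|s - t|)`. -/
noncomputable def angle (s t : ℝ≥0) : ℝ := Real.arccos (Real.exp (-|(s : ℝ) - t|))

theorem cos_angle (s t : ℝ≥0) : Real.cos (angle s t) = Real.exp (-|(s : ℝ) - t|) := by
  unfold angle
  apply Real.cos_arccos
  · have := Real.exp_pos (-|(s : ℝ) - t|); linarith
  · rw [Real.exp_le_one_iff]; linarith [abs_nonneg ((s : ℝ) - t)]

theorem sin_angle_pos {s t : ℝ≥0} (hst : s ≠ t) : 0 < Real.sin (angle s t) := by
  have h1 : 0 < |(s : ℝ) - t| := by
    rw [abs_pos, sub_ne_zero]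
    intro h; exact hst (by exact_mod_cast h)
  have h2 : Real.exp (-|(s : ℝ) - t|) < 1 := by
    rw [Real.exp_lt_one_iff]; linarith
  unfold angle
  rw [Real.sin_arccos]
  apply Real.sqrt_pos.mpr
  have h3 := Real.exp_pos (-|(s : ℝ) - t|)
  nlinarith

theorem angle_sq_le (s t : ℝ≥0) : (angle s t) ^ 2 ≤ Real.pi ^ 2 / 2 * |(s : ℝ) - t| := by
  have h0 : 0 ≤ angle s t := Real.arccos_nonneg _
  have h1 : angle s t ≤ Real.pi := Real.arccos_le_pi _
  have h2 := Real.cos_le_one_sub_mul_cos_sq (x := angle s t) (by rwa [abs_of_nonneg h0])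
  rw [cos_angle] at h2
  have h3 : 1 - |(s : ℝ) - t| ≤ Real.exp (-|(s : ℝ) - t|) := by
    have := Real.add_one_le_exp (-|(s : ℝ) - t|); linarith
  have h4 : 2 / Real.pi ^ 2 * (angle s t) ^ 2 ≤ |(s : ℝ) - t| := by linarith
  have hpi : 0 < Real.pi ^ 2 := by positivity
  calc (angle s t) ^ 2 = Real.pi ^ 2 / 2 * (2 / Real.pi ^ 2 * (angle s t) ^ 2) := by field_simp
    _ ≤ Real.pi ^ 2 / 2 * |(s : ℝ) - t| := mul_le_mul_of_nonneg_left h4 (by positivity)

/-- The pair of independent copies built from the matrix process at two times. -/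
theorem goe_gaussPair (hM : IsStationaryGOE P M) {s t : ℝ≥0} (hst : s ≠ t) {N k : ℕ}
    (v : Fin (N + 1) → Fin k → EuclideanSpace ℝ (Fin n)) :
    GaussPair P (fun m ω => frameFun (v m) (M s ω))
      (fun m ω => (frameFun (v m) (M t ω) - Real.cos (angle s t) * frameFun (v m) (M s ω)) / Real.sin (angle s t))
      (fun m m' => 2 * ∑ p : Fin n × Fin n, (∑ i, v m i p.1 * v m i p.2) * (∑ i, v m' i p.1 * v m' i p.2)) := by
  have hsin := sin_angle_pos hst
  set S := Real.sin (angle s t) with hS
  set c := Real.cos (angle s t) with hc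
  have hcexp : c = Real.exp (-|(s : ℝ) - t|) := cos_angle s t
  have hent : ∀ u i j, MemLp (fun ω => M u ω i j) 2 P := fun u i j =>
    (hM.gaussian.hasGaussianLaw_eval (u, i, j)).memLp_two
  have hP : IsProbabilityMeasure P := hM.gaussian.isProbabilityMeasure
  have hff : ∀ u m, MemLp (fun ω => frameFun (v m) (M u ω)) 2 P := by
    intro u m
    unfold frameFun
    exact memLp_finsetSum _ (fun p _ => (hent u p.1 p.2).const_mul _)
  have hcov : ∀ u w m m', ∫ ω, frameFun (v m) (M u ω) * frameFun (v m') (M w ω) ∂P =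
      Real.exp (-|(u : ℝ) - w|) * (2 * ∑ p : Fin n × Fin n, (∑ i, v m i p.1 * v m i p.2) * (∑ i, v m' i p.1 * v m' i p.2)) := by
    intro u w m m'
    rw [← frame_cov_sum (v m) (v m')]
    have e0 : ∀ ω, frameFun (v m) (M u ω) * frameFun (v m') (M w ω) =
        ∑ p : Fin n × Fin n, ∑ q : Fin n × Fin n, (∑ i, v m i p.1 * v m i p.2) * M u ω p.1 p.2 *
        ((∑ i, v m' i q.1 * v m' i q.2) * M w ω q.1 q.2) := by
      intro ω
      unfold frameFun
      rw [Finset.sum_mul_sum]
    simp_rw [e0]
    have hI : ∀ p q : Fin n × Fin n, Integrable (fun ω => (∑ i, v m i p.1 * v m i p.2) * M u ω p.1 p.2 *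
        ((∑ i, v m' i q.1 * v m' i q.2) * M w ω q.1 q.2)) P := fun p q =>
      ((hent u p.1 p.2).const_mul _).integrable_mul ((hent w q.1 q.2).const_mul _)
    rw [integral_finsetSum _ (fun p _ => integrable_finsetSum _ (fun q _ => hI p q)), Finset.mul_sum]
    apply Finset.sum_congr rfl
    intro p _
    rw [integral_finsetSum _ (fun q _ => hI p q), Finset.mul_sum]
    apply Finset.sum_congr rfl
    intro q _
    have e : ∀ ω, (∑ i, v m i p.1 * v m i p.2) * M u ω p.1 p.2 *
        ((∑ i, v m' i q.1 * v m' i q.2) * M w ω q.1 q.2) =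
        ((∑ i, v m i p.1 * v m i p.2) * (∑ i, v m' i q.1 * v m' i q.2)) * (M u ω p.1 p.2 * M w ω q.1 q.2) := by
      intro ω; ring
    simp_rw [e]
    rw [integral_const_mul, hM.covariance]
    ring
  have hmean : ∀ u m, ∫ ω, frameFun (v m) (M u ω) ∂P = 0 := by
    intro u m
    unfold frameFun
    rw [integral_finsetSum _ (fun p _ => ((hent u p.1 p.2).integrable one_le_two).const_mul _)]
    apply Finset.sum_eq_zero
    intro p _
    rw [integral_const_mul, hM.mean_zero, mul_zero]
  have hself : ∀ u : ℝ≥0, Real.exp (-|(u : ℝ) - u|) = 1 := by intro u; simp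
  have hsc : S ^ 2 + c ^ 2 = 1 := Real.sin_sq_add_cos_sq _
  set Q : Fin (N + 1) → Fin (N + 1) → ℝ := fun m m' =>
    2 * ∑ p : Fin n × Fin n, (∑ i, v m i p.1 * v m i p.2) * (∑ i, v m' i p.1 * v m' i p.2) with hQ
  have hQsymm : ∀ m m', Q m m' = Q m' m := by
    intro m m'
    simp only [hQ]
    congr 1
    apply Finset.sum_congr rfl; intro p _; ring
  have hcov' : ∀ u w m m', ∫ ω, frameFun (v m) (M u ω) * frameFun (v m') (M w ω) ∂P =
      Real.exp (-|(u : ℝ) - w|) * Q m m' := hcov
  refine ⟨?_, ?_, ?_, ?_, ?_, ?_⟩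
  · -- Gaussianity
    have hlin := gp_lin (S := Fin (N + 1) ⊕ Fin (N + 1)) hM.gaussian
      (fun _ => (({s, t} : Finset ℝ≥0) ×ˢ (Finset.univ : Finset (Fin n × Fin n))))
      (fun q p => Sum.elim
        (fun m => if p.1 = s then (∑ i, v m i p.2.1 * v m i p.2.2) else 0)
        (fun m => (if p.1 = s then (- c / S) else (1 / S)) * (∑ i, v m i p.2.1 * v m i p.2.2)) q)
    refine (gp_fintype hlin).congr (Filter.Eventually.of_forall (fun ω => ?_))
    funext q
    beta_reduce
    rw [Finset.sum_product, Finset.sum_pair hst]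
    rcases q with m | m
    · simp only [Sum.elim_inl, if_true, if_neg (Ne.symm hst), zero_mul, Finset.sum_const_zero, add_zero]
      rfl
    · simp only [Sum.elim_inr, if_true, if_neg (Ne.symm hst)]
      unfold frameFun
      rw [sub_div, Finset.mul_sum, Finset.sum_div, Finset.sum_div, add_comm, sub_eq_add_neg,
        ← Finset.sum_neg_distrib]
      congr 1
      · apply Finset.sum_congr rfl; intro p _; ring
      · apply Finset.sum_congr rfl; intro p _; ring
  · exact fun m => hmean s m
  · intro m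
    rw [integral_div, integral_sub ((hff t m).integrable one_le_two)
      (((hff s m).integrable one_le_two).const_mul _), integral_const_mul, hmean, hmean]
    ring
  · intro m m'
    rw [hcov' s s m m', hself, one_mul]
  · intro m m'
    have e : ∀ ω, (frameFun (v m) (M t ω) - c * frameFun (v m) (M s ω)) / S *
        ((frameFun (v m') (M t ω) - c * frameFun (v m') (M s ω)) / S) =
        (1 / S ^ 2) * (frameFun (v m) (M t ω) * frameFun (v m') (M t ω) -
          c * (frameFun (v m) (M t ω) * frameFun (v m') (M s ω)) -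
          c * (frameFun (v m) (M s ω) * frameFun (v m') (M t ω)) +
          c ^ 2 * (frameFun (v m) (M s ω) * frameFun (v m') (M s ω))) := by
      intro ω; field_simp; ring
    simp_rw [e]
    have i1 : Integrable (fun ω => frameFun (v m) (M t ω) * frameFun (v m') (M t ω)) P :=
      (hff t m).integrable_mul (hff t m')
    have i2 : Integrable (fun ω => c * (frameFun (v m) (M t ω) * frameFun (v m') (M s ω))) P :=
      ((hff t m).integrable_mul (hff s m')).const_mul _
    have i3 : Integrable (fun ω => c * (frameFun (v m) (M s ω) * frameFun (v m') (M t ω))) P :=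
      ((hff s m).integrable_mul (hff t m')).const_mul _
    have i4 : Integrable (fun ω => c ^ 2 * (frameFun (v m) (M s ω) * frameFun (v m') (M s ω))) P :=
      ((hff s m).integrable_mul (hff s m')).const_mul _
    have i12 : Integrable (fun ω => frameFun (v m) (M t ω) * frameFun (v m') (M t ω) -
        c * (frameFun (v m) (M t ω) * frameFun (v m') (M s ω))) P := i1.sub i2
    have i123 : Integrable (fun ω => frameFun (v m) (M t ω) * frameFun (v m') (M t ω) -
        c * (frameFun (v m) (M t ω) * frameFun (v m') (M s ω)) -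
        c * (frameFun (v m) (M s ω) * frameFun (v m') (M t ω))) P := i12.sub i3
    rw [integral_const_mul, integral_add i123 i4, integral_sub i12 i3, integral_sub i1 i2,
      integral_const_mul, integral_const_mul, integral_const_mul, hcov', hcov', hcov', hcov',
      hself, hself, abs_sub_comm (t : ℝ) s, ← hcexp]
    have : (1 / S ^ 2) * (1 * Q m m' - c * (c * Q m m') - c * (c * Q m m') + c ^ 2 * (1 * Q m m')) =
        (1 / S ^ 2) * ((1 - c ^ 2) * Q m m') := by ring
    rw [this]
    have h1 : 1 - c ^ 2 = S ^ 2 := by linarith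
    rw [h1]
    field_simp
  · intro m m'
    have e : ∀ ω, frameFun (v m) (M s ω) *
        ((frameFun (v m') (M t ω) - c * frameFun (v m') (M s ω)) / S) =
        (1 / S) * (frameFun (v m) (M s ω) * frameFun (v m') (M t ω) -
          c * (frameFun (v m) (M s ω) * frameFun (v m') (M s ω))) := by
      intro ω; field_simp
    simp_rw [e]
    have i1 : Integrable (fun ω => frameFun (v m) (M s ω) * frameFun (v m') (M t ω)) P :=
      (hff s m).integrable_mul (hff t m')
    have i2 : Integrable (fun ω => c * (frameFun (v m) (M s ω) * frameFun (v m') (M s ω))) P :=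
      ((hff s m).integrable_mul (hff s m')).const_mul _
    rw [integral_const_mul, integral_sub i1 i2, integral_const_mul, hcov', hcov', hself, ← hcexp]
    ring

end GOE

section TopSum
variable {n : ℕ}

open Classical in
/-- The `j`-th largest eigenvalue (`j = 0, 1, ...`) of a real symmetric `n × n` matrix (`0` if `n ≤ j` or if the
matrix is not symmetric). -/
noncomputable def topEig (A : Matrix (Fin n) (Fin n) ℝ) (j : ℕ) : ℝ :=
  if h : A.IsHermitian ∧ j < n then h.1.eigenvalues₀ ⟨j, by rw [Fintype.card_fin]; exact h.2⟩ else 0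

/-- Sum of the `k` largest eigenvalues. -/
noncomputable def topSum (A : Matrix (Fin n) (Fin n) ℝ) (k : ℕ) : ℝ := ∑ j : Fin k, topEig A j

theorem topSum_eq {A : Matrix (Fin n) (Fin n) ℝ} (hA : A.IsHermitian) {k : ℕ} (hk : k ≤ n) :
    topSum A k = ∑ j : Fin k, (Matrix.isSymmetric_toEuclideanLin_iff.mpr hA).eigenvalues
      (finrank_euclideanSpace (𝕜 := ℝ) (ι := Fin n)) (Fin.castLE (by rw [Fintype.card_fin]; exact hk) j) := by
  unfold topSum
  apply Finset.sum_congr rfl
  intro j _
  unfold topEig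
  rw [dif_pos ⟨hA, lt_of_lt_of_le j.2 hk⟩]
  rfl

theorem frameFun_le_topSum {A : Matrix (Fin n) (Fin n) ℝ} (hA : A.IsHermitian) {k : ℕ} (hk : k ≤ n)
    (v : Fin k → EuclideanSpace ℝ (Fin n)) (hv : Orthonormal ℝ v) : frameFun v A ≤ topSum A k := by
  rw [frameFun_eq, topSum_eq hA hk]
  exact ky_fan_le _ _ _ v hv

theorem exists_frameFun_eq {A : Matrix (Fin n) (Fin n) ℝ} (hA : A.IsHermitian) {k : ℕ} (hk : k ≤ n) :
    ∃ v : Fin k → EuclideanSpace ℝ (Fin n), Orthonormal ℝ v ∧ frameFun v A = topSum A k := by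
  have hk' : k ≤ Fintype.card (Fin n) := by rw [Fintype.card_fin]; exact hk
  have hsym := Matrix.isSymmetric_toEuclideanLin_iff.mpr hA
  refine ⟨fun i => hsym.eigenvectorBasis (finrank_euclideanSpace (𝕜 := ℝ) (ι := Fin n)) (Fin.castLE hk' i), ?_, ?_⟩
  · exact (hsym.eigenvectorBasis _).orthonormal.comp _ (Fin.castLE_injective hk')
  · rw [frameFun_eq, topSum_eq hA hk]
    exact ky_fan_eq _ _ _

theorem continuous_frameFun {k : ℕ} (A : Matrix (Fin n) (Fin n) ℝ) :
    Continuous (fun v : Fin k → EuclideanSpace ℝ (Fin n) => frameFun v A) := by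
  unfold frameFun
  fun_prop

/-- A countable family of frames that computes `topSum` for all symmetric matrices. -/
theorem exists_frame_seq {k : ℕ} (hk : k ≤ n) :
    ∃ d : ℕ → Fin k → EuclideanSpace ℝ (Fin n), (∀ i, Orthonormal ℝ (d i)) ∧
      ∀ A : Matrix (Fin n) (Fin n) ℝ, A.IsHermitian →
        Tendsto (fun N : ℕ => fmax (fun i : Fin (N + 1) => frameFun (d i) A)) atTop (𝓝 (topSum A k)) := by
  have hne : Nonempty {v : Fin k → EuclideanSpace ℝ (Fin n) // Orthonormal ℝ v} := by
    obtain ⟨v, hv, _⟩ := exists_frameFun_eq (A := (0 : Matrix (Fin n) (Fin n) ℝ)) Matrix.isHermitian_zero hk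
    exact ⟨⟨v, hv⟩⟩
  set 𝒱 := {v : Fin k → EuclideanSpace ℝ (Fin n) // Orthonormal ℝ v} with h𝒱
  set e := TopologicalSpace.denseSeq {v : Fin k → EuclideanSpace ℝ (Fin n) // Orthonormal ℝ v} with he
  refine ⟨fun i => (e i).1, fun i => (e i).2, ?_⟩
  intro A hA
  rw [Metric.tendsto_atTop]
  intro ε hε
  obtain ⟨v, hv, hveq⟩ := exists_frameFun_eq hA hk
  have hopen : IsOpen {w : {v : Fin k → EuclideanSpace ℝ (Fin n) // Orthonormal ℝ v} |
      topSum A k - ε < frameFun w.1 A} := by
    apply isOpen_lt continuous_const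
    exact (continuous_frameFun A).comp continuous_subtype_val
  obtain ⟨i₀, hi₀⟩ := (TopologicalSpace.denseRange_denseSeq
    {v : Fin k → EuclideanSpace ℝ (Fin n) // Orthonormal ℝ v}).exists_mem_open hopen
    ⟨⟨v, hv⟩, by show topSum A k - ε < frameFun v A; rw [hveq]; linarith⟩
  refine ⟨i₀, fun N hN => ?_⟩
  have h1 : fmax (fun i : Fin (N + 1) => frameFun (e i).1 A) ≤ topSum A k := by
    obtain ⟨i, hi⟩ := exists_eq_fmax (fun i : Fin (N + 1) => frameFun (e i).1 A)
    rw [hi]
    exact frameFun_le_topSum hA hk _ (e i).2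
  have h2 : topSum A k - ε < fmax (fun i : Fin (N + 1) => frameFun (e i).1 A) := by
    have h3 := le_fmax (fun i : Fin (N + 1) => frameFun (e i).1 A) ⟨i₀, by omega⟩
    exact lt_of_lt_of_le hi₀ h3
  rw [Real.dist_eq, abs_lt]
  constructor <;> linarith

end TopSum

section GOE2
variable {Ω : Type*} [MeasurableSpace Ω] {P : Measure Ω} {n : ℕ}
    {M : ℝ≥0 → Ω → Matrix (Fin n) (Fin n) ℝ}

theorem IsStationaryGOE.isHermitian (hM : IsStationaryGOE P M) (t : ℝ≥0) (ω : Ω) :
    (M t ω).IsHermitian := by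
  have := hM.symm t ω
  rw [Matrix.IsHermitian, Matrix.conjTranspose_eq_transpose_of_trivial]
  exact this

/-- Mean square increment of the sum of the `k` largest eigenvalues. -/
theorem goe_increment (hM : IsStationaryGOE P M) {s t : ℝ≥0} (hst : s ≠ t) {k : ℕ} (hk : k ≤ n) :
    ∫⁻ ω, ENNReal.ofReal ((topSum (M t ω) k - topSum (M s ω) k) ^ 2) ∂P ≤
      ENNReal.ofReal (4 * (Real.pi ^ 2 / 2 * |(s : ℝ) - t|) * (2 * k)) := by
  obtain ⟨d, hd, hlim⟩ := exists_frame_seq (n := n) hk
  have hP : IsProbabilityMeasure P := hM.gaussian.isProbabilityMeasure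
  set G : ℝ≥0 → ℕ → Ω → ℝ := fun u N ω => fmax (fun i : Fin (N + 1) => frameFun (d i) (M u ω)) with hG
  have hGm : ∀ u N, AEMeasurable (G u N) P := by
    intro u N
    apply continuous_fmax.measurable.comp_aemeasurable
    apply aemeasurable_pi_lambda
    intro i
    unfold frameFun
    apply Finset.aemeasurable_fun_sum
    intro p _
    exact (hM.gaussian.aemeasurable (u, p.1, p.2)).const_mul _
  have hbound : ∀ N, ∫⁻ ω, ENNReal.ofReal ((G t N ω - G s N ω) ^ 2) ∂P ≤
      ENNReal.ofReal (4 * (Real.pi ^ 2 / 2 * |(s : ℝ) - t|) * (2 * k)) := by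
    intro N
    have hpair := goe_gaussPair hM hst (N := N) (fun i : Fin (N + 1) => d i)
    have hv : ∀ i : Fin (N + 1), 2 * ∑ p : Fin n × Fin n, (∑ j, d i j p.1 * d i j p.2) * (∑ j, d i j p.1 * d i j p.2) ≤ 2 * (k : ℝ) := by
      intro i
      rw [frame_norm_sq (d i) (hd i)]
    have hrot := hpair.rotation_bound (2 * k) hv (angle s t)
    have hsin := sin_angle_pos hst
    have e1 : ∀ ω, fmax (fun i : Fin (N + 1) => rot (fun m ω => frameFun (d m) (M s ω))
      (fun m ω => (frameFun (d m) (M t ω) - Real.cos (angle s t) * frameFun (d m) (M s ω)) / Real.sin (angle s t))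
      (angle s t) i ω) = G t N ω := by
      intro ω
      simp only [hG]
      congr 1
      funext i
      unfold rot
      field_simp
      ring
    have e2 : ∀ ω, fmax (fun i : Fin (N + 1) => rot (fun m ω => frameFun (d m) (M s ω))
      (fun m ω => (frameFun (d m) (M t ω) - Real.cos (angle s t) * frameFun (d m) (M s ω)) / Real.sin (angle s t))
      0 i ω) = G s N ω := by
      intro ω
      simp only [hG]
      congr 1
      funext i
      simp [rot]
    have hrot' : ∫ ω, (G t N ω - G s N ω) ^ 2 ∂P ≤ 4 * (angle s t) ^ 2 * (2 * k) := by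
      refine le_trans (le_of_eq ?_) hrot
      congr 1
      funext ω
      rw [← e1 ω, ← e2 ω]
      rfl
    have hL2 : ∀ u, MemLp (G u N) 2 P := by
      intro u
      have h1 : MemLp (fun ω => ∑ i : Fin (N + 1), |frameFun (d i) (M u ω)|) 2 P := by
        apply memLp_finsetSum
        intro i _
        have : MemLp (fun ω => frameFun (d i) (M u ω)) 2 P := by
          unfold frameFun
          apply memLp_finsetSum
          intro p _
          exact ((hM.gaussian.hasGaussianLaw_eval (u, p.1, p.2)).memLp_two).const_mul _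
        exact this.abs
      refine h1.mono (hGm u N).aestronglyMeasurable ?_
      refine Filter.Eventually.of_forall (fun ω => ?_)
      rw [Real.norm_eq_abs, Real.norm_eq_abs]
      exact (abs_fmax_le _).trans (le_abs_self _)
    have hint : Integrable (fun ω => (G t N ω - G s N ω) ^ 2) P := ((hL2 t).sub (hL2 s)).integrable_sq
    rw [← ofReal_integral_eq_lintegral_ofReal hint (Filter.Eventually.of_forall (fun ω => sq_nonneg _))]
    apply ENNReal.ofReal_le_ofReal
    refine hrot'.trans ?_
    apply mul_le_mul_of_nonneg_right _ (by positivity)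
    exact mul_le_mul_of_nonneg_left (angle_sq_le s t) (by norm_num)
  have hptw : ∀ ω, Tendsto (fun N => ENNReal.ofReal ((G t N ω - G s N ω) ^ 2)) atTop
      (𝓝 (ENNReal.ofReal ((topSum (M t ω) k - topSum (M s ω) k) ^ 2))) := by
    intro ω
    apply ENNReal.tendsto_ofReal
    exact ((hlim _ (hM.isHermitian t ω)).sub (hlim _ (hM.isHermitian s ω))).pow 2
  calc ∫⁻ ω, ENNReal.ofReal ((topSum (M t ω) k - topSum (M s ω) k) ^ 2) ∂P
      = ∫⁻ ω, liminf (fun N => ENNReal.ofReal ((G t N ω - G s N ω) ^ 2)) atTop ∂P := by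
        apply lintegral_congr
        intro ω
        exact (hptw ω).liminf_eq.symm
    _ ≤ liminf (fun N => ∫⁻ ω, ENNReal.ofReal ((G t N ω - G s N ω) ^ 2) ∂P) atTop := by
        apply lintegral_liminf_le'
        intro N
        exact (((hGm t N).sub (hGm s N)).pow_const 2).ennreal_ofReal
    _ ≤ _ := by
        apply Filter.liminf_le_of_le
        · isBoundedDefault
        · intro b hb
          obtain ⟨N, hN⟩ := hb.exists
          exact hN.trans (hbound N)

theorem aemeasurable_topSum (hM : IsStationaryGOE P M) (t : ℝ≥0) {k : ℕ} (hk : k ≤ n) :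
    AEMeasurable (fun ω => topSum (M t ω) k) P := by
  obtain ⟨d, hd, hlim⟩ := exists_frame_seq (n := n) hk
  have hP : IsProbabilityMeasure P := hM.gaussian.isProbabilityMeasure
  refine aemeasurable_of_tendsto_metrizable_ae atTop (f := fun (N : ℕ) ω =>
    fmax (fun i : Fin (N + 1) => frameFun (d i) (M t ω))) ?_ ?_
  · intro N
    apply continuous_fmax.measurable.comp_aemeasurable
    apply aemeasurable_pi_lambda
    intro i
    unfold frameFun
    apply Finset.aemeasurable_fun_sum
    intro p _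
    exact (hM.gaussian.aemeasurable (t, p.1, p.2)).const_mul _
  · exact Filter.Eventually.of_forall (fun ω => hlim _ (hM.isHermitian t ω))

end GOE2

end Pool.Agent.Helper95
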