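import Mathlib
import Pool.Agent.Lib.Helper95.AiryForm
open MeasureTheory ProbabilityTheory Finset Filter Topology TopologicalSpace Set
open scoped NNReal ENNReal Distributions

namespace Pool.Agent.Helper95

/-! ### The explicit frame -/

theorem sstep_deriv_bound : ∃ C : ℝ, 0 < C ∧ ∀ y, |deriv sstep y| ≤ C := by
  have hcd : ContDiff ℝ 1 sstep := sstep_contDiff.of_le (by norm_cast)
  have hc : Continuous (deriv sstep) := hcd.continuous_deriv (by norm_num)
  have hs : HasCompactSupport (deriv sstep) := by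
    apply HasCompactSupport.of_support_subset_isCompact (K := Set.Icc (1 / 2) 1) isCompact_Icc
    intro y hy
    by_contra hcon
    apply hy
    rw [Set.mem_Icc, not_and_or, not_le, not_le] at hcon
    rcases hcon with h | h
    · have : sstep =ᶠ[𝓝 y] fun _ => 0 := by
        filter_upwards [Iio_mem_nhds h] with z hz
        exact sstep_zero (le_of_lt hz)
      rw [this.deriv_eq, deriv_const]
    · have : sstep =ᶠ[𝓝 y] fun _ => 1 := by
        filter_upwards [Ioi_mem_nhds h] with z hz
        exact sstep_one (le_of_lt hz)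
      rw [this.deriv_eq, deriv_const]
  obtain ⟨C, hC⟩ := hc.bounded_above_of_compact_support hs
  exact ⟨max C 1, lt_max_of_lt_right one_pos, fun y => (hC y).trans (le_max_left _ _)⟩

theorem stepFun_deriv (N a b : ℕ) (x : ℝ) : deriv (stepFun N a b) x =
    ((N : ℝ) + 1) * (deriv sstep (((N : ℝ) + 1) * x - a) - deriv sstep (((N : ℝ) + 1) * x - b)) := by
  have hcd' : ContDiff ℝ 1 sstep := sstep_contDiff.of_le (by norm_cast)
  have hcd : Differentiable ℝ sstep := hcd'.differentiable (by norm_num)
  have h : ∀ c : ℝ, HasDerivAt (fun x => sstep (((N : ℝ) + 1) * x - c))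
      (deriv sstep (((N : ℝ) + 1) * x - c) * ((N : ℝ) + 1)) x := by
    intro c
    have h1 : HasDerivAt (fun x : ℝ => ((N : ℝ) + 1) * x - c) ((N : ℝ) + 1) x := by
      have := ((hasDerivAt_id x).const_mul ((N : ℝ) + 1)).sub_const c
      simpa using this
    exact (hcd _).hasDerivAt.comp x h1
  have h2 := (h a).fun_sub (h b)
  have h3 : deriv (stepFun N a b) x = _ := h2.deriv
  rw [h3]; ring

theorem step_energy {C : ℝ} (hC : ∀ y, |deriv sstep y| ≤ C) (N a : ℕ) :
    energy (stepTest N a (a + 1)) ≤ 8 * ((N : ℝ) + 1) * C ^ 2 + 2 * ((a : ℝ) + 2) / ((N : ℝ) + 1) ^ 2 := by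
  have hN : (0 : ℝ) < (N : ℝ) + 1 := by positivity
  have ha0 : (0 : ℝ) ≤ a := Nat.cast_nonneg a
  have hC0 : 0 ≤ C := (abs_nonneg _).trans (hC 0)
  set u := stepTest N a (a + 1) with hu
  have hout : ∀ x : ℝ, x ≤ (a : ℝ) / ((N : ℝ) + 1) ∨ ((a : ℝ) + 2) / ((N : ℝ) + 1) < x → u x = 0 ∧ deriv u x = 0 := by
    intro x hx
    have h1 : (u : ℝ → ℝ) =ᶠ[𝓝 x] fun _ => 0 := by
      rcases hx with h | h
      · have h2 : x < ((a : ℝ) + 1 / 2) / ((N : ℝ) + 1) := lt_of_le_of_lt h (by
          apply div_lt_div_of_pos_right _ hN; linarith)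
        filter_upwards [Iio_mem_nhds h2] with z hz
        rw [hu, stepTest_apply]
        apply stepFun_zero (Nat.le_succ _)
        left
        rw [Set.mem_Iio, lt_div_iff₀ hN] at hz
        linarith
      · filter_upwards [Ioi_mem_nhds h] with z hz
        rw [hu, stepTest_apply]
        apply stepFun_zero (Nat.le_succ _)
        right
        rw [Set.mem_Ioi, div_lt_iff₀ hN] at hz
        push_cast
        linarith
    exact ⟨h1.self_of_nhds, by rw [h1.deriv_eq, deriv_const]⟩
  have h1 : energy u = ∫ x in Set.Ioc ((a : ℝ) / ((N : ℝ) + 1)) (((a : ℝ) + 2) / ((N : ℝ) + 1)),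
      ((deriv u x) ^ 2 + x * (u x) ^ 2) := by
    unfold energy
    apply MeasureTheory.setIntegral_eq_of_subset_of_forall_sdiff_eq_zero measurableSet_Ioi
    · intro x hx
      exact lt_of_le_of_lt (by positivity) hx.1
    · intro x hx
      have h2 := hout x (by
        by_cases h3 : x ≤ (a : ℝ) / ((N : ℝ) + 1)
        · exact Or.inl h3
        · push Not at h3
          right
          by_contra h4
          push Not at h4
          exact hx.2 ⟨h3, h4⟩)
      rw [h2.1, h2.2]; ring
  rw [h1]
  have h5 : ∀ x ∈ Set.Ioc ((a : ℝ) / ((N : ℝ) + 1)) (((a : ℝ) + 2) / ((N : ℝ) + 1)),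
      ‖(deriv u x) ^ 2 + x * (u x) ^ 2‖ ≤ (2 * C * ((N : ℝ) + 1)) ^ 2 + ((a : ℝ) + 2) / ((N : ℝ) + 1) := by
    intro x hx
    have hx0 : 0 ≤ x := le_trans (by positivity) hx.1.le
    rw [Real.norm_eq_abs, abs_of_nonneg (by positivity)]
    apply add_le_add
    · rw [← sq_abs]
      apply pow_le_pow_left₀ (abs_nonneg _)
      have h6 : deriv u x = deriv (stepFun N a (a + 1)) x := rfl
      rw [h6, stepFun_deriv, abs_mul, abs_of_pos hN]
      have h7 := abs_sub (deriv sstep (((N : ℝ) + 1) * x - a)) (deriv sstep (((N : ℝ) + 1) * x - ((a + 1 : ℕ) : ℝ)))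
      have h8 := hC (((N : ℝ) + 1) * x - a)
      have h9 := hC (((N : ℝ) + 1) * x - ((a + 1 : ℕ) : ℝ))
      nlinarith
    · have h6 := stepFun_mono_sub (N := N) (Nat.le_succ a) x
      have h7 : (u x) ^ 2 ≤ 1 := by
        rw [hu, stepTest_apply]
        exact pow_le_one₀ h6.1 h6.2
      calc x * (u x) ^ 2 ≤ x * 1 := mul_le_mul_of_nonneg_left h7 hx0
        _ ≤ _ := by rw [mul_one]; exact hx.2
  have h6 := norm_setIntegral_le_of_norm_le_const (μ := volume) (by simp) h5
  rw [measureReal_def, Real.volume_Ioc, ENNReal.toReal_ofReal (by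
    rw [← sub_div]; apply div_nonneg _ hN.le; linarith)] at h6
  refine (le_abs_self _).trans ((Real.norm_eq_abs _).symm.le.trans (h6.trans ?_))
  apply le_of_eq
  field_simp
  ring

theorem step_mass (N a : ℕ) : 1 / (2 * ((N : ℝ) + 1)) ≤ mass (stepTest N a (a + 1)) := by
  have hN : (0 : ℝ) < (N : ℝ) + 1 := by positivity
  have ha0 : (0 : ℝ) ≤ a := Nat.cast_nonneg a
  set S := Set.Ioc (((a : ℝ) + 1) / ((N : ℝ) + 1)) (((a : ℝ) + 3 / 2) / ((N : ℝ) + 1)) with hS
  have h1 : ∫ x in S, (1 : ℝ) = 1 / (2 * ((N : ℝ) + 1)) := by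
    rw [setIntegral_const, smul_eq_mul, mul_one, measureReal_def, hS, Real.volume_Ioc, ENNReal.toReal_ofReal (by
      rw [← sub_div]; apply div_nonneg _ hN.le; linarith)]
    field_simp
    ring
  rw [← h1]
  have h2 : ∫ x in S, (1 : ℝ) = ∫ x in S, (stepTest N a (a + 1) x) ^ 2 := by
    apply setIntegral_congr_fun measurableSet_Ioc
    intro x hx
    have hx1 := hx.1
    have hx2 := hx.2
    rw [div_lt_iff₀ hN] at hx1
    rw [le_div_iff₀ hN] at hx2
    have : stepTest N a (a + 1) x = 1 := by
      rw [stepTest_apply, stepFun, sstep_one (by linarith), sstep_zero (by push_cast; linarith), sub_zero]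
    simp only [this]
    norm_num
  rw [h2]
  unfold mass
  apply setIntegral_mono_set
  · have := integrableOn_test (test_continuous (stepTest N a (a + 1))) (stepTest N a (a + 1))
    refine this.congr_fun (fun x _ => ?_) measurableSet_Ioi
    ring
  · filter_upwards with x
    exact sq_nonneg _
  · apply LE.le.eventuallyLE
    intro x hx
    exact lt_of_le_of_lt (by positivity) hx.1

/-- Existence of a `k`-frame with small energy. -/
theorem exists_low_frame : ∃ c : ℝ, 0 < c ∧ ∀ (K k : ℕ), 0 < K → k = K ^ 3 →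
    ∃ g : Fin k → 𝓓(halfLine, ℝ), IsFrame l2Form g ∧ totE g ≤ c * (K : ℝ) ^ 5 := by
  obtain ⟨C, hC0, hC⟩ := sstep_deriv_bound
  refine ⟨16 * C ^ 2 + 8, by positivity, ?_⟩
  intro K k hK hk
  obtain ⟨N, rfl⟩ : ∃ N, K = N + 1 := ⟨K - 1, by omega⟩
  have hN : (0 : ℝ) < (N : ℝ) + 1 := by positivity
  set u : Fin k → 𝓓(halfLine, ℝ) := fun i => stepTest N (2 * i) (2 * i + 1) with hu
  have hmass : ∀ i, 1 / (2 * ((N : ℝ) + 1)) ≤ mass (u i) := fun i => step_mass N (2 * i)
  have hmpos : ∀ i, 0 < mass (u i) := fun i => lt_of_lt_of_le (by positivity) (hmass i)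
  set s : Fin k → ℝ := fun i => (√(mass (u i)))⁻¹ with hs
  have hs2 : ∀ i, (s i) ^ 2 = (mass (u i))⁻¹ := by
    intro i
    rw [hs]
    simp only
    rw [inv_pow, Real.sq_sqrt (hmpos i).le]
  refine ⟨fun i => s i • u i, ?_, ?_⟩
  · intro i j
    simp only [map_smul, LinearMap.smul_apply, smul_eq_mul]
    by_cases h : i = j
    · subst h
      rw [if_pos rfl, l2Form_self, ← mul_assoc, ← pow_two, hs2, inv_mul_cancel₀ (hmpos i).ne']
    · rw [if_neg h]
      have h1 : l2Form (u i) (u j) = 0 := by
        rw [l2Form_apply]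
        have h2 : ∀ x, u i x * u j x = 0 := by
          intro x
          have hij : (i : ℕ) ≠ j := fun h' => h (Fin.ext h')
          have hzero : ∀ a b : Fin k, (a : ℕ) < b → u a x * u b x = 0 := by
            intro a b hab
            have hab' : (a : ℝ) + 1 ≤ b := by exact_mod_cast hab
            by_cases h3 : ((N : ℝ) + 1) * x ≤ 2 * (b : ℝ) + 1 / 2
            · have : u b x = 0 := by
                apply stepFun_zero (Nat.le_succ _)
                left; push_cast; linarith
              rw [this, mul_zero]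
            · have : u a x = 0 := by
                apply stepFun_zero (Nat.le_succ _)
                right; push_cast; push Not at h3; linarith
              rw [this, zero_mul]
          rcases lt_or_gt_of_ne hij with h3 | h3
          · exact hzero i j h3
          · rw [mul_comm]; exact hzero j i h3
        simp_rw [h2]
        simp
      rw [h1]; ring
  · unfold totE
    have hE : ∀ i ∈ (Finset.univ : Finset (Fin k)), energy (s i • u i) ≤
        16 * C ^ 2 * ((N : ℝ) + 1) ^ 2 + 8 * (k : ℝ) / ((N : ℝ) + 1) := by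
      intro i _
      rw [energy_smul, hs2]
      have h1 := step_energy hC N (2 * i)
      have h2 : (mass (u i))⁻¹ ≤ 2 * ((N : ℝ) + 1) := by
        rw [inv_le_comm₀ (hmpos i) (by positivity)]
        have := hmass i
        rwa [one_div] at this
      have hi : (i : ℝ) + 1 ≤ k := by exact_mod_cast i.2
      have h3 : energy (u i) ≤ 8 * ((N : ℝ) + 1) * C ^ 2 + 4 * k / ((N : ℝ) + 1) ^ 2 := by
        refine h1.trans (add_le_add le_rfl ?_)
        apply div_le_div_of_nonneg_right _ (by positivity)
        push_cast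
        linarith
      calc (mass (u i))⁻¹ * energy (u i)
          ≤ (2 * ((N : ℝ) + 1)) * (8 * ((N : ℝ) + 1) * C ^ 2 + 4 * k / ((N : ℝ) + 1) ^ 2) :=
            mul_le_mul h2 h3 (energy_nonneg _) (by positivity)
        _ = _ := by field_simp; ring
    refine (Finset.sum_le_sum hE).trans ?_
    rw [Finset.sum_const, Finset.card_univ, Fintype.card_fin, nsmul_eq_mul, hk]
    push_cast
    apply le_of_eq
    field_simp

/-! ### Mass estimates -/

/-- Local averages control the mass. -/
theorem cell_estimate (f : 𝓓(halfLine, ℝ)) {a d : ℝ} (hd : 0 < d) :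
    ∫ x in a..(a + d), (f x) ^ 2 ≤ (1 / d) * (∫ x in a..(a + d), f x) ^ 2 +
      d ^ 2 * ∫ x in a..(a + d), (deriv f x) ^ 2 := by
  have hc0 := test_continuous f
  have hc1 := test_deriv_continuous f
  have had : a ≤ a + d := by linarith
  set D := ∫ x in a..(a + d), (deriv f x) ^ 2 with hD
  have hD0 : 0 ≤ D := intervalIntegral.integral_nonneg had (fun x _ => sq_nonneg _)
  set I := ∫ x in a..(a + d), f x with hI
  set m := I / d with hm
  have hosc : ∀ x ∈ Set.Icc a (a + d), ∀ y ∈ Set.Icc a (a + d), |f x - f y| ≤ √(d * D) := by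
    have hkey : ∀ x ∈ Set.Icc a (a + d), ∀ y ∈ Set.Icc a (a + d), x ≤ y → |f x - f y| ≤ √(d * D) := by
      intro x hx y hy hxy
      rw [← Real.sqrt_sq_eq_abs]
      apply Real.sqrt_le_sqrt
      have h1 := sq_increment_le f hxy
      have h2 : ∫ z in x..y, (deriv f z) ^ 2 ≤ D := by
        rw [hD, intervalIntegral.integral_of_le hxy, intervalIntegral.integral_of_le had]
        apply setIntegral_mono_set
        · exact ((hc1.pow 2).continuousOn.integrableOn_compact isCompact_Icc).mono_set Set.Ioc_subset_Icc_self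
        · filter_upwards with z
          exact sq_nonneg _
        · apply LE.le.eventuallyLE
          intro z hz
          exact ⟨by linarith [hx.1, hz.1], by linarith [hy.2, hz.2]⟩
      have h3 : 0 ≤ ∫ z in x..y, (deriv f z) ^ 2 := intervalIntegral.integral_nonneg hxy (fun x _ => sq_nonneg _)
      have h4 : y - x ≤ d := by linarith [hx.1, hy.2]
      nlinarith [sub_nonneg.mpr hxy]
    intro x hx y hy
    rcases le_total x y with h | h
    · exact hkey x hx y hy h
    · rw [abs_sub_comm]; exact hkey y hy x hx h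
  have hmean : ∀ x ∈ Set.Icc a (a + d), (f x - m) ^ 2 ≤ d * D := by
    intro x hx
    have h1 : ∫ y in a..(a + d), (f x - f y) = d * (f x - m) := by
      rw [intervalIntegral.integral_sub intervalIntegrable_const (hc0.intervalIntegrable _ _),
        intervalIntegral.integral_const, smul_eq_mul, hm]
      field_simp
      ring
    have h2 : ‖∫ y in a..(a + d), (f x - f y)‖ ≤ √(d * D) * |a + d - a| := by
      apply intervalIntegral.norm_integral_le_of_norm_le_const
      intro y hy
      rw [Set.uIoc_of_le had] at hy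
      exact hosc x hx y ⟨hy.1.le, hy.2⟩
    rw [h1, Real.norm_eq_abs, abs_mul, abs_of_pos hd, show a + d - a = d by ring, abs_of_pos hd, mul_comm] at h2
    have h3 := le_of_mul_le_mul_right h2 hd
    rw [← sq_abs]
    calc |f x - m| ^ 2 ≤ (√(d * D)) ^ 2 := pow_le_pow_left₀ (abs_nonneg _) h3 2
      _ = d * D := Real.sq_sqrt (by positivity)
  have h5 : ∫ x in a..(a + d), (f x - m) ^ 2 ≤ ∫ x in a..(a + d), d * D := by
    apply intervalIntegral.integral_mono_on had
    · apply Continuous.intervalIntegrable; fun_prop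
    · exact intervalIntegrable_const
    · exact hmean
  have h6 : ∫ x in a..(a + d), (f x - m) ^ 2 = (∫ x in a..(a + d), (f x) ^ 2) - 2 * m * I + d * m ^ 2 := by
    have h7 : ∀ x, (f x - m) ^ 2 = (f x) ^ 2 - 2 * m * f x + m ^ 2 := fun x => by ring
    simp_rw [h7]
    have i1 : IntervalIntegrable (fun x => (f x) ^ 2) volume a (a + d) := (hc0.pow 2).intervalIntegrable _ _
    have i2 : IntervalIntegrable (fun x => 2 * m * f x) volume a (a + d) := (hc0.intervalIntegrable _ _).const_mul _
    rw [intervalIntegral.integral_add (i1.sub i2) intervalIntegrable_const,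
      intervalIntegral.integral_sub i1 i2, intervalIntegral.integral_const_mul,
      intervalIntegral.integral_const, smul_eq_mul]
    ring
  rw [h6, intervalIntegral.integral_const, smul_eq_mul] at h5
  have h8 : (1 / d) * I ^ 2 = 2 * m * I - d * m ^ 2 := by rw [hm]; field_simp; ring
  rw [h8]
  nlinarith

/-- Bessel inequality for an interval and a frame. -/
theorem bessel_interval {k : ℕ} {f : Fin k → 𝓓(halfLine, ℝ)} (hf : IsFrame l2Form f) {a d : ℝ} (ha : 0 ≤ a)
    (hd : 0 < d) : ∑ i, (∫ x in a..(a + d), f i x) ^ 2 ≤ d := by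
  have had : a ≤ a + d := by linarith
  set c : Fin k → ℝ := fun i => ∫ x in a..(a + d), f i x with hc
  set F : 𝓓(halfLine, ℝ) := ∑ i, c i • f i with hF
  have hFx : ∀ x, F x = ∑ i, c i * f i x := by
    intro x
    rw [hF, _root_.sum_apply]
    rfl
  have hFc := test_continuous F
  have hmass : mass F = ∑ i, (c i) ^ 2 := by
    rw [← l2Form_self, hF, hf.b_sum]
    apply Finset.sum_congr rfl
    intro i _
    ring
  have hint : ∫ x in a..(a + d), F x = ∑ i, (c i) ^ 2 := by
    simp_rw [hFx]
    rw [intervalIntegral.integral_finsetSum]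
    · apply Finset.sum_congr rfl
      intro i _
      rw [intervalIntegral.integral_const_mul]
      simp only [hc]
      ring
    · intro i _
      exact ((test_continuous (f i)).intervalIntegrable _ _).const_mul _
  have hle : ∫ x in a..(a + d), (F x) ^ 2 ≤ mass F := by
    unfold mass
    rw [intervalIntegral.integral_of_le had]
    apply setIntegral_mono_set
    · have := integrableOn_test hFc F
      refine this.congr_fun (fun x _ => ?_) measurableSet_Ioi
      ring
    · filter_upwards with x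
      exact sq_nonneg _
    · apply LE.le.eventuallyLE
      intro x hx
      exact lt_of_le_of_lt ha hx.1
  have h0 : 0 ≤ ∫ x in a..(a + d), (1 - F x) ^ 2 :=
    intervalIntegral.integral_nonneg had (fun x _ => sq_nonneg _)
  have h1 : ∫ x in a..(a + d), (1 - F x) ^ 2 = d - 2 * (∫ x in a..(a + d), F x) + ∫ x in a..(a + d), (F x) ^ 2 := by
    have h7 : ∀ x, (1 - F x) ^ 2 = 1 - 2 * F x + (F x) ^ 2 := fun x => by ring
    simp_rw [h7]
    have i1 : IntervalIntegrable (fun x => (F x) ^ 2) volume a (a + d) := (hFc.pow 2).intervalIntegrable _ _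
    have i2 : IntervalIntegrable (fun x => 2 * F x) volume a (a + d) := (hFc.intervalIntegrable _ _).const_mul _
    rw [intervalIntegral.integral_add (intervalIntegrable_const.sub i2) i1,
      intervalIntegral.integral_sub intervalIntegrable_const i2, intervalIntegral.integral_const_mul,
      intervalIntegral.integral_const, smul_eq_mul]
    ring
  rw [h1, hint] at h0
  rw [hmass] at hle
  linarith

/-- Mass of a frame on the unit interval. -/
theorem mass_unit {k : ℕ} {f : Fin k → 𝓓(halfLine, ℝ)} (hf : IsFrame l2Form f) (N : ℕ) (hN : 0 < N) :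
    ∑ i, ∫ x in (0 : ℝ)..1, (f i x) ^ 2 ≤ N + totE f / (N : ℝ) ^ 2 := by
  have hNR : (0 : ℝ) < N := by exact_mod_cast hN
  set a : ℕ → ℝ := fun c => (c : ℝ) / N with ha
  have hsplit : ∀ g : ℝ → ℝ, Continuous g → ∫ x in (0 : ℝ)..1, g x =
      ∑ c ∈ Finset.range N, ∫ x in (a c)..(a c + 1 / N), g x := by
    intro g hg
    have hs := intervalIntegral.sum_integral_adjacent_intervals (f := g) (a := a)
      (n := N) (μ := volume) (fun r _ => hg.intervalIntegrable _ _)
    have h0 : a 0 = 0 := by simp [ha]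
    have h1 : a N = 1 := by simp [ha, hNR.ne']
    rw [h0, h1] at hs
    rw [← hs]
    apply Finset.sum_congr rfl
    intro c _
    have : a (c + 1) = a c + 1 / N := by simp only [ha]; push_cast; field_simp
    rw [this]
  have h1 : ∀ i ∈ (Finset.univ : Finset (Fin k)), ∫ x in (0 : ℝ)..1, (f i x) ^ 2 ≤
      (N : ℝ) * ∑ c ∈ Finset.range N, (∫ x in (a c)..(a c + 1 / N), f i x) ^ 2 +
      energy (f i) / (N : ℝ) ^ 2 := by
    intro i _
    have hE : ∫ x in (0 : ℝ)..1, (deriv (f i) x) ^ 2 ≤ energy (f i) := by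
      unfold energy
      rw [intervalIntegral.integral_of_le (by norm_num)]
      have hI : IntegrableOn (fun x => (deriv (f i) x) ^ 2 + x * (f i x) ^ 2) (Set.Ioi 0) := by
        refine (energy_integrable (f i) (f i)).congr_fun (fun x _ => ?_) measurableSet_Ioi
        ring
      have hI1 : IntegrableOn (fun x => (deriv (f i) x) ^ 2) (Set.Ioi 0) := by
        refine (integrableOn_test_deriv (test_deriv_continuous (f i)) (f i)).congr_fun (fun x _ => ?_) measurableSet_Ioi
        ring
      calc ∫ x in Set.Ioc (0 : ℝ) 1, (deriv (f i) x) ^ 2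
          ≤ ∫ x in Set.Ioi (0 : ℝ), (deriv (f i) x) ^ 2 := by
            apply setIntegral_mono_set hI1
            · filter_upwards with x
              exact sq_nonneg _
            · exact (LE.le.eventuallyLE (fun x hx => hx.1))
        _ ≤ _ := by
            apply setIntegral_mono_on hI1 hI measurableSet_Ioi
            intro x hx
            have : 0 < x := hx
            have : 0 ≤ x * (f i x) ^ 2 := by positivity
            linarith
    rw [hsplit (fun x => (f i x) ^ 2) ((test_continuous (f i)).pow 2)]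
    have h2 : ∀ c ∈ Finset.range N, ∫ x in (a c)..(a c + 1 / N), (f i x) ^ 2 ≤
        (N : ℝ) * (∫ x in (a c)..(a c + 1 / N), f i x) ^ 2 +
        (1 / (N : ℝ) ^ 2) * ∫ x in (a c)..(a c + 1 / N), (deriv (f i) x) ^ 2 := by
      intro c _
      have h3 := cell_estimate (f i) (a := a c) (d := 1 / N) (by positivity)
      rwa [one_div_one_div, div_pow, one_pow] at h3
    refine (Finset.sum_le_sum h2).trans ?_
    rw [Finset.sum_add_distrib, ← Finset.mul_sum, ← Finset.mul_sum,
      ← hsplit (fun x => (deriv (f i) x) ^ 2) ((test_deriv_continuous (f i)).pow 2)]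
    have h4 : (1 / (N : ℝ) ^ 2) * ∫ x in (0 : ℝ)..1, (deriv (f i) x) ^ 2 ≤ (1 / (N : ℝ) ^ 2) * energy (f i) :=
      mul_le_mul_of_nonneg_left hE (by positivity)
    have h5 : (1 / (N : ℝ) ^ 2) * energy (f i) = energy (f i) / (N : ℝ) ^ 2 := by ring
    linarith
  refine (Finset.sum_le_sum h1).trans ?_
  rw [Finset.sum_add_distrib, ← Finset.mul_sum, ← Finset.sum_div, Finset.sum_comm]
  have h2 : ∑ c ∈ Finset.range N, ∑ i, (∫ x in (a c)..(a c + 1 / N), f i x) ^ 2 ≤ 1 := by
    have h3 : ∀ c ∈ Finset.range N, ∑ i, (∫ x in (a c)..(a c + 1 / N), f i x) ^ 2 ≤ 1 / N := by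
      intro c _
      exact bessel_interval hf (by simp only [ha]; positivity) (by positivity)
    refine (Finset.sum_le_sum h3).trans ?_
    rw [Finset.sum_const, Finset.card_range, nsmul_eq_mul, mul_one_div, div_self hNR.ne']
  have h3 : (N : ℝ) * ∑ c ∈ Finset.range N, ∑ i, (∫ x in (a c)..(a c + 1 / N), f i x) ^ 2 ≤ N * 1 :=
    mul_le_mul_of_nonneg_left h2 hNR.le
  unfold totE
  linarith

/-- Mass of a frame in the middle region. -/
theorem mass_mid {k : ℕ} {f : Fin k → 𝓓(halfLine, ℝ)} (hf : IsFrame l2Form f) (N : ℕ) (hN : 0 < N)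
    (L : ℕ) (hL : 0 < L) :
    (k : ℝ) - N - totE f / (N : ℝ) ^ 2 - totE f / L ≤ ∫ x in Set.Ioc (1 : ℝ) L, rho f x := by
  have hNR : (0 : ℝ) < N := by exact_mod_cast hN
  have hLR : (1 : ℝ) ≤ L := by exact_mod_cast hL
  have hLR0 : (0 : ℝ) < L := by linarith
  have h1 := mass_unit hf N hN
  have hsq : ∀ i, IntegrableOn (fun x => (f i x) ^ 2) (Set.Ioi 0) := fun i => by
    have := integrableOn_test (test_continuous (f i)) (f i)
    refine this.congr_fun (fun x _ => ?_) measurableSet_Ioi
    ring
  have hxsq : ∀ i, IntegrableOn (fun x => x * (f i x) ^ 2) (Set.Ioi 0) := fun i => by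
    have := integrableOn_test (g := fun x => x * f i x) (continuous_id.mul (test_continuous (f i))) (f i)
    refine this.congr_fun (fun x _ => ?_) measurableSet_Ioi
    ring
  have htail : ∀ i, ∫ x in Set.Ioi (L : ℝ), (f i x) ^ 2 ≤ energy (f i) / L := by
    intro i
    rw [le_div_iff₀ hLR0]
    have hsub : Set.Ioi (L : ℝ) ⊆ Set.Ioi 0 := Set.Ioi_subset_Ioi hLR0.le
    calc (∫ x in Set.Ioi (L : ℝ), (f i x) ^ 2) * L = ∫ x in Set.Ioi (L : ℝ), (f i x) ^ 2 * L := by
          rw [integral_mul_const]
      _ ≤ ∫ x in Set.Ioi (L : ℝ), x * (f i x) ^ 2 := by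
          apply setIntegral_mono_on (((hsq i).mono_set hsub).mul_const _) ((hxsq i).mono_set hsub) measurableSet_Ioi
          intro x hx
          have hx' : (L : ℝ) < x := hx
          nlinarith [sq_nonneg (f i x)]
      _ ≤ ∫ x in Set.Ioi (0 : ℝ), x * (f i x) ^ 2 := by
          apply setIntegral_mono_set (hxsq i)
          · filter_upwards [ae_restrict_mem measurableSet_Ioi] with x hx
            have : 0 < x := hx
            show 0 ≤ x * (f i x) ^ 2
            positivity
          · exact LE.le.eventuallyLE hsub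
      _ ≤ energy (f i) := by
          unfold energy
          have hI : IntegrableOn (fun x => (deriv (f i) x) ^ 2 + x * (f i x) ^ 2) (Set.Ioi 0) := by
            refine (energy_integrable (f i) (f i)).congr_fun (fun x _ => ?_) measurableSet_Ioi
            ring
          apply setIntegral_mono_on (hxsq i) hI measurableSet_Ioi
          intro x _
          have : 0 ≤ (deriv (f i) x) ^ 2 := sq_nonneg _
          linarith
  have hmass : ∀ i, (1 : ℝ) = (∫ x in (0 : ℝ)..1, (f i x) ^ 2) + (∫ x in Set.Ioc (1 : ℝ) L, (f i x) ^ 2) +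
      ∫ x in Set.Ioi (L : ℝ), (f i x) ^ 2 := by
    intro i
    have h2 := frame_mass hf i
    refine h2.symm.trans ?_
    unfold mass
    rw [intervalIntegral.integral_of_le (by norm_num)]
    have e1 : Set.Ioi (0 : ℝ) = Set.Ioc (0 : ℝ) (L : ℝ) ∪ Set.Ioi (L : ℝ) := (Set.Ioc_union_Ioi_eq_Ioi hLR0.le).symm
    have e2 : Set.Ioc (0 : ℝ) (L : ℝ) = Set.Ioc (0 : ℝ) 1 ∪ Set.Ioc (1 : ℝ) (L : ℝ) := (Set.Ioc_union_Ioc_eq_Ioc (by norm_num) hLR).symm
    have i0 : IntegrableOn (fun x => (f i x) ^ 2) (Set.Ioc 0 (L : ℝ)) := (hsq i).mono_set (fun x hx => hx.1)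
    rw [e1, setIntegral_union (Set.Ioc_disjoint_Ioi le_rfl) measurableSet_Ioi i0
      ((hsq i).mono_set (Set.Ioi_subset_Ioi hLR0.le)), e2, setIntegral_union
      (Set.Ioc_disjoint_Ioc_of_le le_rfl) measurableSet_Ioc
      (i0.mono_set (Set.Ioc_subset_Ioc_right hLR)) (i0.mono_set (Set.Ioc_subset_Ioc_left (by norm_num)))]
  have hrho : ∫ x in Set.Ioc (1 : ℝ) L, rho f x = ∑ i, ∫ x in Set.Ioc (1 : ℝ) L, (f i x) ^ 2 := by
    simp_rw [rho_apply]
    rw [integral_finsetSum]
    intro i _
    exact (hsq i).mono_set (fun x hx => lt_trans one_pos hx.1)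
  rw [hrho]
  have hsum : (k : ℝ) = ∑ i : Fin k, ((∫ x in (0 : ℝ)..1, (f i x) ^ 2) + (∫ x in Set.Ioc (1 : ℝ) L, (f i x) ^ 2) +
      ∫ x in Set.Ioi (L : ℝ), (f i x) ^ 2) := by
    rw [← Finset.sum_congr rfl (fun i _ => hmass i)]
    simp
  rw [Finset.sum_add_distrib, Finset.sum_add_distrib] at hsum
  have htails : ∑ i, ∫ x in Set.Ioi (L : ℝ), (f i x) ^ 2 ≤ totE f / L := by
    unfold totE
    rw [Finset.sum_div]
    exact Finset.sum_le_sum (fun i _ => htail i)
  linarith

end Pool.Agent.Helper95
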