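import Mathlib
import Pool.Agent.Lib.Helper95.FrameMass
open MeasureTheory ProbabilityTheory Finset Filter Topology TopologicalSpace Set
open scoped NNReal ENNReal Distributions

namespace Pool.Agent.Helper95

/-- Near minimising frames have at least half of their mass in `(1, L]`. -/
theorem near_min_mass (C : ℝ) (hC : 0 < C) : ∃ (M K₀ : ℕ), 0 < M ∧ 8 ≤ K₀ ∧ ∀ (K k : ℕ), K₀ ≤ K → k = K ^ 3 →
    ∀ (T : 𝓓'(halfLine, ℝ)), FormBound T C → ∀ f : Fin k → 𝓓(halfLine, ℝ), IsFrame l2Form f →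
      totE f + 2 * T (rho f) ≤ airySum T k + 1 →
      (k : ℝ) / 2 ≤ ∫ x in Set.Ioc (1 : ℝ) ((8 * M * K ^ 2 : ℕ) : ℝ), rho f x := by
  obtain ⟨c, hc, hlow⟩ := exists_low_frame
  obtain ⟨M, hM⟩ := exists_nat_ge (3 * c + 4 * C + 2)
  have hMpos : (0 : ℝ) < M := by linarith
  have hMpos' : 0 < M := by exact_mod_cast hMpos
  refine ⟨M, max 8 (4 * M), hMpos', le_max_left _ _, ?_⟩
  intro K k hK hk T hT f hf hmin
  have hK8 : 8 ≤ K := (le_max_left _ _).trans hK
  have hK4 : 4 * M ≤ K := (le_max_right _ _).trans hK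
  have hK0 : 0 < K := by omega
  have hKR : (8 : ℝ) ≤ K := by exact_mod_cast hK8
  have hKM : 4 * (M : ℝ) ≤ K := by exact_mod_cast hK4
  have hKR0 : (0 : ℝ) < K := by linarith
  have hkR : (k : ℝ) = (K : ℝ) ^ 3 := by rw [hk]; push_cast; ring
  obtain ⟨g, hg, hgE⟩ := hlow K k hK0 hk
  have h1 := airySum_le hT hg
  have h2 := (abs_le.mp (formBound_frame hT hg)).2
  have h3 := (abs_le.mp (formBound_frame hT hf)).1
  have hK3 : (1 : ℝ) ≤ (K : ℝ) ^ 3 := one_le_pow₀ (by linarith)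
  have hK5 : (K : ℝ) ^ 3 ≤ (K : ℝ) ^ 5 := pow_le_pow_right₀ (by linarith) (by norm_num)
  have hE : totE f ≤ M * (K : ℝ) ^ 5 := by
    have h4 : totE f ≤ 3 * totE g + 4 * C * k + 2 := by linarith
    rw [hkR] at h4
    have h5 : (3 * c + 4 * C + 2) * (K : ℝ) ^ 5 ≤ M * (K : ℝ) ^ 5 := mul_le_mul_of_nonneg_right hM (by positivity)
    nlinarith
  have hmid := mass_mid hf (K ^ 2) (by positivity) (8 * M * K ^ 2) (by positivity)
  have h6 : totE f / ((K ^ 2 : ℕ) : ℝ) ^ 2 ≤ M * K := by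
    rw [div_le_iff₀ (by positivity)]
    push_cast
    calc totE f ≤ M * (K : ℝ) ^ 5 := hE
      _ = M * K * ((K : ℝ) ^ 2) ^ 2 := by ring
  have h7 : totE f / ((8 * M * K ^ 2 : ℕ) : ℝ) ≤ (K : ℝ) ^ 3 / 8 := by
    rw [div_le_iff₀ (by positivity)]
    push_cast
    calc totE f ≤ M * (K : ℝ) ^ 5 := hE
      _ = (K : ℝ) ^ 3 / 8 * (8 * M * (K : ℝ) ^ 2) := by ring
  have h8 : ((K ^ 2 : ℕ) : ℝ) ≤ (K : ℝ) ^ 3 / 8 := by
    push_cast
    nlinarith [pow_pos hKR0 2]
  have h9 : (M : ℝ) * K ≤ (K : ℝ) ^ 3 / 8 := by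
    have h10 : (M : ℝ) * K ≤ (K : ℝ) * K / 4 := by nlinarith
    have h11 : (K : ℝ) * K / 4 ≤ (K : ℝ) ^ 3 / 8 := by nlinarith [pow_pos hKR0 2]
    linarith
  rw [hkR] at hmid ⊢
  have h12 : 0 < (K : ℝ) ^ 3 := by positivity
  linarith

/-- The weight functional. -/
noncomputable def wfun (h : ℝ) (L : ℕ) (F : 𝓓(halfLine, ℝ)) : ℝ :=
  ∫ x in Set.Ioi 0, (1 - Real.exp (-h * x)) * (F x * stepTest 0 0 L x)

theorem plateau {L : ℕ} {x : ℝ} (hx : x ∈ Set.Ioc (1 : ℝ) L) : stepTest 0 0 L x = 1 := by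
  have h1 := hx.1
  have h2 := hx.2
  rw [stepTest_apply, stepFun, sstep_one (by push_cast; linarith), sstep_zero (by push_cast; linarith), sub_zero]

theorem wfun_integrable (h : ℝ) (L : ℕ) (F : 𝓓(halfLine, ℝ)) :
    IntegrableOn (fun x => (1 - Real.exp (-h * x)) * (F x * stepTest 0 0 L x)) (Set.Ioi 0) := by
  have hc := test_continuous (stepTest 0 0 L)
  have := integrableOn_test (g := fun x => (1 - Real.exp (-h * x)) * stepTest 0 0 L x) (by fun_prop) F
  refine this.congr_fun (fun x _ => ?_) measurableSet_Ioi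
  ring

theorem wfun_lower {h : ℝ} (hh : 0 < h) (L : ℕ) (F : 𝓓(halfLine, ℝ)) (hF : ∀ x, 0 ≤ F x) :
    (1 - Real.exp (-h)) * ∫ x in Set.Ioc (1 : ℝ) L, F x ≤ wfun h L F := by
  rw [← integral_const_mul]
  unfold wfun
  have hFi : IntegrableOn F (Set.Ioc (1 : ℝ) L) := by
    have := integrable_of_compact (test_continuous F) F.hasCompactSupport
    exact this.mono_set (fun x hx => lt_trans one_pos hx.1)
  calc ∫ x in Set.Ioc (1 : ℝ) L, (1 - Real.exp (-h)) * F x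
      ≤ ∫ x in Set.Ioc (1 : ℝ) L, (1 - Real.exp (-h * x)) * (F x * stepTest 0 0 L x) := by
        apply setIntegral_mono_on (hFi.const_mul _)
          ((wfun_integrable h L F).mono_set (fun x hx => lt_trans one_pos hx.1)) measurableSet_Ioc
        intro x hx
        rw [plateau hx, mul_one]
        apply mul_le_mul_of_nonneg_right _ (hF x)
        have : Real.exp (-h * x) ≤ Real.exp (-h) := Real.exp_le_exp.mpr (by nlinarith [hx.1])
        linarith
    _ ≤ _ := by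
        apply setIntegral_mono_set (wfun_integrable h L F)
        · filter_upwards [ae_restrict_mem measurableSet_Ioi] with x hx
          have hx' : 0 < x := hx
          have h1 : Real.exp (-h * x) ≤ 1 := Real.exp_le_one_iff.mpr (by nlinarith)
          have h2 := stepFun_mono_sub (N := 0) (Nat.zero_le L) x
          have h3 : 0 ≤ stepTest 0 0 L x := h2.1
          exact mul_nonneg (by linarith) (mul_nonneg (hF x) h3)
        · exact LE.le.eventuallyLE (fun x hx => lt_trans one_pos hx.1)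

theorem wfun_nonneg {h : ℝ} (hh : 0 < h) (L : ℕ) (F : 𝓓(halfLine, ℝ)) (hF : ∀ x, 0 ≤ F x) : 0 ≤ wfun h L F := by
  unfold wfun
  apply setIntegral_nonneg measurableSet_Ioi
  intro x hx
  have hx' : 0 < x := hx
  have h1 : Real.exp (-h * x) ≤ 1 := Real.exp_le_one_iff.mpr (by nlinarith)
  have h2 := stepFun_mono_sub (N := 0) (Nat.zero_le L) x
  have h3 : 0 ≤ stepTest 0 0 L x := h2.1
  exact mul_nonneg (by linarith) (mul_nonneg (hF x) h3)

theorem wfun_self_le (h : ℝ) (L : ℕ) : wfun h L (stepTest 0 0 L) ≤ (L : ℝ) + 1 := by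
  have h1 := step_l2 0 0 L (Nat.zero_le L)
  have h2 : ∫ x in Set.Ioi 0, (stepTest 0 0 L x) ^ 2 ≤ (L : ℝ) + 1 := by
    refine h1.trans (le_of_eq ?_)
    push_cast; ring
  refine le_trans ?_ h2
  unfold wfun
  have hI : IntegrableOn (fun x => (stepTest 0 0 L x) ^ 2) (Set.Ioi 0) := by
    have := integrableOn_test (test_continuous (stepTest 0 0 L)) (stepTest 0 0 L)
    refine this.congr_fun (fun x _ => ?_) measurableSet_Ioi
    ring
  apply setIntegral_mono_on (wfun_integrable h L _) hI measurableSet_Ioi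
  intro x hx
  have hx' : 0 < x := hx
  have h1 : 0 < Real.exp (-h * x) := Real.exp_pos _
  nlinarith [sq_nonneg (stepTest 0 0 L x), mul_nonneg h1.le (sq_nonneg (stepTest 0 0 L x))]

theorem wfun_self_pos {h : ℝ} (hh : 0 < h) {L : ℕ} (hL : 2 ≤ L) : 0 < wfun h L (stepTest 0 0 L) := by
  have hLR : (2 : ℝ) ≤ L := by exact_mod_cast hL
  have h1 := wfun_lower hh L (stepTest 0 0 L) (fun x => (stepFun_mono_sub (N := 0) (Nat.zero_le L) x).1)
  have h2 : ∫ x in Set.Ioc (1 : ℝ) L, stepTest 0 0 L x = (L : ℝ) - 1 := by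
    rw [setIntegral_congr_fun measurableSet_Ioc (g := fun _ => (1 : ℝ)) (fun x hx => plateau hx)]
    rw [setIntegral_const, smul_eq_mul, mul_one, measureReal_def, Real.volume_Ioc,
      ENNReal.toReal_ofReal (by linarith)]
  rw [h2] at h1
  have h3 : Real.exp (-h) < 1 := Real.exp_lt_one_iff.mpr (by linarith)
  have h4 : 0 < (1 - Real.exp (-h)) * ((L : ℝ) - 1) := mul_pos (by linarith) (by linarith)
  linarith

theorem wfun_add (h : ℝ) (L : ℕ) (F G : 𝓓(halfLine, ℝ)) : wfun h L (F + G) = wfun h L F + wfun h L G := by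
  unfold wfun
  rw [← integral_add (wfun_integrable h L F) (wfun_integrable h L G)]
  congr 1; funext x
  show _ * ((F x + G x) * _) = _
  ring

/-! ### Ornstein–Uhlenbeck space-time white noise -/

/-- Ornstein–Uhlenbeck space-time white noise on the half line with parameter `a`. -/
structure IsOUWhiteNoise {Ω : Type*} [MeasurableSpace Ω] (P : Measure Ω) (a : ℝ)
    (ξ : ℝ≥0 → Ω → 𝓓'(halfLine, ℝ)) : Prop where
  gaussian : IsGaussianProcess (fun (p : ℝ≥0 × 𝓓(halfLine, ℝ)) ω => ξ p.1 ω p.2) P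
  mean_zero : ∀ (t : ℝ≥0) (F : 𝓓(halfLine, ℝ)), ∫ ω, ξ t ω F ∂P = 0
  cov : ∀ (s t : ℝ≥0) (F G : 𝓓(halfLine, ℝ)), ∫ ω, ξ s ω F * ξ t ω G ∂P =
    ∫ x in Set.Ioi 0, Real.exp (-a * |(s : ℝ) - t| * x) * (F x * G x)

section OU
variable {Ω : Type*} [MeasurableSpace Ω] {P : Measure Ω} {a : ℝ} {ξ : ℝ≥0 → Ω → 𝓓'(halfLine, ℝ)}

theorem IsOUWhiteNoise.aemeas (hξ : IsOUWhiteNoise P a ξ) (t : ℝ≥0) (F : 𝓓(halfLine, ℝ)) :
    AEMeasurable (fun ω => ξ t ω F) P := (hξ.gaussian.hasGaussianLaw_eval (t, F)).aemeasurable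

theorem IsOUWhiteNoise.memLp (hξ : IsOUWhiteNoise P a ξ) (t : ℝ≥0) (F : 𝓓(halfLine, ℝ)) :
    MemLp (fun ω => ξ t ω F) 2 P := (hξ.gaussian.hasGaussianLaw_eval (t, F)).memLp_two

theorem IsOUWhiteNoise.isWhite (hξ : IsOUWhiteNoise P a ξ) (t : ℝ≥0) : IsWhite P (ξ t) := by
  refine ⟨hξ.aemeas t, fun F => ?_⟩
  have hG := hξ.gaussian.hasGaussianLaw_eval (t, F)
  have h1 := hG.map_eq_gaussianReal
  rw [h1, hξ.mean_zero t F]
  congr 1
  rw [variance_of_integral_eq_zero (hξ.aemeas t F) (hξ.mean_zero t F)]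
  have h2 := hξ.cov t t F F
  congr 1
  have h3 : ∫ ω, (ξ t ω F) ^ 2 ∂P = ∫ ω, ξ t ω F * ξ t ω F ∂P := by
    congr 1; funext ω; ring
  rw [h3, h2]
  congr 1; funext x
  rw [sub_self, abs_zero, mul_zero, zero_mul, Real.exp_zero]
  ring

end OU

end Pool.Agent.Helper95
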