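import Mathlib
import Pool.Agent.Lib.Helper95.OUNoise
import Pool.Agent.Lib.Helper95.GOEIncrement
open MeasureTheory ProbabilityTheory Finset Filter Topology TopologicalSpace Set
open scoped NNReal ENNReal Distributions

namespace Pool.Agent.Helper95

/-- Reflection principle: an independent symmetric coordinate can be reflected. -/
theorem reflect_law {Ω ι : Type*} [Countable ι] [MeasurableSpace Ω] {P : Measure Ω}
    {Y : ι → Ω → ℝ} {Z : Ω → ℝ} (hG : IsGaussianProcess (Sum.elim Y (fun _ : Unit => Z)) P)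
    (hcov : ∀ i, cov[Y i, Z; P] = 0) (hmean : ∫ ω, Z ω ∂P = 0) :
    P.map (fun ω => ((fun i => Y i ω), Z ω)) = P.map (fun ω => ((fun i => Y i ω), -Z ω)) := by
  have := hG.isProbabilityMeasure
  have hY : ∀ i, AEMeasurable (Y i) P := fun i => (hG.hasGaussianLaw_eval (Sum.inl i)).aemeasurable
  have hZg : HasGaussianLaw Z P := hG.hasGaussianLaw_eval (Sum.inr ())
  have hZ : AEMeasurable Z P := hZg.aemeasurable
  have hYall : AEMeasurable (fun ω i => Y i ω) P := aemeasurable_pi_iff.mpr hY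
  have hind := hG.indepFun_of_covariance_eq_zero hY (fun _ => hZ) (fun i _ => hcov i)
  have h1 : IndepFun (fun ω i => Y i ω) Z P := by
    have hev : Measurable (fun z : Unit → ℝ => z ()) := measurable_pi_apply ()
    have := hind.comp (φ := fun x => x) (ψ := fun z : Unit → ℝ => z ()) measurable_id hev
    exact this
  have h2 : IndepFun (fun ω i => Y i ω) (fun ω => -Z ω) P := by
    have := h1.comp (φ := fun x => x) (ψ := fun z : ℝ => -z) measurable_id measurable_neg
    exact this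
  have hZn : AEMeasurable (fun ω => -Z ω) P := hZ.neg
  rw [h1.map_prod_eq_prod_map_map hYall hZ, h2.map_prod_eq_prod_map_map hYall hZn]
  congr 1
  have h3 : P.map (fun ω => -Z ω) = (P.map Z).map (fun x => -x) := by
    rw [AEMeasurable.map_map_of_aemeasurable (by fun_prop) hZ]
    rfl
  rw [h3, hZg.map_eq_gaussianReal, hmean, gaussianReal_map_neg, neg_zero]

section OU
variable {Ω : Type*} [MeasurableSpace Ω] {P : Measure Ω} {a : ℝ} {ξ : ℝ≥0 → Ω → 𝓓'(halfLine, ℝ)}

theorem IsOUWhiteNoise.pair_gaussian (hξ : IsOUWhiteNoise P a ξ) {s t : ℝ≥0} (hst : s ≠ t) {ι : Type*}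
    (A B : ι → 𝓓(halfLine, ℝ)) :
    IsGaussianProcess (fun (i : ι) ω => ξ t ω (A i) + ξ s ω (B i)) P := by
  classical
  have h := gp_lin hξ.gaussian (S := ι) (fun i => {(t, A i), (s, B i)}) (fun _ _ => 1)
  have he : (fun (i : ι) ω => ∑ p ∈ ({(t, A i), (s, B i)} : Finset (ℝ≥0 × 𝓓(halfLine, ℝ))), (1 : ℝ) * ξ p.1 ω p.2) =
      (fun (i : ι) ω => ξ t ω (A i) + ξ s ω (B i)) := by
    funext i ω
    rw [Finset.sum_pair]
    · simp
    · intro hcon
      exact hst (congrArg Prod.fst hcon).symm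
  rw [he] at h
  exact h

theorem IsOUWhiteNoise.cov_pair (hξ : IsOUWhiteNoise P a ξ) (s t : ℝ≥0) (A B C D : 𝓓(halfLine, ℝ)) :
    cov[fun ω => ξ t ω A + ξ s ω B, fun ω => ξ t ω C + ξ s ω D; P] =
      l2Form A C + l2Form B D +
      (∫ x in Set.Ioi 0, Real.exp (-a * |(s : ℝ) - t| * x) * (A x * D x)) +
      ∫ x in Set.Ioi 0, Real.exp (-a * |(s : ℝ) - t| * x) * (B x * C x) := by
  have := hξ.gaussian.isProbabilityMeasure
  have m1 := hξ.memLp t A
  have m2 := hξ.memLp s B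
  have m3 := hξ.memLp t C
  have m4 := hξ.memLp s D
  have hc := covariance_eq_sub (μ := P) (X := fun ω => ξ t ω A + ξ s ω B) (Y := fun ω => ξ t ω C + ξ s ω D)
    (m1.add m2) (m3.add m4)
  rw [hc]
  have z1 : ∫ ω, (ξ t ω A + ξ s ω B) ∂P = 0 := by
    rw [integral_add (m1.integrable (by norm_num)) (m2.integrable (by norm_num)), hξ.mean_zero, hξ.mean_zero, add_zero]
  have z2 : ∫ ω, (ξ t ω C + ξ s ω D) ∂P = 0 := by
    rw [integral_add (m3.integrable (by norm_num)) (m4.integrable (by norm_num)), hξ.mean_zero, hξ.mean_zero, add_zero]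
  have e : ∫ ω, (ξ t ω A + ξ s ω B) * (ξ t ω C + ξ s ω D) ∂P =
      (∫ ω, ξ t ω A * ξ t ω C ∂P) + (∫ ω, ξ s ω B * ξ s ω D ∂P) + (∫ ω, ξ t ω A * ξ s ω D ∂P) +
      ∫ ω, ξ s ω B * ξ t ω C ∂P := by
    have i1 : Integrable (fun ω => ξ t ω A * ξ t ω C) P := m1.integrable_mul m3
    have i2 : Integrable (fun ω => ξ s ω B * ξ s ω D) P := m2.integrable_mul m4
    have i3 : Integrable (fun ω => ξ t ω A * ξ s ω D) P := m1.integrable_mul m4
    have i4 : Integrable (fun ω => ξ s ω B * ξ t ω C) P := m2.integrable_mul m3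
    have s1 : Integrable (fun ω => ξ t ω A * ξ t ω C + ξ s ω B * ξ s ω D) P := i1.add i2
    have s2 : Integrable (fun ω => ξ t ω A * ξ t ω C + ξ s ω B * ξ s ω D + ξ t ω A * ξ s ω D) P := s1.add i3
    rw [← integral_add i1 i2, ← integral_add s1 i3, ← integral_add s2 i4]
    congr 1; funext ω
    ring
  have e' : ∫ ω, ((fun ω => ξ t ω A + ξ s ω B) * (fun ω => ξ t ω C + ξ s ω D)) ω ∂P =
      ∫ ω, (ξ t ω A + ξ s ω B) * (ξ t ω C + ξ s ω D) ∂P := rfl
  rw [e', e, z1, zero_mul, sub_zero, hξ.cov, hξ.cov, hξ.cov, hξ.cov]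
  rw [abs_sub_comm (t : ℝ) s]
  congr 2
  congr 1
  · rw [l2Form_apply]
    congr 1; funext x
    rw [sub_self, abs_zero, mul_zero, zero_mul, Real.exp_zero, one_mul]
  · rw [l2Form_apply]
    congr 1; funext x
    rw [sub_self, abs_zero, mul_zero, zero_mul, Real.exp_zero, one_mul]

end OU

end Pool.Agent.Helper95
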