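import Mathlib
import Pool.Agent.Lib.Helper95.Reflect
open MeasureTheory ProbabilityTheory Finset Filter Topology TopologicalSpace Set
open scoped NNReal ENNReal Distributions

namespace Pool.Agent.Helper95

/-- The pairing weighted by `exp (-h x)`. -/
noncomputable def expForm (h : ℝ) : 𝓓(halfLine, ℝ) →ₗ[ℝ] 𝓓(halfLine, ℝ) →ₗ[ℝ] ℝ :=
  LinearMap.mk₂ ℝ (fun f g => ∫ x in Set.Ioi 0, Real.exp (-h * x) * (f x * g x))
    (by
      intro f₁ f₂ g
      have hi : ∀ f : 𝓓(halfLine, ℝ), IntegrableOn (fun x => Real.exp (-h * x) * (f x * g x)) (Set.Ioi 0) := fun f => by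
        have hc := test_continuous g
        have := integrableOn_test (g := fun x => Real.exp (-h * x) * g x) (by fun_prop) f
        exact this.congr_fun (fun x _ => by ring) measurableSet_Ioi
      rw [← integral_add (hi f₁) (hi f₂)]
      congr 1; funext x
      show _ * ((f₁ x + f₂ x) * g x) = _
      ring)
    (by
      intro c f g
      rw [smul_eq_mul, ← integral_const_mul]
      congr 1; funext x
      show _ * ((c * f x) * g x) = _
      ring)
    (by
      intro f g₁ g₂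
      have hi : ∀ g : 𝓓(halfLine, ℝ), IntegrableOn (fun x => Real.exp (-h * x) * (f x * g x)) (Set.Ioi 0) := fun g => by
        have hc := test_continuous g
        have := integrableOn_test (g := fun x => Real.exp (-h * x) * g x) (by fun_prop) f
        exact this.congr_fun (fun x _ => by ring) measurableSet_Ioi
      rw [← integral_add (hi g₁) (hi g₂)]
      congr 1; funext x
      show _ * (f x * (g₁ x + g₂ x)) = _
      ring)
    (by
      intro c f g
      rw [smul_eq_mul, ← integral_const_mul]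
      congr 1; funext x
      show _ * (f x * (c * g x)) = _
      ring)

theorem expForm_apply (h : ℝ) (f g : 𝓓(halfLine, ℝ)) :
    expForm h f g = ∫ x in Set.Ioi 0, Real.exp (-h * x) * (f x * g x) := rfl

theorem wfun_eq (h : ℝ) (L : ℕ) (F : 𝓓(halfLine, ℝ)) :
    wfun h L F = l2Form F (stepTest 0 0 L) - expForm h F (stepTest 0 0 L) := by
  rw [l2Form_apply, expForm_apply]
  have hc := test_continuous (stepTest 0 0 L)
  have h1 := integrableOn_test hc F
  have h2 : IntegrableOn (fun x => Real.exp (-h * x) * (F x * stepTest 0 0 L x)) (Set.Ioi 0) := by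
    have := integrableOn_test (g := fun x => Real.exp (-h * x) * stepTest 0 0 L x) (by fun_prop) F
    exact this.congr_fun (fun x _ => by ring) measurableSet_Ioi
  rw [← integral_sub h1 h2]
  unfold wfun
  congr 1; funext x
  ring

theorem expForm_symm (h : ℝ) (f g : 𝓓(halfLine, ℝ)) : expForm h f g = expForm h g f := by
  rw [expForm_apply, expForm_apply]; congr 1; funext x; ring

theorem gaussian_tail_pos : 0 < gaussianReal 0 1 (Set.Ioi 1) := by
  rw [pos_iff_ne_zero]
  intro h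
  have := gaussianReal_absolutelyContinuous' 0 (v := 1) one_ne_zero h
  simp at this

theorem gaussian_tail_scale {Ω : Type*} [MeasurableSpace Ω] {P : Measure Ω} {Z : Ω → ℝ} (hZ : AEMeasurable Z P)
    {v : ℝ} (hv : 0 < v) (hlaw : P.map Z = gaussianReal 0 (Real.toNNReal v)) :
    P {ω | √v < Z ω} = gaussianReal 0 1 (Set.Ioi 1) := by
  have h1 : gaussianReal 0 1 = (P.map Z).map (fun x => x / √v) := by
    rw [hlaw, gaussianReal_map_div_const]
    congr 1
    · simp
    · ext
      simp only [NNReal.coe_one, NNReal.coe_div, Real.coe_toNNReal v hv.le, NNReal.coe_mk]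
      rw [Real.sq_sqrt hv.le, div_self hv.ne']
  have hs : 0 < √v := Real.sqrt_pos.mpr hv
  rw [h1, AEMeasurable.map_map_of_aemeasurable (by fun_prop) hZ, Measure.map_apply_of_aemeasurable
    (by fun_prop) measurableSet_Ioi]
  congr 1
  ext ω
  simp only [Set.mem_preimage, Function.comp_apply, Set.mem_Ioi, Set.mem_ofPred_eq]
  rw [lt_div_iff₀ hs, one_mul]

/-- Almost surely the noise satisfies some form bound. -/
theorem ae_formBound {Ω : Type*} [MeasurableSpace Ω] {P : Measure Ω} {T : Ω → 𝓓'(halfLine, ℝ)}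
    (hT : IsWhite P T) : ∀ᵐ ω ∂P, ∃ C, FormBound (T ω) C := by
  rw [ae_iff]
  apply le_antisymm _ zero_le
  apply le_of_forall_pos_le_add
  intro ε hε
  rw [zero_add]
  by_cases hεt : ε = ⊤
  · rw [hεt]; exact le_top
  have hε' : 0 < ε.toReal := ENNReal.toReal_pos hε.ne' hεt
  obtain ⟨C, _, hC⟩ := formBound_prob hε'
  refine (measure_mono ?_).trans ((hC hT).trans (ENNReal.ofReal_toReal hεt).le)
  intro ω hω hcon
  exact hω ⟨C, hcon⟩

section OU
variable {Ω : Type*} [MeasurableSpace Ω] {P : Measure Ω} {a : ℝ} {ξ : ℝ≥0 → Ω → 𝓓'(halfLine, ℝ)}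

theorem airySum_eq_iInf {k : ℕ} {D : Set {f : Fin k → 𝓓(halfLine, ℝ) // IsFrame l2Form f}} (hne : D.Nonempty)
    (hD : ∀ (T : 𝓓'(halfLine, ℝ)) (C : ℝ), FormBound T C →
        (∀ ε : ℝ, 0 < ε → ∃ f ∈ D, totE f.1 + 2 * T (rho f.1) ≤ airySum T k + ε))
    {T : 𝓓'(halfLine, ℝ)} {C : ℝ} (hT : FormBound T C) :
    BddBelow (Set.range (fun f : D => totE f.1.1 + 2 * T (rho f.1.1))) ∧
      airySum T k = ⨅ f : D, (totE f.1.1 + 2 * T (rho f.1.1)) := by
  have hb : ∀ f : D, airySum T k ≤ totE f.1.1 + 2 * T (rho f.1.1) := fun f => airySum_le hT f.1.2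
  have hbdd : BddBelow (Set.range (fun f : D => totE f.1.1 + 2 * T (rho f.1.1))) :=
    ⟨airySum T k, by rintro _ ⟨f, rfl⟩; exact hb f⟩
  refine ⟨hbdd, le_antisymm ?_ ?_⟩
  · have : Nonempty D := hne.to_subtype
    exact le_ciInf hb
  · apply le_of_forall_pos_le_add
    intro ε hε
    obtain ⟨f, hf, hfe⟩ := hD T C hT ε hε
    exact (ciInf_le hbdd (⟨f, hf⟩ : D)).trans hfe

/-- Deterministic comparison behind the reflection argument. -/
theorem reflect_compare {ι : Type*} [Nonempty ι] (e c : ι → ℝ) (hc : ∀ i, 0 ≤ c i) (y y' : ι → ℝ) (z : ℝ) (hz : 0 < z)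
    (b1 : BddBelow (Set.range (fun i => e i + 2 * (y i - c i * z))))
    (b2 : BddBelow (Set.range (fun i => e i + 2 * (y' i - c i * z))))
    {m : ℝ} (hm : ∀ i, e i + 2 * (y i + c i * z) ≤ (⨅ i, (e i + 2 * (y i + c i * z))) + 1 → m ≤ c i) :
    4 * m * z ≤ ((⨅ i, (e i + 2 * (y i + c i * z))) - ⨅ i, (e i + 2 * (y' i - c i * z))) -
      ((⨅ i, (e i + 2 * (y i - c i * z))) - ⨅ i, (e i + 2 * (y' i + c i * z))) := by
  have h1 : (⨅ i, (e i + 2 * (y' i - c i * z))) ≤ ⨅ i, (e i + 2 * (y' i + c i * z)) := by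
    apply ciInf_mono b2
    intro i
    have := mul_nonneg (hc i) hz.le
    linarith
  have h2 : (⨅ i, (e i + 2 * (y i - c i * z))) + 4 * m * z ≤ ⨅ i, (e i + 2 * (y i + c i * z)) := by
    apply le_of_forall_pos_le_add
    intro ε hε
    obtain ⟨i, hi⟩ := exists_lt_of_ciInf_lt (show (⨅ i, (e i + 2 * (y i + c i * z))) <
      (⨅ i, (e i + 2 * (y i + c i * z))) + min ε 1 by
        have : 0 < min ε 1 := lt_min hε one_pos
        linarith)
    have h3 : m ≤ c i := hm i (by
      have := min_le_right ε 1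
      linarith)
    have h4 := ciInf_le b1 i
    have h5 := min_le_left ε 1
    have h6 := mul_le_mul_of_nonneg_right h3 hz.le
    linarith
  linarith

/-- The main probabilistic estimate at a fixed scale. -/
theorem increment_core (hξ : IsOUWhiteNoise P a ξ) (ha : 0 < a) {s t : ℝ≥0} (hst : s ≠ t)
    {k : ℕ} {D : Set {f : Fin k → 𝓓(halfLine, ℝ) // IsFrame l2Form f}} (hDc : D.Countable) (hne : D.Nonempty)
    (hD : ∀ (T : 𝓓'(halfLine, ℝ)) (C : ℝ), FormBound T C →
        (∀ ε : ℝ, 0 < ε → ∃ f ∈ D, totE f.1 + 2 * T (rho f.1) ≤ airySum T k + ε))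
    {L : ℕ} (hL : 2 ≤ L) {C δ : ℝ}
    (hC : P {ω | ¬ FormBound (ξ t ω) C} ≤ ENNReal.ofReal δ)
    (hmass : ∀ (T : 𝓓'(halfLine, ℝ)), FormBound T C → ∀ f : Fin k → 𝓓(halfLine, ℝ), IsFrame l2Form f →
      totE f + 2 * T (rho f) ≤ airySum T k + 1 → (k : ℝ) / 2 ≤ ∫ x in Set.Ioc (1 : ℝ) L, rho f x) :
    gaussianReal 0 1 (Set.Ioi 1) - ENNReal.ofReal δ ≤
      2 * P {ω | (1 - Real.exp (-(a * |(s : ℝ) - t|))) * k / √(2 * ((L : ℝ) + 1)) ≤
        |airySum (ξ t ω) k - airySum (ξ s ω) k|} := by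
  have hprob := hξ.gaussian.isProbabilityMeasure
  set h : ℝ := a * |(s : ℝ) - t| with hh
  have hst' : (s : ℝ) ≠ t := fun h => hst (NNReal.coe_injective h)
  have hh0 : 0 < h := mul_pos ha (abs_pos.mpr (sub_ne_zero.mpr hst'))
  have hexp : ∀ F G : 𝓓(halfLine, ℝ), ∫ x in Set.Ioi 0, Real.exp (-a * |(s : ℝ) - t| * x) * (F x * G x) =
      expForm h F G := by
    intro F G
    rw [expForm_apply]
    congr 1; funext x
    congr 2
    rw [hh]; ring
  set u := stepTest 0 0 L with hu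
  set V := wfun h L u with hV
  have hV0 : 0 < V := wfun_self_pos hh0 hL
  have hVL : V ≤ (L : ℝ) + 1 := wfun_self_le h L
  have hVeq : V = l2Form u u - expForm h u u := wfun_eq h L u
  -- the reflected Gaussian variable
  set Z : Ω → ℝ := fun ω => ξ t ω u + ξ s ω (-u) with hZ
  set c : D → ℝ := fun f => wfun h L (rho f.1.1) / (2 * V) with hc
  have hrho0 : ∀ f : Fin k → 𝓓(halfLine, ℝ), ∀ x, 0 ≤ rho f x := by
    intro f x
    rw [rho_apply]
    exact Finset.sum_nonneg (fun i _ => sq_nonneg _)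
  have hc0 : ∀ f, 0 ≤ c f := fun f => div_nonneg (wfun_nonneg hh0 L _ (hrho0 _)) (by positivity)
  set A : D ⊕ D → 𝓓(halfLine, ℝ) := Sum.elim (fun f => rho f.1.1 - c f • u) (fun f => c f • u) with hA
  set B : D ⊕ D → 𝓓(halfLine, ℝ) := Sum.elim (fun f => c f • u) (fun f => rho f.1.1 - c f • u) with hB
  set Y : D ⊕ D → Ω → ℝ := fun i ω => ξ t ω (A i) + ξ s ω (B i) with hY
  have hYl : ∀ f ω, Y (Sum.inl f) ω = ξ t ω (rho f.1.1) - c f * Z ω := by
    intro f ω
    simp only [hY, hA, hB, hZ, Sum.elim_inl, map_sub, map_smul, map_neg, smul_eq_mul]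
    ring
  have hYr : ∀ f ω, Y (Sum.inr f) ω = ξ s ω (rho f.1.1) + c f * Z ω := by
    intro f ω
    simp only [hY, hA, hB, hZ, Sum.elim_inr, map_sub, map_smul, map_neg, smul_eq_mul]
    ring
  have hGauss : IsGaussianProcess (Sum.elim Y (fun _ : Unit => Z)) P := by
    have h1 := hξ.pair_gaussian hst (ι := (D ⊕ D) ⊕ Unit) (Sum.elim A (fun _ => u)) (Sum.elim B (fun _ => -u))
    have h2 : (fun (i : (D ⊕ D) ⊕ Unit) ω => ξ t ω ((Sum.elim A (fun _ => u) : (D ⊕ D) ⊕ Unit → _) i) +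
        ξ s ω ((Sum.elim B (fun _ => -u) : (D ⊕ D) ⊕ Unit → _) i)) = Sum.elim Y (fun _ : Unit => Z) := by
      funext i
      rcases i with i | i <;> rfl
    rw [h2] at h1
    exact h1
  have hcovF : ∀ F : 𝓓(halfLine, ℝ), wfun h L F = l2Form F u - expForm h F u := fun F => wfun_eq h L F
  have hcov : ∀ i, cov[Y i, Z; P] = 0 := by
    intro i
    have h1 := hξ.cov_pair s t (A i) (B i) u (-u)
    rw [hexp, hexp] at h1
    have h2 : cov[Y i, Z; P] = cov[fun ω => ξ t ω (A i) + ξ s ω (B i), fun ω => ξ t ω u + ξ s ω (-u); P] := rfl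
    rw [h2, h1]
    rcases i with f | f
    · simp only [hA, hB, Sum.elim_inl, map_sub, map_smul, map_neg, LinearMap.sub_apply, LinearMap.smul_apply,
        smul_eq_mul]
      have h3 : c f * (2 * V) = l2Form (rho f.1.1) u - expForm h (rho f.1.1) u := by
        rw [← hcovF]; simp only [hc]; field_simp
      rw [hVeq] at h3
      linarith
    · simp only [hA, hB, Sum.elim_inr, map_sub, map_smul, map_neg, LinearMap.sub_apply, LinearMap.smul_apply,
        smul_eq_mul]
      have h3 : c f * (2 * V) = l2Form (rho f.1.1) u - expForm h (rho f.1.1) u := by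
        rw [← hcovF]; simp only [hc]; field_simp
      rw [hVeq] at h3
      linarith
  have hZmean : ∫ ω, Z ω ∂P = 0 := by
    simp only [hZ]
    rw [integral_add ((hξ.memLp t u).integrable (by norm_num)) ((hξ.memLp s (-u)).integrable (by norm_num)),
      hξ.mean_zero, hξ.mean_zero, add_zero]
  have hZg : HasGaussianLaw Z P := hGauss.hasGaussianLaw_eval (Sum.inr ())
  have hZm : AEMeasurable Z P := hZg.aemeasurable
  have hZlaw : P.map Z = gaussianReal 0 (Real.toNNReal (2 * V)) := by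
    rw [hZg.map_eq_gaussianReal, hZmean]
    congr 2
    rw [← covariance_self hZm]
    have h1 := hξ.cov_pair s t u (-u) u (-u)
    rw [hexp, hexp] at h1
    have h2 : cov[Z, Z; P] = cov[fun ω => ξ t ω u + ξ s ω (-u), fun ω => ξ t ω u + ξ s ω (-u); P] := rfl
    rw [h2, h1, hVeq]
    simp only [map_neg, LinearMap.neg_apply]
    ring
  have hDcount : Countable D := hDc.to_subtype
  have hDne : Nonempty D := hne.to_subtype
  have hreflect := reflect_law hGauss hcov hZmean
  -- the two functionals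
  set e : D → ℝ := fun f => totE f.1.1 with he
  set Φt : (D ⊕ D → ℝ) × ℝ → ℝ := fun p => ⨅ f, (e f + 2 * (p.1 (Sum.inl f) + c f * p.2)) with hΦt
  set Φs : (D ⊕ D → ℝ) × ℝ → ℝ := fun p => ⨅ f, (e f + 2 * (p.1 (Sum.inr f) - c f * p.2)) with hΦs
  have hmt : ∀ f : D, Measurable (fun p : (D ⊕ D → ℝ) × ℝ => e f + 2 * (p.1 (Sum.inl f) + c f * p.2)) := by
    intro f
    have h1 : Measurable (fun p : (D ⊕ D → ℝ) × ℝ => p.1 (Sum.inl f)) := (measurable_pi_apply _).comp measurable_fst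
    have h2 : Measurable (fun p : (D ⊕ D → ℝ) × ℝ => p.2) := measurable_snd
    fun_prop
  have hms : ∀ f : D, Measurable (fun p : (D ⊕ D → ℝ) × ℝ => e f + 2 * (p.1 (Sum.inr f) - c f * p.2)) := by
    intro f
    have h1 : Measurable (fun p : (D ⊕ D → ℝ) × ℝ => p.1 (Sum.inr f)) := (measurable_pi_apply _).comp measurable_fst
    have h2 : Measurable (fun p : (D ⊕ D → ℝ) × ℝ => p.2) := measurable_snd
    fun_prop
  have hΦtm : Measurable Φt := Measurable.iInf hmt
  have hΦsm : Measurable Φs := Measurable.iInf hms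
  set S : Set ((D ⊕ D → ℝ) × ℝ) := {p | BddBelow (Set.range (fun f => e f + 2 * (p.1 (Sum.inl f) + c f * p.2)))} ∩
    {p | BddBelow (Set.range (fun f => e f + 2 * (p.1 (Sum.inr f) - c f * p.2)))} with hS
  have hSm : MeasurableSet S := (measurableSet_bddBelow_range hmt).inter (measurableSet_bddBelow_range hms)
  set X : Ω → (D ⊕ D → ℝ) × ℝ := fun ω => ((fun i => Y i ω), Z ω) with hX
  set X' : Ω → (D ⊕ D → ℝ) × ℝ := fun ω => ((fun i => Y i ω), -Z ω) with hX'
  have hYm : AEMeasurable (fun ω i => Y i ω) P :=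
    aemeasurable_pi_iff.mpr (fun i => (hGauss.hasGaussianLaw_eval (Sum.inl i)).aemeasurable)
  have hXm : AEMeasurable X P := hYm.prodMk hZm
  have hXm' : AEMeasurable X' P := hYm.prodMk hZm.neg
  have hlawX : P.map X = P.map X' := hreflect
  have hvalt : ∀ ω (f : D), e f + 2 * ((X ω).1 (Sum.inl f) + c f * (X ω).2) = totE f.1.1 + 2 * ξ t ω (rho f.1.1) := by
    intro ω f
    simp only [hX, hYl, he]
    ring
  have hvals : ∀ ω (f : D), e f + 2 * ((X ω).1 (Sum.inr f) - c f * (X ω).2) = totE f.1.1 + 2 * ξ s ω (rho f.1.1) := by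
    intro ω f
    simp only [hX, hYr, he]
    ring
  have haeX : ∀ᵐ ω ∂P, X ω ∈ S ∧ Φt (X ω) = airySum (ξ t ω) k ∧ Φs (X ω) = airySum (ξ s ω) k := by
    filter_upwards [ae_formBound (hξ.isWhite t), ae_formBound (hξ.isWhite s)] with ω h1 h2
    obtain ⟨C1, hC1⟩ := h1
    obtain ⟨C2, hC2⟩ := h2
    obtain ⟨b1, e1⟩ := airySum_eq_iInf hne hD hC1
    obtain ⟨b2, e2⟩ := airySum_eq_iInf hne hD hC2
    refine ⟨⟨?_, ?_⟩, ?_, ?_⟩
    · show BddBelow (Set.range (fun f => e f + 2 * ((X ω).1 (Sum.inl f) + c f * (X ω).2)))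
      simp_rw [hvalt]
      exact b1
    · show BddBelow (Set.range (fun f => e f + 2 * ((X ω).1 (Sum.inr f) - c f * (X ω).2)))
      simp_rw [hvals]
      exact b2
    · show (⨅ f, (e f + 2 * ((X ω).1 (Sum.inl f) + c f * (X ω).2))) = _
      simp_rw [hvalt]
      exact e1.symm
    · show (⨅ f, (e f + 2 * ((X ω).1 (Sum.inr f) - c f * (X ω).2))) = _
      simp_rw [hvals]
      exact e2.symm
  have haeX' : ∀ᵐ ω ∂P, X' ω ∈ S := by
    have h1 : ∀ᵐ p ∂(P.map X), p ∈ S := (ae_map_iff hXm hSm).mpr (haeX.mono (fun ω h => h.1))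
    rw [hlawX] at h1
    exact (ae_map_iff hXm' hSm).mp h1
  -- threshold
  set M0 : ℝ := (1 - Real.exp (-h)) * k / √(2 * ((L : ℝ) + 1)) with hM0
  have hkap : 0 < 1 - Real.exp (-h) := by
    have : Real.exp (-h) < 1 := Real.exp_lt_one_iff.mpr (by linarith)
    linarith
  have hkey : ∀ᵐ ω ∂P, FormBound (ξ t ω) C → √(2 * V) < Z ω → M0 ≤ |Φt (X ω) - Φs (X ω)| ∨ M0 ≤ |Φt (X' ω) - Φs (X' ω)| := by
    filter_upwards [haeX, haeX'] with ω hω hω' hF hZω
    have hZ0 : 0 < Z ω := lt_of_le_of_lt (Real.sqrt_nonneg _) hZω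
    set m : ℝ := (1 - Real.exp (-h)) * (k / 2) / (2 * V) with hm
    have hcmp := reflect_compare e c hc0 (fun f => Y (Sum.inl f) ω) (fun f => Y (Sum.inr f) ω) (Z ω) hZ0
      (by
        have h1 : BddBelow (Set.range (fun f => e f + 2 * ((X' ω).1 (Sum.inl f) + c f * (X' ω).2))) := hω'.1
        have h2 : (fun f => e f + 2 * ((X' ω).1 (Sum.inl f) + c f * (X' ω).2)) =
            fun f => e f + 2 * (Y (Sum.inl f) ω - c f * Z ω) := by
          funext f
          simp only [hX']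
          ring
        rwa [h2] at h1)
      hω.1.2 (m := m)
      (by
        intro f hf
        have h3 : e f + 2 * (Y (Sum.inl f) ω + c f * Z ω) = totE f.1.1 + 2 * ξ t ω (rho f.1.1) := hvalt ω f
        have h4 : (⨅ f, (e f + 2 * (Y (Sum.inl f) ω + c f * Z ω))) = airySum (ξ t ω) k := hω.2.1
        rw [h3, h4] at hf
        have h5 := hmass (ξ t ω) hF f.1.1 f.1.2 hf
        have h6 := wfun_lower hh0 L (rho f.1.1) (hrho0 _)
        simp only [hc, hm]
        apply div_le_div_of_nonneg_right _ (by positivity)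
        exact (mul_le_mul_of_nonneg_left h5 hkap.le).trans h6)
    have h7 : Φt (X ω) = ⨅ i, (e i + 2 * (Y (Sum.inl i) ω + c i * Z ω)) := rfl
    have h8 : Φs (X ω) = ⨅ i, (e i + 2 * (Y (Sum.inr i) ω - c i * Z ω)) := rfl
    have h9 : Φt (X' ω) = ⨅ i, (e i + 2 * (Y (Sum.inl i) ω - c i * Z ω)) := by
      show (⨅ f, (e f + 2 * ((X' ω).1 (Sum.inl f) + c f * (X' ω).2))) = _
      congr 1; funext f
      simp only [hX']
      ring
    have h10 : Φs (X' ω) = ⨅ i, (e i + 2 * (Y (Sum.inr i) ω + c i * Z ω)) := by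
      show (⨅ f, (e f + 2 * ((X' ω).1 (Sum.inr f) - c f * (X' ω).2))) = _
      congr 1; funext f
      simp only [hX']
      ring
    rw [← h7, ← h8, ← h9, ← h10] at hcmp
    have h11 : 2 * M0 ≤ 4 * m * Z ω := by
      have h12 : m = (1 - Real.exp (-h)) * k / 2 / (√(2 * V)) ^ 2 := by
        rw [hm, Real.sq_sqrt (by positivity)]
        ring
      have hsv : 0 < √(2 * V) := Real.sqrt_pos.mpr (by positivity)
      have h13 : 4 * m * √(2 * V) = 2 * ((1 - Real.exp (-h)) * k / √(2 * V)) := by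
        rw [h12]; field_simp
        ring
      have h14 : M0 ≤ (1 - Real.exp (-h)) * k / √(2 * V) := by
        rw [hM0]
        apply div_le_div_of_nonneg_left (by positivity) hsv
        apply Real.sqrt_le_sqrt
        linarith
      have hm0 : 0 ≤ m := by rw [hm]; positivity
      have h15 : 4 * m * √(2 * V) ≤ 4 * m * Z ω := mul_le_mul_of_nonneg_left hZω.le (by positivity)
      linarith
    by_contra hcon
    push Not at hcon
    have h16 := (abs_lt.mp hcon.1).2
    have h17 := (abs_lt.mp hcon.2).1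
    linarith
  -- probabilities
  have hΔm : Measurable (fun p => |Φt p - Φs p|) := by
    have := hΦtm.sub hΦsm
    exact measurable_norm.comp this
  have hset : MeasurableSet {p | M0 ≤ |Φt p - Φs p|} := measurableSet_le measurable_const hΔm
  have hp1 : P {ω | M0 ≤ |Φt (X' ω) - Φs (X' ω)|} = P {ω | M0 ≤ |Φt (X ω) - Φs (X ω)|} := by
    have e1 := Measure.map_apply_of_aemeasurable hXm hset
    have e2 := Measure.map_apply_of_aemeasurable hXm' hset
    rw [hlawX, e2] at e1
    exact e1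
  have hp2 : P {ω | M0 ≤ |Φt (X ω) - Φs (X ω)|} = P {ω | M0 ≤ |airySum (ξ t ω) k - airySum (ξ s ω) k|} := by
    apply measure_congr
    filter_upwards [haeX] with ω hω
    have : (M0 ≤ |Φt (X ω) - Φs (X ω)|) = (M0 ≤ |airySum (ξ t ω) k - airySum (ξ s ω) k|) := by
      rw [hω.2.1, hω.2.2]
    exact this
  have hp3 : P {ω | √(2 * V) < Z ω} ≤ P {ω | ¬ FormBound (ξ t ω) C} +
      (P {ω | M0 ≤ |Φt (X ω) - Φs (X ω)|} + P {ω | M0 ≤ |Φt (X' ω) - Φs (X' ω)|}) := by
    have h1 : P {ω | √(2 * V) < Z ω} ≤ P ({ω | ¬ FormBound (ξ t ω) C} ∪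
      ({ω | M0 ≤ |Φt (X ω) - Φs (X ω)|} ∪ {ω | M0 ≤ |Φt (X' ω) - Φs (X' ω)|})) := by
      apply measure_mono_ae
      filter_upwards [hkey] with ω hω hZω
      by_cases hF : FormBound (ξ t ω) C
      · exact Or.inr (hω hF hZω)
      · exact Or.inl hF
    exact h1.trans ((measure_union_le _ _).trans (add_le_add le_rfl (measure_union_le _ _)))
  rw [gaussian_tail_scale hZm (by positivity) hZlaw, hp1, hp2] at hp3
  rw [tsub_le_iff_left]
  calc gaussianReal 0 1 (Set.Ioi 1) ≤ _ := hp3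
    _ ≤ ENNReal.ofReal δ + (P {ω | M0 ≤ |airySum (ξ t ω) k - airySum (ξ s ω) k|} +
        P {ω | M0 ≤ |airySum (ξ t ω) k - airySum (ξ s ω) k|}) := add_le_add hC le_rfl
    _ = _ := by rw [two_mul]

end OU

end Pool.Agent.Helper95
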