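import Mathlib
import Pool.Agent.Lib.Helper95.ReflectCore
open MeasureTheory ProbabilityTheory Finset Filter Topology TopologicalSpace Set
open scoped NNReal ENNReal Distributions

namespace Pool.Agent.Helper95

theorem exists_frame (k : ℕ) : Nonempty {f : Fin k → 𝓓(halfLine, ℝ) // IsFrame l2Form f} := by
  obtain ⟨c, _, hlow⟩ := exists_low_frame
  obtain ⟨g, hg, _⟩ := hlow (k + 1) ((k + 1) ^ 3) (Nat.succ_pos k) rfl
  have hk : k ≤ (k + 1) ^ 3 := by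
    calc k ≤ k + 1 := Nat.le_succ k
      _ = (k + 1) ^ 1 := (pow_one _).symm
      _ ≤ (k + 1) ^ 3 := Nat.pow_le_pow_right (Nat.succ_pos k) (by norm_num)
  exact ⟨⟨fun i => g (Fin.castLE hk i), hg.comp _ (Fin.castLE_injective hk)⟩⟩

section OU
variable {Ω : Type*} [MeasurableSpace Ω] {P : Measure Ω} {a : ℝ} {ξ : ℝ≥0 → Ω → 𝓓'(halfLine, ℝ)}

theorem aemeasurable_airySum {T : Ω → 𝓓'(halfLine, ℝ)} (hT : IsWhite P T) (k : ℕ) :
    AEMeasurable (fun ω => airySum (T ω) k) P := by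
  obtain ⟨g₀⟩ := exists_frame k
  obtain ⟨D, hDc, hne, hD⟩ := exists_countable_frames k g₀
  have : Countable D := hDc.to_subtype
  have h1 : AEMeasurable (fun ω => ⨅ f : D, (totE f.1.1 + 2 * T ω (rho f.1.1))) P := by
    apply AEMeasurable.iInf
    intro f
    have := hT.aemeas (rho f.1.1)
    fun_prop
  refine h1.congr ?_
  filter_upwards [ae_formBound hT] with ω hω
  obtain ⟨C, hC⟩ := hω
  exact (airySum_eq_iInf hne hD hC).2.symm

theorem aemeasurable_minmax {T : Ω → 𝓓'(halfLine, ℝ)} (hT : IsWhite P T) (j : ℕ) :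
    AEMeasurable (fun ω => minmax l2Form (airyForm 2 (T ω)) j) P := by
  have h1 := (aemeasurable_airySum hT (j + 1)).sub (aemeasurable_airySum hT j)
  refine h1.congr (Filter.Eventually.of_forall (fun ω => ?_))
  simp only [Pi.sub_apply, airySum]
  rw [Fin.sum_univ_castSucc]
  simp

/-- Lower bound on the increments of the sums of min–max values. -/
theorem airySum_increment {a : ℝ} (ha : 0 < a) {s t : ℝ≥0} (hst : s ≠ t) :
    ∃ (c₁ : ℝ) (p : ℝ≥0∞) (K₀ : ℕ), 0 < c₁ ∧ 0 < p ∧ 0 < K₀ ∧ ∀ K : ℕ, K₀ ≤ K →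
      ∀ {Ω : Type*} [MeasurableSpace Ω] {P : Measure Ω} {ξ : ℝ≥0 → Ω → 𝓓'(halfLine, ℝ)}, IsOUWhiteNoise P a ξ →
        p ≤ P {ω | c₁ * (K : ℝ) ^ 2 ≤ |airySum (ξ t ω) (K ^ 3) - airySum (ξ s ω) (K ^ 3)|} := by
  set p₁ : ℝ≥0∞ := gaussianReal 0 1 (Set.Ioi 1) with hp₁
  have hp₁0 : 0 < p₁ := gaussian_tail_pos
  have hp₁t : p₁ ≠ ⊤ := measure_ne_top _ _
  set δ : ℝ := p₁.toReal / 2 with hδ
  have hδ0 : 0 < δ := by
    have := ENNReal.toReal_pos hp₁0.ne' hp₁t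
    positivity
  obtain ⟨C, hC0, hC⟩ := formBound_prob hδ0
  obtain ⟨M, K₀, hM, hK₀, hmass⟩ := near_min_mass C hC0
  set h : ℝ := a * |(s : ℝ) - t| with hh
  have hst' : (s : ℝ) ≠ t := fun h => hst (NNReal.coe_injective h)
  have hh0 : 0 < h := mul_pos ha (abs_pos.mpr (sub_ne_zero.mpr hst'))
  have hkap : 0 < 1 - Real.exp (-h) := by
    have : Real.exp (-h) < 1 := Real.exp_lt_one_iff.mpr (by linarith)
    linarith
  have hMR : (1 : ℝ) ≤ M := by exact_mod_cast hM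
  refine ⟨(1 - Real.exp (-h)) / √(18 * M), p₁ / 4, K₀, by positivity, ?_, by omega, ?_⟩
  · exact ENNReal.div_pos hp₁0.ne' (by norm_num)
  intro K hK Ω _ P ξ hξ
  have hK8 : 8 ≤ K := hK₀.trans hK
  have hKR : (8 : ℝ) ≤ K := by exact_mod_cast hK8
  obtain ⟨g₀⟩ := exists_frame (K ^ 3)
  obtain ⟨D, hDc, hne, hD⟩ := exists_countable_frames (K ^ 3) g₀
  have hL2 : 2 ≤ 8 * M * K ^ 2 := by
    have : 1 ≤ M * K ^ 2 := Nat.mul_pos hM (by positivity)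
    nlinarith
  have hcore := increment_core hξ ha hst hDc hne hD (L := 8 * M * K ^ 2) hL2 (hC (hξ.isWhite t))
    (fun T hT f hf hmin => hmass K (K ^ 3) hK rfl T hT f hf hmin)
  have h1 : p₁ - ENNReal.ofReal δ = p₁ / 2 := by
    have h2 : ENNReal.ofReal δ = p₁ / 2 := by
      rw [hδ, ENNReal.ofReal_div_of_pos (by norm_num), ENNReal.ofReal_toReal hp₁t]
      norm_num
    rw [h2]
    exact ENNReal.sub_half hp₁t
  rw [← hp₁, h1] at hcore
  have h3 : p₁ / 4 ≤ P {ω | (1 - Real.exp (-(a * |(s : ℝ) - t|))) * ((K ^ 3 : ℕ) : ℝ) /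
      √(2 * (((8 * M * K ^ 2 : ℕ) : ℝ) + 1)) ≤
        |airySum (ξ t ω) (K ^ 3) - airySum (ξ s ω) (K ^ 3)|} := by
    have h4 : p₁ / 4 = p₁ / 2 / 2 := by
      rw [div_eq_mul_inv, div_eq_mul_inv, div_eq_mul_inv, mul_assoc, ← ENNReal.mul_inv (by norm_num) (by norm_num)]
      norm_num
    rw [h4]
    apply ENNReal.div_le_of_le_mul'
    exact hcore
  refine h3.trans (measure_mono ?_)
  intro ω hω
  have hω' : (1 - Real.exp (-(a * |(s : ℝ) - t|))) * ((K ^ 3 : ℕ) : ℝ) /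
      √(2 * (((8 * M * K ^ 2 : ℕ) : ℝ) + 1)) ≤
        |airySum (ξ t ω) (K ^ 3) - airySum (ξ s ω) (K ^ 3)| := hω
  refine le_trans ?_ hω'
  have h5 : √(2 * (((8 * M * K ^ 2 : ℕ) : ℝ) + 1)) ≤ √(18 * M) * K := by
    have h6 : √(18 * M) * K = √(18 * M * (K : ℝ) ^ 2) := by
      rw [Real.sqrt_mul (by positivity : (0 : ℝ) ≤ 18 * M) ((K : ℝ) ^ 2), Real.sqrt_sq (by positivity)]
    rw [h6]
    apply Real.sqrt_le_sqrt
    push_cast
    have : (1 : ℝ) ≤ M * (K : ℝ) ^ 2 := by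
      have h7 : (1 : ℝ) ≤ (K : ℝ) ^ 2 := one_le_pow₀ (by linarith)
      nlinarith
    nlinarith
  have h8 : 0 < √(2 * (((8 * M * K ^ 2 : ℕ) : ℝ) + 1)) := Real.sqrt_pos.mpr (by positivity)
  rw [le_div_iff₀ h8]
  calc (1 - Real.exp (-h)) / √(18 * M) * (K : ℝ) ^ 2 * √(2 * (((8 * M * K ^ 2 : ℕ) : ℝ) + 1))
      ≤ (1 - Real.exp (-h)) / √(18 * M) * (K : ℝ) ^ 2 * (√(18 * M) * K) :=
        mul_le_mul_of_nonneg_left h5 (by positivity)
    _ = (1 - Real.exp (-h)) * ((K ^ 3 : ℕ) : ℝ) := by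
        have : √(18 * (M : ℝ)) ≠ 0 := (Real.sqrt_pos.mpr (by positivity)).ne'
        push_cast
        field_simp

end OU

end Pool.Agent.Helper95
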