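import Mathlib

/-!
Finite (counting) part of the proof that SparseStack matrices of sparsity at most `c * sqrt (log r)` are not
oblivious subspace injections: bounded-difference variance bound, rows with many mates in every block,
sign averaging, and the numerical estimates.
-/

open Finset

namespace Pool.Agent.Helper95


/-- Variance bound for functions with bounded differences of independent uniform variables. -/
theorem sum_sq_dev_le {S : Type*} [Fintype S] [Nonempty S] (K : ℝ) :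
    ∀ (N : ℕ) (f : (Fin N → S) → ℝ),
    (∀ x i y, |f (Function.update x i y) - f x| ≤ K) →
    ∑ x, (f x - (∑ z, f z) / (Fintype.card S : ℝ) ^ N) ^ 2 ≤
      N * K ^ 2 * (Fintype.card S : ℝ) ^ N := by
  intro N
  induction N with
  | zero =>
    intro f _
    simp
  | succ N ih =>
    intro f hK
    have hcard : (0 : ℝ) < (Fintype.card S : ℝ) := by
      exact_mod_cast Fintype.card_pos
    set c : ℝ := (Fintype.card S : ℝ) with hc
    have hK0 : 0 ≤ K := by
      obtain ⟨s⟩ := ‹Nonempty S›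
      exact (abs_nonneg _).trans (hK (fun _ => s) 0 s)
    set g : S → (Fin N → S) → ℝ := fun y x => f (Fin.cons y x) with hg
    set m : S → ℝ := fun y => (∑ x, g y x) / c ^ N with hm
    have hsplit : ∀ h : (Fin (N + 1) → S) → ℝ, ∑ x, h x = ∑ y, ∑ x : Fin N → S, h (Fin.cons y x) := by
      intro h
      rw [← Fintype.sum_prod_type']
      symm
      apply Fintype.sum_equiv (Fin.consEquiv (fun _ => S))
      intro p
      rfl
    have hmean : (∑ z, f z) / c ^ (N + 1) = (∑ y, m y) / c := by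
      rw [hsplit f, hm]
      simp only [hg]
      rw [← Finset.sum_div, div_div, pow_succ]
    set μ : ℝ := (∑ y, m y) / c with hμ
    rw [hmean, hsplit]
    have hcN : (0 : ℝ) < c ^ N := pow_pos hcard N
    have hcardN : (Fintype.card (Fin N → S) : ℝ) = c ^ N := by
      rw [Fintype.card_fun, Fintype.card_fin]
      push_cast
      rfl
    -- difference of means
    have hmdiff : ∀ y y', |m y - m y'| ≤ K := by
      intro y y'
      have h1 : m y - m y' = (∑ x, (g y x - g y' x)) / c ^ N := by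
        rw [Finset.sum_sub_distrib, sub_div]
      rw [h1, abs_div, abs_of_pos hcN, div_le_iff₀ hcN]
      calc |∑ x, (g y x - g y' x)| ≤ ∑ x, |g y x - g y' x| := Finset.abs_sum_le_sum_abs _ _
        _ ≤ ∑ _x : Fin N → S, K := by
            apply Finset.sum_le_sum
            intro x _
            have := hK (Fin.cons y' x) 0 y
            simpa [hg, Fin.update_cons_zero] using this
        _ = K * c ^ N := by
            rw [Finset.sum_const, Finset.card_univ, nsmul_eq_mul, hcardN]; ring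
    have hmμ : ∀ y, |m y - μ| ≤ K := by
      intro y
      have h1 : m y - μ = (∑ y', (m y - m y')) / c := by
        rw [Finset.sum_sub_distrib, sub_div, Finset.sum_const, Finset.card_univ, nsmul_eq_mul, ← hc,
          mul_div_cancel_left₀ _ hcard.ne']
      rw [h1, abs_div, abs_of_pos hcard, div_le_iff₀ hcard]
      calc |∑ y', (m y - m y')| ≤ ∑ y', |m y - m y'| := Finset.abs_sum_le_sum_abs _ _
        _ ≤ ∑ _y' : S, K := Finset.sum_le_sum (fun y' _ => hmdiff y y')
        _ = K * c := by rw [Finset.sum_const, Finset.card_univ, nsmul_eq_mul]; ring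
    have hstep : ∀ y, ∑ x : Fin N → S, (f (Fin.cons y x) - μ) ^ 2 ≤ N * K ^ 2 * c ^ N + K ^ 2 * c ^ N := by
      intro y
      have h1 : ∑ x : Fin N → S, (f (Fin.cons y x) - μ) ^ 2 =
          ∑ x, (g y x - m y) ^ 2 + c ^ N * (m y - μ) ^ 2 := by
        have h2 : ∀ x, (f (Fin.cons y x) - μ) ^ 2 =
            (g y x - m y) ^ 2 + 2 * (m y - μ) * (g y x - m y) + (m y - μ) ^ 2 := by
          intro x; simp only [hg]; ring
        rw [Finset.sum_congr rfl (fun x _ => h2 x), Finset.sum_add_distrib, Finset.sum_add_distrib,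
          ← Finset.mul_sum, Finset.sum_sub_distrib, Finset.sum_const, Finset.sum_const, Finset.card_univ,
          nsmul_eq_mul, nsmul_eq_mul, hcardN]
        have h3 : c ^ N * m y = ∑ x, g y x := by
          rw [hm]; field_simp
        rw [h3]; ring
      rw [h1]
      have h4 := ih (g y) (by
        intro x i z
        have := hK (Fin.cons y x) i.succ z
        simpa [hg, Fin.cons_update] using this)
      have h5 : (m y - μ) ^ 2 ≤ K ^ 2 := by
        rw [← sq_abs]
        exact pow_le_pow_left₀ (abs_nonneg _) (hmμ y) 2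
      have h6 : c ^ N * (m y - μ) ^ 2 ≤ K ^ 2 * c ^ N := by
        rw [mul_comm]; exact mul_le_mul_of_nonneg_right h5 hcN.le
      have h7 : ∑ x, (g y x - m y) ^ 2 ≤ N * K ^ 2 * c ^ N := h4
      linarith
    calc ∑ y, ∑ x : Fin N → S, (f (Fin.cons y x) - μ) ^ 2
        ≤ ∑ _y : S, (N * K ^ 2 * c ^ N + K ^ 2 * c ^ N) := Finset.sum_le_sum (fun y _ => hstep y)
      _ = ((N + 1 : ℕ) : ℝ) * K ^ 2 * c ^ (N + 1) := by
          rw [Finset.sum_const, Finset.card_univ, nsmul_eq_mul, ← hc]
          push_cast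
          ring



variable {r ζ b : ℕ}

/-- The rows other than `i` that share the position of row `i` in block `j`. -/
def mates (t : Fin r → Fin ζ → Fin b) (i : Fin r) (j : Fin ζ) : Finset (Fin r) :=
  univ.filter (fun l => l ≠ i ∧ t l j = t i j)

/-- Row `i` has at least `m` mates in every block. -/
def Bad (m : ℕ) (t : Fin r → Fin ζ → Fin b) (i : Fin r) : Prop := ∀ j, m ≤ (mates t i j).card

instance (m : ℕ) (t : Fin r → Fin ζ → Fin b) (i : Fin r) : Decidable (Bad m t i) := by
  unfold Bad; infer_instance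

/-- Number of bad rows. -/
def badCount (m : ℕ) (t : Fin r → Fin ζ → Fin b) : ℕ := (univ.filter (fun i => Bad m t i)).card

theorem badCount_le (m : ℕ) (t t' : Fin r → Fin ζ → Fin b) (l₀ : Fin r)
    (h : ∀ i, i ≠ l₀ → t' i = t i) :
    badCount m t ≤ badCount m t' + (1 + ζ * m) := by
  classical
  set D : Fin ζ → Finset (Fin r) := fun j =>
    if (univ.filter (fun l => l ≠ l₀ ∧ t l j = t l₀ j)).card ≤ m then
      univ.filter (fun l => l ≠ l₀ ∧ t l j = t l₀ j) else ∅ with hD
  have hDcard : ∀ j, (D j).card ≤ m := by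
    intro j
    simp only [hD]
    split_ifs with h1
    · exact h1
    · simp
  have hsub : univ.filter (fun i => Bad m t i) ⊆
      (univ.filter (fun i => Bad m t' i)) ∪ ({l₀} ∪ univ.biUnion D) := by
    intro i hi
    simp only [mem_filter, mem_univ, true_and] at hi
    by_cases hb : Bad m t' i
    · simp [hb]
    by_cases hil : i = l₀
    · simp [hil]
    · simp only [mem_union, mem_filter, mem_univ, true_and, hb, false_or, mem_singleton, hil,
        mem_biUnion]
      unfold Bad at hb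
      push Not at hb
      obtain ⟨j, hj⟩ := hb
      refine ⟨j, ?_⟩
      have hij := hi j
      have hti : t' i = t i := h i hil
      -- mates t i j \ {l₀} ⊆ mates t' i j
      have hs1 : (mates t i j).erase l₀ ⊆ mates t' i j := by
        intro l hl
        simp only [mates, mem_erase, mem_filter, mem_univ, true_and] at hl ⊢
        refine ⟨hl.2.1, ?_⟩
        rw [h l hl.1, hti]
        exact hl.2.2
      have hc1 := Finset.card_le_card hs1
      have hmem : l₀ ∈ mates t i j := by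
        by_contra hn
        rw [Finset.erase_eq_of_notMem hn] at hc1
        omega
      have hc2 := Finset.card_erase_of_mem hmem
      have hcm : (mates t i j).card = m := by omega
      have hl0 : t l₀ j = t i j := by
        simp only [mates, mem_filter, mem_univ, true_and] at hmem
        exact hmem.2
      -- {l ≠ l₀, t l j = t l₀ j} has card m
      have hs2 : univ.filter (fun l => l ≠ l₀ ∧ t l j = t l₀ j) =
          insert i ((mates t i j).erase l₀) := by
        ext l
        simp only [mates, mem_filter, mem_univ, true_and, mem_insert, mem_erase]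
        constructor
        · rintro ⟨h1, h2⟩
          by_cases hl : l = i
          · left; exact hl
          · right; exact ⟨h1, hl, h2.trans hl0⟩
        · rintro (h1 | ⟨h1, h2, h3⟩)
          · subst h1; exact ⟨hil, hl0.symm⟩
          · exact ⟨h1, h3.trans hl0.symm⟩
      have hc3 : (univ.filter (fun l => l ≠ l₀ ∧ t l j = t l₀ j)).card ≤ m := by
        rw [hs2]
        refine (Finset.card_insert_le _ _).trans ?_
        have : 0 < (mates t i j).card := Finset.card_pos.mpr ⟨_, hmem⟩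
        omega
      simp only [hD, if_pos hc3, mem_filter, mem_univ, true_and]
      exact ⟨hil, hl0.symm⟩
  unfold badCount
  refine (Finset.card_le_card hsub).trans ?_
  refine (Finset.card_union_le _ _).trans ?_
  have h2 := Finset.card_union_le ({l₀} : Finset (Fin r)) (univ.biUnion D)
  have h3 : (univ.biUnion D).card ≤ ∑ j, (D j).card := Finset.card_biUnion_le
  have h4 : ∑ j, (D j).card ≤ ∑ _j : Fin ζ, m := Finset.sum_le_sum (fun j _ => hDcard j)
  simp only [sum_const, card_univ, Fintype.card_fin, smul_eq_mul] at h4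
  simp only [card_singleton] at h2
  omega

theorem badCount_update (m : ℕ) (t : Fin r → Fin ζ → Fin b) (l₀ : Fin r) (u : Fin ζ → Fin b) :
    |(badCount m (Function.update t l₀ u) : ℝ) - badCount m t| ≤ 1 + ζ * m := by
  have h1 := badCount_le m t (Function.update t l₀ u) l₀ (by
    intro i hi; simp [Function.update_of_ne hi])
  have h2 := badCount_le m (Function.update t l₀ u) t l₀ (by
    intro i hi; simp [Function.update_of_ne hi])
  rw [abs_le]
  constructor
  · have : (badCount m t : ℝ) ≤ badCount m (Function.update t l₀ u) + (1 + ζ * m) := by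
      exact_mod_cast h1
    linarith
  · have : (badCount m (Function.update t l₀ u) : ℝ) ≤ badCount m t + (1 + ζ * m) := by
      exact_mod_cast h2
    linarith

/-- Lower bound for the number of positions `Fin r → Fin b` in one block for which a fixed row has at least
`m` mates. -/
theorem card_one_block (i₀ : Fin r) (m : ℕ) :
    b * (Nat.choose (r - 1) m * (b - 1) ^ (r - 1 - m)) ≤
      (univ.filter (fun s : Fin r → Fin b =>
        m ≤ (univ.filter (fun l => l ≠ i₀ ∧ s l = s i₀)).card)).card := by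
  classical
  -- parametrise by the value `c` and the set `A`
  set F : Fin b × Finset (Fin r) → Finset (Fin r → Fin b) := fun p =>
    Fintype.piFinset (fun l => if l = i₀ ∨ l ∈ p.2 then {p.1} else univ.erase p.1) with hF
  set I : Finset (Fin b × Finset (Fin r)) := univ ×ˢ (powersetCard m (univ.erase i₀)) with hI
  have hdisj : (I : Set (Fin b × Finset (Fin r))).PairwiseDisjoint F := by
    intro p hp q hq hpq
    rw [Function.onFun, Finset.disjoint_left]
    intro s hs1 hs2
    apply hpq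
    simp only [hI, coe_product, Set.mem_prod, mem_coe, mem_univ, mem_powersetCard, true_and] at hp hq
    simp only [hF, Fintype.mem_piFinset] at hs1 hs2
    have e1 : s i₀ = p.1 := by have := hs1 i₀; simpa using this
    have e2 : s i₀ = q.1 := by have := hs2 i₀; simpa using this
    have key : ∀ (w : Fin b × Finset (Fin r)), w.2 ⊆ univ.erase i₀ →
        (∀ a, s a ∈ if a = i₀ ∨ a ∈ w.2 then ({w.1} : Finset (Fin b)) else univ.erase w.1) →
        w.2 = univ.filter (fun l => l ≠ i₀ ∧ s l = s i₀) := by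
      intro w hw hs
      have e0 : s i₀ = w.1 := by have := hs i₀; simpa using this
      ext l
      simp only [mem_filter, mem_univ, true_and]
      constructor
      · intro hl
        have h1 := hs l
        rw [if_pos (Or.inr hl), mem_singleton] at h1
        refine ⟨?_, h1.trans e0.symm⟩
        have := hw hl
        simpa using this
      · rintro ⟨h1, h2⟩
        by_contra hl
        have h3 := hs l
        rw [if_neg (by push Not; exact ⟨h1, hl⟩), mem_erase] at h3
        exact h3.1 (h2.trans e0)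
    have e3 := key p hp.1 hs1
    have e4 := key q hq.1 hs2
    exact Prod.ext (e1.symm.trans e2) (e3.trans e4.symm)
  have hcardF : ∀ p ∈ I, (F p).card = (b - 1) ^ (r - 1 - m) := by
    intro p hp
    simp only [hI, mem_product, mem_univ, mem_powersetCard, true_and] at hp
    simp only [hF, Fintype.card_piFinset]
    have h1 : ∀ l, ((if l = i₀ ∨ l ∈ p.2 then ({p.1} : Finset (Fin b)) else univ.erase p.1).card) =
        if l ∈ insert i₀ p.2 then 1 else (b - 1) := by
      intro l
      by_cases hl : l = i₀ ∨ l ∈ p.2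
      · rw [if_pos hl, if_pos (by simpa using hl)]; simp
      · rw [if_neg hl, if_neg (by simpa using hl)]; simp
    rw [Finset.prod_congr rfl (fun l _ => h1 l), Finset.prod_ite]
    simp only [prod_const_one, one_mul, prod_const]
    congr 1
    have h2 : (univ.filter (fun l => l ∉ insert i₀ p.2)) = (insert i₀ p.2)ᶜ := by
      ext l; simp
    rw [h2, Finset.card_compl, Fintype.card_fin, Finset.card_insert_of_notMem, hp.2]
    · omega
    · intro hmem
      have := hp.1 hmem
      simp at this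
  have hsub : I.biUnion F ⊆ univ.filter (fun s : Fin r → Fin b =>
        m ≤ (univ.filter (fun l => l ≠ i₀ ∧ s l = s i₀)).card) := by
    intro s hs
    simp only [mem_biUnion] at hs
    obtain ⟨p, hp, hs⟩ := hs
    simp only [hI, mem_product, mem_univ, mem_powersetCard, true_and] at hp
    simp only [hF, Fintype.mem_piFinset] at hs
    have e0 : s i₀ = p.1 := by have := hs i₀; simpa using this
    simp only [mem_filter, mem_univ, true_and]
    rw [← hp.2]
    apply Finset.card_le_card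
    intro l hl
    simp only [mem_filter, mem_univ, true_and]
    have h1 := hs l
    rw [if_pos (Or.inr hl), mem_singleton] at h1
    refine ⟨?_, h1.trans e0.symm⟩
    have := hp.1 hl
    simpa using this
  calc b * (Nat.choose (r - 1) m * (b - 1) ^ (r - 1 - m))
      = ∑ p ∈ I, (F p).card := by
        rw [Finset.sum_congr rfl hcardF, Finset.sum_const, hI, Finset.card_product,
          Finset.card_univ, Fintype.card_fin, Finset.card_powersetCard, Finset.card_erase_of_mem (mem_univ _),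
          Finset.card_univ, Fintype.card_fin, smul_eq_mul]
        ring
    _ = (I.biUnion F).card := (Finset.card_biUnion hdisj).symm
    _ ≤ _ := Finset.card_le_card hsub

/-- Blocks are independent. -/
theorem card_bad (i₀ : Fin r) (m : ℕ) :
    (univ.filter (fun t : Fin r → Fin ζ → Fin b => Bad m t i₀)).card =
      (univ.filter (fun s : Fin r → Fin b =>
        m ≤ (univ.filter (fun l => l ≠ i₀ ∧ s l = s i₀)).card)).card ^ ζ := by
  classical
  set B : Finset (Fin r → Fin b) := univ.filter (fun s : Fin r → Fin b =>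
        m ≤ (univ.filter (fun l => l ≠ i₀ ∧ s l = s i₀)).card) with hB
  have h1 : (Fintype.piFinset (fun _ : Fin ζ => B)).card = B.card ^ ζ := by
    rw [Fintype.card_piFinset]; simp
  rw [← h1]
  apply Finset.card_bij (fun t _ => fun j i => t i j)
  · intro t ht
    have ht' := (Finset.mem_filter.mp ht).2
    simp only [Fintype.mem_piFinset, hB, mem_filter, mem_univ, true_and]
    exact ht'
  · intro t _ t' _ h
    funext i j
    exact congrFun (congrFun h j) i
  · intro g hg
    simp only [Fintype.mem_piFinset, hB, mem_filter, mem_univ, true_and] at hg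
    exact ⟨fun i j => g j i, by simpa [Bad, mates] using hg, rfl⟩

theorem sum_badCount (m : ℕ) :
    ∑ t : Fin r → Fin ζ → Fin b, (badCount m t : ℕ) =
      ∑ i : Fin r, (univ.filter (fun t : Fin r → Fin ζ → Fin b => Bad m t i)).card := by
  simp only [badCount, Finset.card_filter]
  rw [Finset.sum_comm]




/-- The sign attached to a bit. -/
def sgn (x : Bool) : ℝ := if x then 1 else -1

theorem sgn_not (x : Bool) : sgn (!x) = - sgn x := by cases x <;> simp [sgn]

theorem sgn_mul_self (x : Bool) : sgn x * sgn x = 1 := by cases x <;> simp [sgn]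

/-- Flip one sign. -/
def flip (i : Fin r) (j : Fin ζ) (σ : Fin r → Fin ζ → Bool) : Fin r → Fin ζ → Bool :=
  fun i' j' => if i' = i ∧ j' = j then !(σ i' j') else σ i' j'

theorem flip_flip (i : Fin r) (j : Fin ζ) (σ : Fin r → Fin ζ → Bool) :
    flip i j (flip i j σ) = σ := by
  funext i' j'
  simp only [flip]
  by_cases h : i' = i ∧ j' = j
  · simp [h]
  · simp [h]

/-- Flipping as an equivalence. -/
def flipEquiv (i : Fin r) (j : Fin ζ) : (Fin r → Fin ζ → Bool) ≃ (Fin r → Fin ζ → Bool) where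
  toFun := flip i j
  invFun := flip i j
  left_inv := flip_flip i j
  right_inv := flip_flip i j

theorem sum_eq_zero_of_flip (i : Fin r) (j : Fin ζ) (F : (Fin r → Fin ζ → Bool) → ℝ)
    (h : ∀ σ, F (flip i j σ) = - F σ) : ∑ σ, F σ = 0 := by
  have h1 : ∑ σ, F σ = ∑ σ, F (flip i j σ) :=
    (Fintype.sum_equiv (flipEquiv i j) (fun σ => F (flip i j σ)) F (fun σ => rfl)).symm
  rw [Finset.sum_congr rfl (fun σ _ => h σ), Finset.sum_neg_distrib] at h1
  linarith

/-- The near-kernel vector attached to a root row `i₀` and sets `N j` of mates. -/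
noncomputable def kvec (i₀ : Fin r) (N : Fin ζ → Finset (Fin r)) (m : ℕ) (σ : Fin r → Fin ζ → Bool)
    (l : Fin r) : ℝ :=
  (if l = i₀ then 1 else 0) -
    (1 / (m : ℝ)) * ∑ j, if l ∈ N j then sgn (σ i₀ j) * sgn (σ l j) else 0

/-- Entry of (the unnormalised) `Ωᵀ x`. -/
noncomputable def img (t : Fin r → Fin ζ → Fin b) (σ : Fin r → Fin ζ → Bool) (x : Fin r → ℝ)
    (j' : Fin ζ) (c : Fin b) : ℝ :=
  ∑ l, (if t l j' = c then sgn (σ l j') else 0) * x l

/-- Elementary contributions. -/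
noncomputable def W (t : Fin r → Fin ζ → Fin b) (i₀ : Fin r) (N : Fin ζ → Finset (Fin r))
    (σ : Fin r → Fin ζ → Bool) (j' : Fin ζ) (c : Fin b) (a : Fin ζ × Fin r) : ℝ :=
  if a.2 ∈ N a.1 ∧ a.1 ≠ j' ∧ t a.2 j' = c then
    sgn (σ a.2 j') * (sgn (σ i₀ a.1) * sgn (σ a.2 a.1)) else 0

theorem img_kvec (t : Fin r → Fin ζ → Fin b) (i₀ : Fin r) (N : Fin ζ → Finset (Fin r)) (m : ℕ)
    (hm : 0 < m) (hN : ∀ j, ∀ l ∈ N j, l ≠ i₀ ∧ t l j = t i₀ j) (hc : ∀ j, (N j).card = m)
    (σ : Fin r → Fin ζ → Bool) (j' : Fin ζ) (c : Fin b) :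
    img t σ (kvec i₀ N m σ) j' c = -(1 / (m : ℝ)) * ∑ a, W t i₀ N σ j' c a := by
  have hm' : (m : ℝ) ≠ 0 := by exact_mod_cast hm.ne'
  have h1 : img t σ (kvec i₀ N m σ) j' c =
      (if t i₀ j' = c then sgn (σ i₀ j') else 0) -
      (1 / (m : ℝ)) * ∑ j, ∑ l, (if t l j' = c ∧ l ∈ N j then
        sgn (σ l j') * (sgn (σ i₀ j) * sgn (σ l j)) else 0) := by
    simp only [img, kvec, mul_sub, Finset.sum_sub_distrib]
    congr 1
    · simp
    · rw [Finset.sum_comm, Finset.mul_sum]
      apply Finset.sum_congr rfl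
      intro l _
      rw [Finset.mul_sum, Finset.mul_sum, Finset.mul_sum]
      apply Finset.sum_congr rfl
      intro j _
      by_cases h1 : t l j' = c
      · by_cases h2 : l ∈ N j
        · simp only [h1, h2, if_true, and_self]; ring
        · simp [h2]
      · simp [h1]
  have h2 : ∑ j, ∑ l, (if t l j' = c ∧ l ∈ N j then
        sgn (σ l j') * (sgn (σ i₀ j) * sgn (σ l j)) else 0) =
      m * (if t i₀ j' = c then sgn (σ i₀ j') else 0) + ∑ a, W t i₀ N σ j' c a := by
    rw [Fintype.sum_prod_type]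
    rw [← Finset.add_sum_erase univ _ (mem_univ j'), ← Finset.add_sum_erase univ (fun j => ∑ l, W t i₀ N σ j' c (j, l)) (mem_univ j')]
    have h3 : ∑ l, (if t l j' = c ∧ l ∈ N j' then
        sgn (σ l j') * (sgn (σ i₀ j') * sgn (σ l j')) else 0) =
        m * (if t i₀ j' = c then sgn (σ i₀ j') else 0) := by
      have : ∀ l, (if t l j' = c ∧ l ∈ N j' then
        sgn (σ l j') * (sgn (σ i₀ j') * sgn (σ l j')) else 0) =
        if l ∈ N j' then (if t i₀ j' = c then sgn (σ i₀ j') else 0) else 0 := by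
        intro l
        by_cases hl : l ∈ N j'
        · have h4 := (hN j' l hl).2
          simp only [hl, and_true, if_true, h4]
          split_ifs
          · have := sgn_mul_self (σ l j')
            calc sgn (σ l j') * (sgn (σ i₀ j') * sgn (σ l j')) = sgn (σ i₀ j') * (sgn (σ l j') * sgn (σ l j')) := by ring
              _ = _ := by rw [this, mul_one]
          · rfl
        · simp [hl]
      rw [Finset.sum_congr rfl (fun l _ => this l), ← Finset.sum_filter, Finset.sum_const]
      have h5 : (univ.filter (fun l => l ∈ N j')) = N j' := by ext; simp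
      rw [h5, hc, nsmul_eq_mul]
    have h4 : ∑ l, W t i₀ N σ j' c (j', l) = 0 := by
      apply Finset.sum_eq_zero
      intro l _
      simp [W]
    rw [h3, h4, zero_add]
    congr 1
    apply Finset.sum_congr rfl
    intro j hj
    apply Finset.sum_congr rfl
    intro l _
    have hjj : j ≠ j' := (Finset.mem_erase.mp hj).1
    simp only [W, ne_eq, hjj, not_false_eq_true, true_and]
    by_cases h1 : t l j' = c
    · by_cases h2 : l ∈ N j
      · simp [h1, h2]
      · simp [h2]
    · simp [h1]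
  rw [h1, h2]
  field_simp
  ring

theorem sum_W_mul (t : Fin r → Fin ζ → Fin b) (i₀ : Fin r) (N : Fin ζ → Finset (Fin r))
    (hN : ∀ j, ∀ l ∈ N j, l ≠ i₀ ∧ t l j = t i₀ j) (j' : Fin ζ) (c : Fin b)
    (a a' : Fin ζ × Fin r) (haa : a ≠ a') :
    ∑ σ : Fin r → Fin ζ → Bool, W t i₀ N σ j' c a * W t i₀ N σ j' c a' = 0 := by
  by_cases h1 : a.2 ∈ N a.1 ∧ a.1 ≠ j' ∧ t a.2 j' = c
  swap
  · apply Finset.sum_eq_zero; intro σ _; simp only [W]; rw [if_neg h1]; ring
  by_cases h2 : a'.2 ∈ N a'.1 ∧ a'.1 ≠ j' ∧ t a'.2 j' = c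
  swap
  · apply Finset.sum_eq_zero; intro σ _; simp only [W]; rw [if_neg h2]; ring
  simp only [W, if_pos h1, if_pos h2]
  obtain ⟨j, l⟩ := a
  obtain ⟨j₂, l₂⟩ := a'
  simp only at h1 h2 ⊢
  have hl := (hN j l h1.1).1
  have hl₂ := (hN j₂ l₂ h2.1).1
  by_cases hjj : j = j₂
  · subst hjj
    have hll : l₂ ≠ l := by
      intro h; exact haa (by rw [h])
    apply sum_eq_zero_of_flip l j
    intro σ
    have e1 : flip l j σ l j' = σ l j' := by simp [flip, Ne.symm h1.2.1]
    have e2 : flip l j σ i₀ j = σ i₀ j := by simp [flip, Ne.symm hl]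
    have e3 : flip l j σ l j = !(σ l j) := by simp [flip]
    have e4 : flip l j σ l₂ j' = σ l₂ j' := by simp [flip, hll]
    have e5 : flip l j σ l₂ j = σ l₂ j := by simp [flip, hll]
    rw [e1, e2, e3, e4, e5, sgn_not]
    ring
  · apply sum_eq_zero_of_flip i₀ j
    intro σ
    have e1 : flip i₀ j σ l j' = σ l j' := by simp [flip, hl]
    have e2 : flip i₀ j σ i₀ j = !(σ i₀ j) := by simp [flip]
    have e3 : flip i₀ j σ l j = σ l j := by simp [flip, hl]
    have e4 : flip i₀ j σ l₂ j' = σ l₂ j' := by simp [flip, hl₂]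
    have e5 : flip i₀ j σ l₂ j₂ = σ l₂ j₂ := by simp [flip, hl₂]
    have e6 : flip i₀ j σ i₀ j₂ = σ i₀ j₂ := by simp [flip, Ne.symm hjj]
    rw [e1, e2, e3, e4, e5, e6, sgn_not]
    ring

theorem sum_energy (t : Fin r → Fin ζ → Fin b) (i₀ : Fin r) (N : Fin ζ → Finset (Fin r)) (m : ℕ)
    (hm : 0 < m) (hN : ∀ j, ∀ l ∈ N j, l ≠ i₀ ∧ t l j = t i₀ j) (hc : ∀ j, (N j).card = m) :
    ∑ σ : Fin r → Fin ζ → Bool, ∑ j', ∑ c, (img t σ (kvec i₀ N m σ) j' c) ^ 2 ≤
      (Fintype.card (Fin r → Fin ζ → Bool) : ℝ) * ((ζ : ℝ) ^ 2 / m) := by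
  have hm' : (0 : ℝ) < m := by exact_mod_cast hm
  have key : ∀ j' c, ∑ σ : Fin r → Fin ζ → Bool, (img t σ (kvec i₀ N m σ) j' c) ^ 2 =
      (1 / (m : ℝ)) ^ 2 * ((Fintype.card (Fin r → Fin ζ → Bool) : ℝ) *
        ∑ a : Fin ζ × Fin r, if a.2 ∈ N a.1 ∧ a.1 ≠ j' ∧ t a.2 j' = c then (1 : ℝ) else 0) := by
    intro j' c
    have h1 : ∀ σ : Fin r → Fin ζ → Bool, (img t σ (kvec i₀ N m σ) j' c) ^ 2 =
        (1 / (m : ℝ)) ^ 2 * ∑ a, ∑ a', W t i₀ N σ j' c a * W t i₀ N σ j' c a' := by
      intro σ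
      rw [img_kvec t i₀ N m hm hN hc, ← Finset.sum_mul_sum]
      ring
    rw [Finset.sum_congr rfl (fun σ _ => h1 σ), ← Finset.mul_sum]
    congr 1
    rw [Finset.sum_comm, Finset.mul_sum]
    apply Finset.sum_congr rfl
    intro a _
    rw [Finset.sum_comm, ← Finset.add_sum_erase univ _ (mem_univ a)]
    have h2 : ∑ a' ∈ univ.erase a, ∑ σ : Fin r → Fin ζ → Bool,
        W t i₀ N σ j' c a * W t i₀ N σ j' c a' = 0 := by
      apply Finset.sum_eq_zero
      intro a' ha'
      exact sum_W_mul t i₀ N hN j' c a a' (Ne.symm (Finset.mem_erase.mp ha').1)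
    rw [h2, add_zero]
    have h3 : ∀ σ : Fin r → Fin ζ → Bool, W t i₀ N σ j' c a * W t i₀ N σ j' c a =
        if a.2 ∈ N a.1 ∧ a.1 ≠ j' ∧ t a.2 j' = c then (1 : ℝ) else 0 := by
      intro σ
      simp only [W]
      split_ifs
      · have e1 := sgn_mul_self (σ a.2 j')
        have e2 := sgn_mul_self (σ i₀ a.1)
        have e3 := sgn_mul_self (σ a.2 a.1)
        calc sgn (σ a.2 j') * (sgn (σ i₀ a.1) * sgn (σ a.2 a.1)) *
              (sgn (σ a.2 j') * (sgn (σ i₀ a.1) * sgn (σ a.2 a.1)))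
            = (sgn (σ a.2 j') * sgn (σ a.2 j')) * (sgn (σ i₀ a.1) * sgn (σ i₀ a.1)) *
              (sgn (σ a.2 a.1) * sgn (σ a.2 a.1)) := by ring
          _ = 1 := by rw [e1, e2, e3]; ring
      · simp
    rw [Finset.sum_congr rfl (fun σ _ => h3 σ), Finset.sum_const, Finset.card_univ, nsmul_eq_mul]
  rw [Finset.sum_comm]
  have h4 : ∀ j', ∑ σ : Fin r → Fin ζ → Bool, ∑ c, (img t σ (kvec i₀ N m σ) j' c) ^ 2 ≤
      (1 / (m : ℝ)) ^ 2 * ((Fintype.card (Fin r → Fin ζ → Bool) : ℝ) * (ζ * m)) := by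
    intro j'
    rw [Finset.sum_comm, Finset.sum_congr rfl (fun c _ => key j' c), ← Finset.mul_sum,
      ← Finset.mul_sum]
    apply mul_le_mul_of_nonneg_left _ (by positivity)
    apply mul_le_mul_of_nonneg_left _ (by positivity)
    rw [Finset.sum_comm]
    have h5 : ∀ a : Fin ζ × Fin r, ∑ c : Fin b, (if a.2 ∈ N a.1 ∧ a.1 ≠ j' ∧ t a.2 j' = c then (1 : ℝ) else 0)
        ≤ if a.2 ∈ N a.1 then 1 else 0 := by
      intro a
      by_cases h : a.2 ∈ N a.1
      · by_cases h' : a.1 ≠ j'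
        · simp [h, h']
        · simp [h, h']
      · simp [h]
    refine (Finset.sum_le_sum (fun a _ => h5 a)).trans ?_
    rw [Fintype.sum_prod_type]
    have h6 : ∀ j : Fin ζ, ∑ l : Fin r, (if (j, l).2 ∈ N (j, l).1 then (1 : ℝ) else 0) = m := by
      intro j
      simp only
      rw [← Finset.sum_filter, Finset.sum_const, nsmul_eq_mul, mul_one]
      have h7 : (univ.filter (fun l => l ∈ N j)) = N j := by ext; simp
      rw [h7, hc]
    rw [Finset.sum_congr rfl (fun j _ => h6 j)]
    simp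
  refine (Finset.sum_le_sum (fun j' _ => h4 j')).trans ?_
  rw [Finset.sum_const, Finset.card_univ, Fintype.card_fin, nsmul_eq_mul]
  apply le_of_eq
  field_simp



/-- Injectivity of the (unnormalised) restricted matrix with constant `α * ζ`. -/
def Inj {r ζ b : ℕ} (α : ℝ) (σ : Fin r → Fin ζ → Bool) (t : Fin r → Fin ζ → Fin b) : Prop :=
  ∀ x : Fin r → ℝ, α * ζ * ∑ i, x i ^ 2 ≤ ∑ j, ∑ c, (img t σ x j c) ^ 2

open Classical in
/-- For positions admitting a bad row, most sign patterns violate injectivity. -/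
theorem card_signs_of_bad {r ζ b : ℕ} (α : ℝ) (hα : 0 < α) (hζ : 1 ≤ ζ) (m : ℕ) (hm : 0 < m)
    (t : Fin r → Fin ζ → Fin b) (hbad : badCount m t ≠ 0) :
    ((univ.filter (fun σ : Fin r → Fin ζ → Bool => Inj α σ t)).card : ℝ) ≤
      (Fintype.card (Fin r → Fin ζ → Bool) : ℝ) * (ζ / (α * m)) := by
  have hζ' : (0 : ℝ) < ζ := by exact_mod_cast hζ
  have hm' : (0 : ℝ) < m := by exact_mod_cast hm
  obtain ⟨i₀, hi₀⟩ := Finset.card_pos.mp (Nat.pos_of_ne_zero hbad)
  have hi₀' := (Finset.mem_filter.mp hi₀).2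
  have hN : ∀ j, ∃ N : Finset (Fin r), N ⊆ mates t i₀ j ∧ N.card = m := fun j =>
    Finset.exists_subset_card_eq (hi₀' j)
  choose N hNs hNc using hN
  have hN' : ∀ j, ∀ l ∈ N j, l ≠ i₀ ∧ t l j = t i₀ j := by
    intro j l hl
    have := hNs j hl
    simpa [mates] using this
  have hE := sum_energy t i₀ N m hm hN' hNc
  have h1 : ∀ σ : Fin r → Fin ζ → Bool, Inj α σ t →
      α * ζ ≤ ∑ j', ∑ c, (img t σ (kvec i₀ N m σ) j' c) ^ 2 := by
    intro σ hσ
    refine le_trans ?_ (hσ (kvec i₀ N m σ))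
    have h2 : (1 : ℝ) ≤ ∑ i, kvec i₀ N m σ i ^ 2 := by
      have h3 : kvec i₀ N m σ i₀ = 1 := by
        simp only [kvec, if_true]
        have : ∀ j, (if i₀ ∈ N j then sgn (σ i₀ j) * sgn (σ i₀ j) else 0) = 0 := by
          intro j
          rw [if_neg]
          intro h
          exact (hN' j i₀ h).1 rfl
        rw [Finset.sum_congr rfl (fun j _ => this j)]
        simp
      calc (1 : ℝ) = kvec i₀ N m σ i₀ ^ 2 := by rw [h3]; norm_num
        _ ≤ ∑ i, kvec i₀ N m σ i ^ 2 :=
          Finset.single_le_sum (f := fun i => kvec i₀ N m σ i ^ 2) (fun i _ => sq_nonneg _) (mem_univ i₀)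
    have : 0 ≤ α * ζ := by positivity
    nlinarith
  have h4 : ((univ.filter (fun σ : Fin r → Fin ζ → Bool => Inj α σ t)).card : ℝ) * (α * ζ) ≤
      ∑ σ : Fin r → Fin ζ → Bool, ∑ j', ∑ c, (img t σ (kvec i₀ N m σ) j' c) ^ 2 := by
    calc ((univ.filter (fun σ : Fin r → Fin ζ → Bool => Inj α σ t)).card : ℝ) * (α * ζ)
        = ∑ σ ∈ univ.filter (fun σ : Fin r → Fin ζ → Bool => Inj α σ t), (α * ζ) := by
          rw [Finset.sum_const, nsmul_eq_mul]
      _ ≤ ∑ σ ∈ univ.filter (fun σ : Fin r → Fin ζ → Bool => Inj α σ t),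
            ∑ j', ∑ c, (img t σ (kvec i₀ N m σ) j' c) ^ 2 := by
          apply Finset.sum_le_sum
          intro σ hσ
          exact h1 σ (Finset.mem_filter.mp hσ).2
      _ ≤ _ := by
          apply Finset.sum_le_sum_of_subset_of_nonneg (Finset.filter_subset _ _)
          intro σ _ _
          positivity
  have h5 := h4.trans hE
  rw [← le_div_iff₀ (by positivity)] at h5
  refine h5.trans (le_of_eq ?_)
  field_simp

open Classical in
/-- Few position patterns have no bad row. -/
theorem card_no_bad {r ζ b : ℕ} (hb : 1 ≤ b) (hr : 1 ≤ r) (m : ℕ) (p : ℝ) (hp : 0 < p)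
    (hB : ∀ i₀ : Fin r, p * (b : ℝ) ^ r ≤ ((univ.filter (fun s : Fin r → Fin b =>
        m ≤ (univ.filter (fun l => l ≠ i₀ ∧ s l = s i₀)).card)).card : ℝ)) :
    ((univ.filter (fun t : Fin r → Fin ζ → Fin b => badCount m t = 0)).card : ℝ) ≤
      (Fintype.card (Fin r → Fin ζ → Fin b) : ℝ) * ((1 + ζ * m) ^ 2 / (r * (p ^ ζ) ^ 2)) := by
  have hb' : (0 : ℝ) < b := by exact_mod_cast hb
  have hr' : (0 : ℝ) < r := by exact_mod_cast hr
  have : NeZero b := ⟨by omega⟩
  have : Nonempty (Fin ζ → Fin b) := ⟨fun _ => 0⟩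
  set f : (Fin r → Fin ζ → Fin b) → ℝ := fun t => (badCount m t : ℝ) with hf
  have hcardS : (Fintype.card (Fin ζ → Fin b) : ℝ) = (b : ℝ) ^ ζ := by
    rw [Fintype.card_fun, Fintype.card_fin, Fintype.card_fin]; push_cast; rfl
  have hcardT : (Fintype.card (Fin r → Fin ζ → Fin b) : ℝ) = (Fintype.card (Fin ζ → Fin b) : ℝ) ^ r := by
    rw [Fintype.card_fun, Fintype.card_fin]; push_cast; rfl
  have hT : (0 : ℝ) < (Fintype.card (Fin ζ → Fin b) : ℝ) ^ r := by
    rw [hcardS]; positivity
  have hvar := sum_sq_dev_le (S := Fin ζ → Fin b) (1 + ζ * m) r f (by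
    intro t i u
    exact badCount_update m t i u)
  -- mean
  set μ : ℝ := (∑ z, f z) / (Fintype.card (Fin ζ → Fin b) : ℝ) ^ r with hμ
  have hμlow : r * p ^ ζ ≤ μ := by
    rw [hμ, le_div_iff₀ hT]
    have h1 : ∑ z, f z = ∑ i : Fin r, ((univ.filter (fun t : Fin r → Fin ζ → Fin b => Bad m t i)).card : ℝ) := by
      have := sum_badCount (r := r) (ζ := ζ) (b := b) m
      simp only [hf]
      exact_mod_cast this
    rw [h1]
    have h2 : ∀ i : Fin r, p ^ ζ * (Fintype.card (Fin ζ → Fin b) : ℝ) ^ r ≤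
        ((univ.filter (fun t : Fin r → Fin ζ → Fin b => Bad m t i)).card : ℝ) := by
      intro i
      have h3 := card_bad (ζ := ζ) (b := b) i m
      have h3' : ((univ.filter (fun t : Fin r → Fin ζ → Fin b => Bad m t i)).card : ℝ) =
        ((univ.filter (fun s : Fin r → Fin b =>
        m ≤ (univ.filter (fun l => l ≠ i ∧ s l = s i)).card)).card : ℝ) ^ ζ := by
        exact_mod_cast h3
      rw [h3', hcardS]
      calc p ^ ζ * ((b : ℝ) ^ ζ) ^ r = (p * (b : ℝ) ^ r) ^ ζ := by
            rw [mul_pow, ← pow_mul, ← pow_mul, mul_comm ζ r]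
        _ ≤ _ := pow_le_pow_left₀ (by positivity) (hB i) ζ
    calc r * p ^ ζ * (Fintype.card (Fin ζ → Fin b) : ℝ) ^ r = ∑ _i : Fin r, (p ^ ζ * (Fintype.card (Fin ζ → Fin b) : ℝ) ^ r) := by
          rw [Finset.sum_const, Finset.card_univ, Fintype.card_fin, nsmul_eq_mul]; ring
      _ ≤ _ := Finset.sum_le_sum (fun i _ => h2 i)
  have hμpos : 0 < r * p ^ ζ := by positivity
  -- Chebyshev
  have hcheb : ((univ.filter (fun t : Fin r → Fin ζ → Fin b => badCount m t = 0)).card : ℝ) * μ ^ 2 ≤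
      ∑ x, (f x - μ) ^ 2 := by
    calc ((univ.filter (fun t : Fin r → Fin ζ → Fin b => badCount m t = 0)).card : ℝ) * μ ^ 2
        = ∑ t ∈ univ.filter (fun t : Fin r → Fin ζ → Fin b => badCount m t = 0), (f t - μ) ^ 2 := by
          rw [← nsmul_eq_mul, ← Finset.sum_const]
          apply Finset.sum_congr rfl
          intro t ht
          have h := (Finset.mem_filter.mp ht).2
          simp only [hf, h]
          push_cast
          ring
      _ ≤ _ := by
          apply Finset.sum_le_sum_of_subset_of_nonneg (Finset.filter_subset _ _)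
          intro t _ _
          positivity
  have h6 : ((univ.filter (fun t : Fin r → Fin ζ → Fin b => badCount m t = 0)).card : ℝ) * (r * p ^ ζ) ^ 2 ≤
      r * (1 + ζ * m) ^ 2 * (Fintype.card (Fin ζ → Fin b) : ℝ) ^ r := by
    refine le_trans ?_ (hcheb.trans hvar)
    apply mul_le_mul_of_nonneg_left _ (by positivity)
    exact pow_le_pow_left₀ hμpos.le hμlow 2
  rw [← le_div_iff₀ (by positivity)] at h6
  refine h6.trans (le_of_eq ?_)
  rw [hcardT]
  field_simp

open Classical in
/-- Combined finite estimate. -/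
theorem card_inj_le {r ζ b : ℕ} (α : ℝ) (hα : 0 < α) (hζ : 1 ≤ ζ) (hb : 1 ≤ b) (hr : 1 ≤ r)
    (m : ℕ) (hm : 0 < m) (p : ℝ) (hp : 0 < p)
    (hB : ∀ i₀ : Fin r, p * (b : ℝ) ^ r ≤ ((univ.filter (fun s : Fin r → Fin b =>
        m ≤ (univ.filter (fun l => l ≠ i₀ ∧ s l = s i₀)).card)).card : ℝ)) :
    ((univ.filter (fun q : (Fin r → Fin ζ → Bool) × (Fin r → Fin ζ → Fin b) =>
        Inj α q.1 q.2)).card : ℝ) ≤
      (Fintype.card ((Fin r → Fin ζ → Bool) × (Fin r → Fin ζ → Fin b)) : ℝ) *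
        ((1 + ζ * m) ^ 2 / (r * (p ^ ζ) ^ 2) + ζ / (α * m)) := by
  set Ts : ℝ := (Fintype.card (Fin r → Fin ζ → Bool) : ℝ) with hTs
  set Tp : ℝ := (Fintype.card (Fin r → Fin ζ → Fin b) : ℝ) with hTp
  have h1 : ((univ.filter (fun q : (Fin r → Fin ζ → Bool) × (Fin r → Fin ζ → Fin b) =>
        Inj α q.1 q.2)).card : ℝ) = ∑ t : Fin r → Fin ζ → Fin b,
        ((univ.filter (fun σ : Fin r → Fin ζ → Bool => Inj α σ t)).card : ℝ) := by
    rw [Finset.card_filter]
    push_cast
    rw [Fintype.sum_prod_type_right]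
    apply Finset.sum_congr rfl
    intro t _
    rw [Finset.card_filter]
    push_cast
    rfl
  have h2 : ∀ t : Fin r → Fin ζ → Fin b,
      ((univ.filter (fun σ : Fin r → Fin ζ → Bool => Inj α σ t)).card : ℝ) ≤
      (if badCount m t = 0 then Ts else 0) + Ts * (ζ / (α * m)) := by
    intro t
    by_cases h : badCount m t = 0
    · rw [if_pos h]
      have h3 : ((univ.filter (fun σ : Fin r → Fin ζ → Bool => Inj α σ t)).card : ℝ) ≤ Ts := by
        rw [hTs]
        exact_mod_cast Finset.card_le_univ _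
      have : 0 ≤ Ts * (ζ / (α * m)) := by positivity
      linarith
    · rw [if_neg h, zero_add]
      exact card_signs_of_bad α hα hζ m hm t h
  have h3 := card_no_bad (ζ := ζ) hb hr m p hp hB
  rw [h1]
  refine (Finset.sum_le_sum (fun t _ => h2 t)).trans ?_
  rw [Finset.sum_add_distrib, Finset.sum_const, Finset.card_univ, ← Finset.sum_filter, Finset.sum_const,
    nsmul_eq_mul, nsmul_eq_mul, Fintype.card_prod]
  push_cast
  rw [← hTs, ← hTp]
  rw [← hTp] at h3
  have hTs0 : 0 ≤ Ts := by positivity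
  have h4 := mul_le_mul_of_nonneg_right h3 hTs0
  have e : Ts * Tp * ((1 + ζ * m) ^ 2 / (r * (p ^ ζ) ^ 2) + ζ / (α * m)) =
    Tp * ((1 + ζ * m) ^ 2 / (r * (p ^ ζ) ^ 2)) * Ts + Tp * (Ts * (ζ / (α * m))) := by ring
  rw [e]
  linarith



theorem one_sub_inv_pow_ge (b : ℕ) (hb : 2 ≤ b) : Real.exp (-2) ≤ (((b : ℝ) - 1) / b) ^ b := by
  have hb' : (2 : ℝ) ≤ b := by exact_mod_cast hb
  have h1 : (0 : ℝ) < (b : ℝ) - 1 := by linarith
  have h2 : (b : ℝ) / (b - 1) ≤ Real.exp (1 / ((b : ℝ) - 1)) := by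
    have := Real.add_one_le_exp (1 / ((b : ℝ) - 1))
    refine le_trans (le_of_eq ?_) this
    field_simp
    ring
  have h3 : ((b : ℝ) / (b - 1)) ^ b ≤ Real.exp 2 := by
    calc ((b : ℝ) / (b - 1)) ^ b ≤ (Real.exp (1 / ((b : ℝ) - 1))) ^ b :=
          pow_le_pow_left₀ (by positivity) h2 b
      _ = Real.exp (b * (1 / ((b : ℝ) - 1))) := by rw [← Real.exp_nat_mul]
      _ ≤ Real.exp 2 := by
          apply Real.exp_le_exp.mpr
          rw [mul_one_div, div_le_iff₀ h1]
          linarith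
  have h4 : (((b : ℝ) - 1) / b) ^ b = (((b : ℝ) / (b - 1)) ^ b)⁻¹ := by
    rw [← inv_pow, inv_div]
  rw [h4, Real.exp_neg]
  apply inv_anti₀ _ h3
  positivity

/-- Lower bound for the probability of having many mates in one block. -/
theorem block_lower (M : ℕ) (hM : 1 ≤ M) (C : ℝ) (hC : 1 ≤ C) {r ζ b : ℕ} (hζ : 1 ≤ ζ)
    (hb : 2 ≤ b) (h1 : 2 * (M * ζ) ≤ r) (h2 : r ≤ b * ζ) (h3 : 2 * M * ((b : ℝ) * ζ) ≤ C * r)
    (i₀ : Fin r) :
    Real.exp (-((M * Real.log C + 2) * ζ)) * (b : ℝ) ^ r ≤ ((univ.filter (fun s : Fin r → Fin b =>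
        M * ζ ≤ (univ.filter (fun l => l ≠ i₀ ∧ s l = s i₀)).card)).card : ℝ) := by
  set m := M * ζ with hm
  have hm0 : 1 ≤ m := Nat.one_le_iff_ne_zero.mpr (by positivity)
  have hr0 : 0 < r := by omega
  have hb' : (2 : ℝ) ≤ b := by exact_mod_cast hb
  have hb0 : (0 : ℝ) < b := by linarith
  have hmR : (1 : ℝ) ≤ m := by exact_mod_cast hm0
  have hrR : (0 : ℝ) < r := by exact_mod_cast hr0
  have h0 := card_one_block (b := b) i₀ m
  have h0' : (b : ℝ) * ((Nat.choose (r - 1) m : ℝ) * ((b : ℝ) - 1) ^ (r - 1 - m)) ≤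
      ((univ.filter (fun s : Fin r → Fin b =>
        m ≤ (univ.filter (fun l => l ≠ i₀ ∧ s l = s i₀)).card)).card : ℝ) := by
    have hbb : ((b - 1 : ℕ) : ℝ) = (b : ℝ) - 1 := by
      rw [Nat.cast_sub (by omega)]; simp
    rw [← hbb]
    exact_mod_cast h0
  refine le_trans ?_ h0'
  -- binomial coefficient
  have hch : ((r : ℝ) / (2 * m)) ^ m ≤ (Nat.choose (r - 1) m : ℝ) := by
    have e1 := Nat.pow_le_choose (α := ℝ) m (r - 1)
    have e2 : r - 1 + 1 - m = r - m := by omega
    rw [e2] at e1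
    refine le_trans ?_ e1
    have e3 : (r : ℝ) / 2 ≤ ((r - m : ℕ) : ℝ) := by
      rw [Nat.cast_sub (by omega)]
      have : (2 * m : ℝ) ≤ r := by exact_mod_cast h1
      linarith
    have e4 : (m.factorial : ℝ) ≤ (m : ℝ) ^ m := by exact_mod_cast Nat.factorial_le_pow m
    calc ((r : ℝ) / (2 * m)) ^ m = ((r : ℝ) / 2) ^ m / (m : ℝ) ^ m := by
          rw [← div_pow, div_div]
      _ ≤ ((r - m : ℕ) : ℝ) ^ m / (m.factorial : ℝ) := by
          apply div_le_div₀
          · positivity
          · exact pow_le_pow_left₀ (by positivity) e3 m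
          · exact_mod_cast Nat.factorial_pos m
          · exact e4
  have hC0 : 0 < C := by linarith
  have hCm : (1 / C) ^ m ≤ ((r : ℝ) / (2 * m)) ^ m / (b : ℝ) ^ m := by
    rw [← div_pow]
    apply pow_le_pow_left₀ (by positivity)
    rw [div_div, div_le_div_iff₀ hC0 (by positivity)]
    have : (m : ℝ) = M * ζ := by rw [hm]; push_cast; rfl
    rw [this]
    nlinarith [h3]
  have hpow : Real.exp (-2 * ζ) ≤ (((b : ℝ) - 1) / b) ^ (r - 1 - m) := by
    have e1 : (((b : ℝ) - 1) / b) ^ (b * ζ) ≤ (((b : ℝ) - 1) / b) ^ (r - 1 - m) := by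
      apply pow_le_pow_of_le_one
      · apply div_nonneg <;> linarith
      · rw [div_le_one hb0]; linarith
      · omega
    refine le_trans ?_ e1
    rw [pow_mul]
    calc Real.exp (-2 * ζ) = (Real.exp (-2)) ^ ζ := by rw [← Real.exp_nat_mul]; ring_nf
      _ ≤ _ := pow_le_pow_left₀ (Real.exp_pos _).le (one_sub_inv_pow_ge b hb) ζ
  have hexp : Real.exp (-((M * Real.log C + 2) * ζ)) = (1 / C) ^ m * Real.exp (-2 * ζ) := by
    have : (1 / C) ^ m = Real.exp (-(M * Real.log C * ζ)) := by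
      rw [one_div, inv_pow, Real.exp_neg]
      congr 1
      rw [← Real.exp_log hC0, ← Real.exp_nat_mul, Real.log_exp]
      congr 1
      rw [hm]; push_cast; ring
    rw [this, ← Real.exp_add]
    congr 1; ring
  rw [hexp]
  have hsplit : (b : ℝ) ^ r = b * ((b : ℝ) ^ m * (b : ℝ) ^ (r - 1 - m)) := by
    rw [← pow_add, ← pow_succ']
    congr 1
    omega
  rw [hsplit]
  calc (1 / C) ^ m * Real.exp (-2 * ζ) * (b * ((b : ℝ) ^ m * (b : ℝ) ^ (r - 1 - m)))
      ≤ (((r : ℝ) / (2 * m)) ^ m / (b : ℝ) ^ m) * (((b : ℝ) - 1) / b) ^ (r - 1 - m) *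
        (b * ((b : ℝ) ^ m * (b : ℝ) ^ (r - 1 - m))) := by
        apply mul_le_mul_of_nonneg_right _ (by positivity)
        apply mul_le_mul hCm hpow (Real.exp_pos _).le (by positivity)
    _ = b * (((r : ℝ) / (2 * m)) ^ m * ((b : ℝ) - 1) ^ (r - 1 - m)) := by
        have e0 : ((b : ℝ) - 1) ^ (r - 1 - m) = (((b : ℝ) - 1) / b) ^ (r - 1 - m) * (b : ℝ) ^ (r - 1 - m) := by
          rw [← mul_pow, div_mul_cancel₀ _ hb0.ne']
        rw [e0]
        field_simp
    _ ≤ _ := by
        apply mul_le_mul_of_nonneg_left _ hb0.le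
        apply mul_le_mul_of_nonneg_right hch
        apply pow_nonneg; linarith

open Classical in
/-- Kernel case: fewer columns than rows. -/
theorem not_inj_of_lt {r ζ b : ℕ} (α : ℝ) (hα : 0 < α) (hζ : 1 ≤ ζ) (h : b * ζ < r)
    (σ : Fin r → Fin ζ → Bool) (t : Fin r → Fin ζ → Fin b) : ¬ Inj α σ t := by
  intro hI
  set L : (Fin r → ℝ) →ₗ[ℝ] (Fin ζ × Fin b → ℝ) :=
    { toFun := fun x p => img t σ x p.1 p.2
      map_add' := by
        intro x y; funext p
        simp only [img, Pi.add_apply, mul_add, Finset.sum_add_distrib]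
      map_smul' := by
        intro c x; funext p
        simp only [img, Pi.smul_apply, smul_eq_mul, RingHom.id_apply, Finset.mul_sum]
        apply Finset.sum_congr rfl
        intro l _; ring } with hL
  have hdim : Module.finrank ℝ (Fin ζ × Fin b → ℝ) < Module.finrank ℝ (Fin r → ℝ) := by
    simp only [Module.finrank_fintype_fun_eq_card, Fintype.card_prod, Fintype.card_fin]
    rw [mul_comm]; exact h
  have hker : LinearMap.ker L ≠ ⊥ := LinearMap.ker_ne_bot_of_finrank_lt hdim
  obtain ⟨x, hx, hx0⟩ := (Submodule.ne_bot_iff _).mp hker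
  have h1 := hI x
  have h2 : ∑ j, ∑ c, (img t σ x j c) ^ 2 = 0 := by
    apply Finset.sum_eq_zero; intro j _
    apply Finset.sum_eq_zero; intro c _
    have : L x (j, c) = 0 := by
      rw [LinearMap.mem_ker.mp hx]; rfl
    have h3 : img t σ x j c = 0 := this
    rw [h3]; ring
  rw [h2] at h1
  have h4 : 0 < ∑ i, x i ^ 2 := by
    have hne : ∃ i, x i ≠ 0 := by
      by_contra hcon
      push Not at hcon
      exact hx0 (funext hcon)
    obtain ⟨i, hi⟩ := hne
    have h5 : 0 < x i ^ 2 := by positivity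
    exact lt_of_lt_of_le h5 (Finset.single_le_sum (f := fun i => x i ^ 2) (fun i _ => sq_nonneg _) (mem_univ i))
  have hζ' : (0 : ℝ) < ζ := by exact_mod_cast hζ
  have : 0 < α * ζ * ∑ i, x i ^ 2 := by positivity
  linarith

open Classical in
/-- The finite core of the theorem. -/
theorem core (C₂ α ε : ℝ) (hα : 0 < α) (hε : 0 < ε) :
    ∃ c : ℝ, 0 < c ∧ ∃ R : ℕ, ∀ r ζ b : ℕ, R ≤ r → 1 ≤ ζ → 1 ≤ b →
      (ζ : ℝ) ^ 2 ≤ c * Real.log r → (b : ℝ) * ζ ≤ C₂ * r →
      ((univ.filter (fun q : (Fin r → Fin ζ → Bool) × (Fin r → Fin ζ → Fin b) =>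
        Inj α q.1 q.2)).card : ℝ) ≤
      (Fintype.card ((Fin r → Fin ζ → Bool) × (Fin r → Fin ζ → Fin b)) : ℝ) * ε := by
  obtain ⟨M, hM⟩ := exists_nat_ge (max 1 (2 / (ε * α)))
  have hM1 : (1 : ℝ) ≤ M := (le_max_left _ _).trans hM
  have hM1' : 1 ≤ M := by exact_mod_cast hM1
  have hM2 : 2 / (ε * α) ≤ M := (le_max_right _ _).trans hM
  set C : ℝ := max 1 (2 * M * C₂) with hC
  have hC1 : 1 ≤ C := le_max_left _ _
  have hC2 : 2 * M * C₂ ≤ C := le_max_right _ _
  have hlogC : 0 ≤ Real.log C := Real.log_nonneg hC1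
  set A : ℝ := M * Real.log C + 2 with hA
  have hA2 : 2 ≤ A := by
    have : 0 ≤ (M : ℝ) * Real.log C := by positivity
    linarith
  set D : ℝ := 2 * M + 2 * A with hD
  have hD4 : 4 ≤ D := by linarith
  refine ⟨1 / (2 * D), by positivity, ?_⟩
  obtain ⟨R₀, hR₀⟩ := exists_nat_ge (max 4 (4 / ε ^ 2))
  refine ⟨R₀, ?_⟩
  intro r ζ b hr hζ hb hζc hbC
  have hrR0 : (R₀ : ℝ) ≤ r := by exact_mod_cast hr
  have hr4 : (4 : ℝ) ≤ r := ((le_max_left _ _).trans hR₀).trans hrR0
  have hrε : 4 / ε ^ 2 ≤ r := ((le_max_right _ _).trans hR₀).trans hrR0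
  have hr4' : 4 ≤ r := by exact_mod_cast hr4
  have hζ' : (1 : ℝ) ≤ ζ := by exact_mod_cast hζ
  have hrpos : (0 : ℝ) < r := by linarith
  -- the basic inequality D ζ² ≤ (log r)/2
  have hlog : D * (ζ : ℝ) ^ 2 ≤ Real.log r / 2 := by
    have h1 : D * (ζ : ℝ) ^ 2 ≤ D * (1 / (2 * D) * Real.log r) :=
      mul_le_mul_of_nonneg_left hζc (by positivity)
    have h2 : D * (1 / (2 * D) * Real.log r) = Real.log r / 2 := by field_simp
    linarith
  have hlogr : Real.log r ≤ r := (Real.log_le_sub_one_of_pos hrpos).trans (by linarith)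
  have hζ2 : (ζ : ℝ) ≤ (ζ : ℝ) ^ 2 := by nlinarith
  -- 2 M ζ ≤ r
  have h1 : 2 * (M * ζ) ≤ r := by
    have : 2 * ((M : ℝ) * ζ) ≤ r := by
      have h2M : 2 * (M : ℝ) ≤ D := by linarith
      have e1 : 2 * ((M : ℝ) * ζ) ≤ D * (ζ : ℝ) ^ 2 := by
        calc 2 * ((M : ℝ) * ζ) = (2 * M) * ζ := by ring
          _ ≤ D * ζ ^ 2 := mul_le_mul h2M hζ2 (by positivity) (by positivity)
      linarith
    exact_mod_cast this
  by_cases hlt : b * ζ < r
  · have : univ.filter (fun q : (Fin r → Fin ζ → Bool) × (Fin r → Fin ζ → Fin b) =>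
        Inj α q.1 q.2) = ∅ := by
      apply Finset.filter_eq_empty_iff.mpr
      intro q _
      exact not_inj_of_lt α hα hζ hlt q.1 q.2
    rw [this]
    simp only [card_empty, Nat.cast_zero]
    positivity
  push Not at hlt
  have hb2 : 2 ≤ b := by
    by_contra hb2
    have hb1 : b = 1 := by omega
    rw [hb1, one_mul] at hlt
    have : 2 * (1 * ζ) ≤ 2 * (M * ζ) := by
      apply Nat.mul_le_mul_left
      exact Nat.mul_le_mul_right _ hM1'
    omega
  have h3 : 2 * M * ((b : ℝ) * ζ) ≤ C * r := by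
    calc 2 * M * ((b : ℝ) * ζ) ≤ 2 * M * (C₂ * r) := mul_le_mul_of_nonneg_left hbC (by positivity)
      _ = (2 * M * C₂) * r := by ring
      _ ≤ C * r := mul_le_mul_of_nonneg_right hC2 hrpos.le
  have hmain := card_inj_le (r := r) (ζ := ζ) (b := b) α hα hζ hb (by omega) (M * ζ)
    (by positivity) (Real.exp (-(A * ζ))) (Real.exp_pos _)
    (fun i₀ => block_lower M hM1' C hC1 hζ hb2 h1 hlt h3 i₀)
  refine hmain.trans ?_
  apply mul_le_mul_of_nonneg_left _ (by positivity)
  -- numeric estimate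
  have hK : (1 + (ζ : ℝ) * ((M * ζ : ℕ) : ℝ)) ≤ Real.exp (M * ζ ^ 2) := by
    have := Real.add_one_le_exp ((M : ℝ) * ζ ^ 2)
    push_cast
    nlinarith
  have hq : (Real.exp (-(A * ζ)) ^ ζ) ^ 2 = Real.exp (-(2 * A * ζ ^ 2)) := by
    rw [← Real.exp_nat_mul, ← Real.exp_nat_mul]
    congr 1
    push_cast; ring
  have hfirst : (1 + (ζ : ℝ) * ((M * ζ : ℕ) : ℝ)) ^ 2 / (r * (Real.exp (-(A * ζ)) ^ ζ) ^ 2) ≤ ε / 2 := by
    rw [hq]
    have e1 : (1 + (ζ : ℝ) * ((M * ζ : ℕ) : ℝ)) ^ 2 ≤ Real.exp (2 * M * ζ ^ 2) := by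
      calc (1 + (ζ : ℝ) * ((M * ζ : ℕ) : ℝ)) ^ 2 ≤ (Real.exp (M * ζ ^ 2)) ^ 2 :=
            pow_le_pow_left₀ (by positivity) hK 2
        _ = Real.exp (2 * M * ζ ^ 2) := by rw [← Real.exp_nat_mul]; congr 1; push_cast; ring
    have e2 : Real.exp (D * ζ ^ 2) ≤ Real.sqrt r := by
      calc Real.exp (D * ζ ^ 2) ≤ Real.exp (Real.log r / 2) := Real.exp_le_exp.mpr hlog
        _ = Real.sqrt r := by
            rw [Real.sqrt_eq_rpow, Real.rpow_def_of_pos hrpos]; congr 1; ring
    have e3 : (1 + (ζ : ℝ) * ((M * ζ : ℕ) : ℝ)) ^ 2 / (r * Real.exp (-(2 * A * ζ ^ 2))) ≤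
        Real.exp (D * ζ ^ 2) / r := by
      rw [Real.exp_neg, div_le_div_iff₀ (by positivity) hrpos]
      have e4 : Real.exp (D * ζ ^ 2) = Real.exp (2 * M * ζ ^ 2) * Real.exp (2 * A * ζ ^ 2) := by
        rw [← Real.exp_add]; congr 1; rw [hD]; ring
      rw [e4]
      have e5 : Real.exp (2 * M * (ζ : ℝ) ^ 2) * Real.exp (2 * A * ζ ^ 2) * (r * (Real.exp (2 * A * ζ ^ 2))⁻¹)
        = Real.exp (2 * M * ζ ^ 2) * r := by
        field_simp
      rw [e5]
      exact mul_le_mul_of_nonneg_right e1 hrpos.le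
    refine e3.trans ?_
    have e6 : Real.exp (D * ζ ^ 2) / r ≤ Real.sqrt r / r := div_le_div_of_nonneg_right e2 hrpos.le
    refine e6.trans ?_
    rw [Real.sqrt_div_self]
    have e7 : 2 / ε ≤ Real.sqrt r := by
      apply Real.le_sqrt_of_sq_le
      rw [div_pow]; norm_num; exact hrε
    have e8 : ε / 2 = (2 / ε)⁻¹ := by rw [inv_div]
    rw [e8]
    exact inv_anti₀ (by positivity) e7
  have hsecond : (ζ : ℝ) / (α * ((M * ζ : ℕ) : ℝ)) ≤ ε / 2 := by
    push_cast
    have e1 : (ζ : ℝ) / (α * (M * ζ)) = 1 / (α * M) := by field_simp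
    rw [e1, div_le_div_iff₀ (by positivity) (by norm_num)]
    rw [div_le_iff₀ (by positivity)] at hM2
    linarith
  linarith


end Pool.Agent.Helper95
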